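import Pool.Agent.U365.LM.F

/-!
# Every left modulus without exceptional conductors: final forms with `li`
-/

set_option autoImplicit false

namespace Pool.Agent.U365.LM

open Finset Filter
open H343E (pi1)
open Pool.Agent.R503.N (pn Mo lin)

lemma prod_ratio (S : Finset ℕ) (h : ∀ p ∈ S, 2 ≤ p) :
    ∏ p ∈ S, ((p : ℝ) / ((p : ℝ) - 1)) ≤ S.card + 1 := by
  induction S using Finset.induction_on_max with
  | empty => simp
  | insert m s hm ih =>
    have hms : m ∉ s := fun h => lt_irrefl _ (hm m h)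
    rw [prod_insert hms, card_insert_of_notMem hms]
    have ih' := ih fun p hp => h p (mem_insert_of_mem hp)
    have hcard : s.card + 2 ≤ m := by
      have h1 : s ⊆ Ico 2 m := fun p hp =>
        mem_Ico.2 ⟨h p (mem_insert_of_mem hp), hm p hp⟩
      have h2 := card_le_card h1
      rw [Nat.card_Ico] at h2
      have h3 := h m (mem_insert_self _ _)
      omega
    have hm' : (s.card : ℝ) + 2 ≤ m := by exact_mod_cast hcard
    have hs0 : (0 : ℝ) ≤ s.card := Nat.cast_nonneg _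
    have h4 : (m : ℝ) / ((m : ℝ) - 1) ≤ ((s.card : ℝ) + 2) / ((s.card : ℝ) + 1) := by
      rw [div_le_div_iff₀ (by linarith) (by linarith)]
      nlinarith
    have h5 : 0 ≤ ∏ p ∈ s, ((p : ℝ) / ((p : ℝ) - 1)) := prod_nonneg fun p hp => by
      have : (2 : ℝ) ≤ p := by exact_mod_cast h p (mem_insert_of_mem hp)
      exact div_nonneg (by linarith) (by linarith)
    calc (m : ℝ) / ((m : ℝ) - 1) * ∏ p ∈ s, ((p : ℝ) / ((p : ℝ) - 1))
        ≤ ((s.card : ℝ) + 2) / ((s.card : ℝ) + 1) * (s.card + 1) := by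
          apply mul_le_mul h4 ih' h5 (by positivity)
      _ = _ := by
          push_cast
          field_simp
          ring

/-- `q / φ(q)` is at most `1 + 2 log q` -/
lemma q_le_phi {q : ℕ} (hq : 0 < q) : (q : ℝ) ≤ q.totient * (1 + 2 * Real.log q) := by
  have h1 := Nat.totient_mul_prod_primeFactors q
  have h2 : ∏ p ∈ q.primeFactors, ((p : ℝ) / ((p : ℝ) - 1)) ≤ q.primeFactors.card + 1 :=
    prod_ratio _ fun p hp => (Nat.prime_of_mem_primeFactors hp).two_le
  have hpos : ∀ p ∈ q.primeFactors, (0 : ℝ) < (p : ℝ) - 1 := by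
    intro p hp
    have : (2 : ℝ) ≤ p := by exact_mod_cast (Nat.prime_of_mem_primeFactors hp).two_le
    linarith
  have h3 : (q.totient : ℝ) * ∏ p ∈ q.primeFactors, (p : ℝ) =
      q * ∏ p ∈ q.primeFactors, ((p : ℝ) - 1) := by
    have := congrArg (Nat.cast : ℕ → ℝ) h1
    push_cast at this
    rw [this]
    congr 1
    refine prod_congr rfl fun p hp => ?_
    rw [Nat.cast_sub (Nat.prime_of_mem_primeFactors hp).one_lt.le, Nat.cast_one]
  have hP : (0 : ℝ) < ∏ p ∈ q.primeFactors, ((p : ℝ) - 1) := prod_pos hpos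
  have h4 : (q : ℝ) = q.totient * ∏ p ∈ q.primeFactors, ((p : ℝ) / ((p : ℝ) - 1)) := by
    rw [prod_div_distrib, mul_div_assoc', h3, mul_div_assoc, div_self hP.ne', mul_one]
  have h5 : ((q.primeFactors.card : ℕ) : ℝ) ≤ 2 * Real.log q := by
    have h6 : 2 ^ q.primeFactors.card ≤ q := by
      calc 2 ^ q.primeFactors.card = ∏ p ∈ q.primeFactors, 2 := by rw [prod_const]
        _ ≤ ∏ p ∈ q.primeFactors, p :=
            prod_le_prod' fun p hp => (Nat.prime_of_mem_primeFactors hp).two_le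
        _ ≤ q := Nat.le_of_dvd hq (Nat.prod_primeFactors_dvd q)
    have h7 : ((q.primeFactors.card : ℕ) : ℝ) * Real.log 2 ≤ Real.log q := by
      rw [← Real.log_pow]
      exact Real.log_le_log (by positivity) (by exact_mod_cast h6)
    have h8 := Real.log_two_gt_d9
    have h9 : (0 : ℝ) ≤ q.primeFactors.card := Nat.cast_nonneg _
    nlinarith
  calc (q : ℝ) = q.totient * ∏ p ∈ q.primeFactors, ((p : ℝ) / ((p : ℝ) - 1)) := h4
    _ ≤ q.totient * (q.primeFactors.card + 1) := by gcongr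
    _ ≤ q.totient * (1 + 2 * Real.log q) := by
        have : (0 : ℝ) ≤ q.totient := Nat.cast_nonneg _
        nlinarith

lemma Mo_sub {x q : ℕ} {c : ℤ} {θ ε η : ℝ} (hx : 1 ≤ x) (hq : 0 < q) (hθ : θ ≤ 1) {T : Finset ℕ}
    (hT : ∀ t ∈ T, Mo x q c θ ε η t) : T ⊆ Icc 1 x := by
  intro t ht
  rw [mem_Icc]
  refine ⟨(hT t ht).pos, ?_⟩
  have hx1 : (1 : ℝ) ≤ x := by exact_mod_cast hx
  have h1 : (t : ℝ) ≤ x := by
    have h2 : (t : ℝ) ≤ q * t := le_mul_of_one_le_left (Nat.cast_nonneg t) (by exact_mod_cast hq)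
    refine h2.trans ((hT t ht).2.2.2.trans ?_)
    calc (x : ℝ) ^ θ ≤ (x : ℝ) ^ (1 : ℝ) := Real.rpow_le_rpow_of_exponent_le hx1 hθ
      _ = x := Real.rpow_one _
  exact_mod_cast h1

/-- the prime number theorem in the form needed -/
lemma li_q (U : ℕ) : ∀ᶠ x : ℕ in atTop, ∀ q : ℕ, 0 < q → q ≤ x → ∀ y : ℕ → ℕ, (∀ t, 2 ≤ y t ∧ y t ≤ x) →
    ∀ (T : Finset ℕ) (c : ℤ) (B1 : ℝ), T ⊆ Icc 1 x → (∀ t ∈ T, q.Coprime t) →
    ∑ t ∈ T, |pn (y t) (q * t) c - pi1 (y t) / (Nat.totient (q * t) : ℝ)| ≤ B1 →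
    ∑ t ∈ T, |pn (y t) (q * t) c - lin (y t) / (Nat.totient (q * t) : ℝ)| ≤ B1 + (1 / 2) * (x / (q * Real.log x ^ U)) := by
  have h4 : ∀ᶠ x : ℕ in atTop, 32 ≤ Real.log x :=
    (Real.tendsto_log_atTop.comp tendsto_natCast_atTop_atTop).eventually (eventually_ge_atTop _)
  filter_upwards [li_unif (U + 4), eventually_ge_atTop 3, h4] with x h1 hx h4 q hq hqx y hy T c B1 hT hcop hB
  have h2 := transfer_li hx hq hT hcop y hB (B2 := x / Real.log x ^ (U + 4)) (fun t => h1 (y t) (hy t).1 (hy t).2)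
  refine h2.trans (add_le_add le_rfl ?_)
  have hx0 : (0 : ℝ) < x := by exact_mod_cast (by omega : 0 < x)
  have hqr : (0 : ℝ) < q := by exact_mod_cast hq
  obtain ⟨L, hLd⟩ : ∃ L : ℝ, L = Real.log x := ⟨_, rfl⟩
  rw [← hLd] at h4 ⊢
  have hL0 : 0 < L := by linarith
  have hφ0 : (0 : ℝ) < Nat.totient q := by exact_mod_cast Nat.totient_pos.2 hq
  -- `1 / φ(q) ≤ 4 log x / q`
  have hφ : 1 / (Nat.totient q : ℝ) ≤ 4 * L / q := by
    have h5 := q_le_phi hq
    have h6 : Real.log q ≤ L := by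
      rw [hLd]
      exact Real.log_le_log hqr (by exact_mod_cast hqx)
    rw [div_le_div_iff₀ hφ0 hqr, one_mul]
    refine h5.trans ?_
    rw [mul_comm]
    apply mul_le_mul_of_nonneg_right _ hφ0.le
    linarith
  calc 4 * L ^ 2 * (x / L ^ (U + 4) / (Nat.totient q : ℝ)) = 4 * L ^ 2 * (x / L ^ (U + 4)) * (1 / (Nat.totient q : ℝ)) := by
        ring
    _ ≤ 4 * L ^ 2 * (x / L ^ (U + 4)) * (4 * L / q) := by gcongr
    _ = (16 / L) * (x / (q * L ^ U)) := by rw [pow_add]; field_simp; ring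
    _ ≤ _ := by
        apply mul_le_mul_of_nonneg_right _ (by positivity)
        rw [div_le_iff₀ hL0]
        linarith

end Pool.Agent.U365.LM
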