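import Pool.Agent.U365.LM.N

/-!
# Every left modulus without exceptional conductors: nested choices of classes, final forms
-/

set_option autoImplicit false

namespace Pool.Agent.U365.LM

open Finset Filter
open H343E (pi1)
open Pool.Agent.R503.N (pn lin rep rep_coprime)
open Pool.Agent.R503.T (LS length_le seq_max)

lemma LS_len {x q : ℕ} {θ ρ η σ : ℝ} {A : List ℕ → ℤ} {D : Finset (List ℕ)} (hL : LS x q θ ρ η σ A D)
    (hx3 : 3 ≤ x) (hρ : 0 < ρ) (hθ : θ ≤ 1) {l : List ℕ} (hl : l ∈ D) : l.length ≤ ⌈1 / ρ⌉₊ := by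
  have hx1' : (1 : ℝ) < x := by exact_mod_cast (by omega : 1 < x)
  have h2 := length_le hL hx1' hρ hθ hl
  have h3 := Nat.le_ceil (1 / ρ)
  exact_mod_cast h2.trans h3

/-- **Individual left moduli, nested choices of the classes, power saving.** -/
theorem nested_power (θ η ρ σ κ : ℝ) (hθ1 : 1 / 2 ≤ θ) (hη : 0 < η) (hσ : 0 ≤ σ)
    (hC3 : 28 * (θ - 1 / 2) + 20 * η + 15 * σ < 1 / 3)
    (hHG : 2 * (θ - 1 / 2) + σ < ρ) (hκ0 : 0 ≤ κ) (hκ : κ + σ < 1 / 3) (ν : ℝ) (hν : 0 < ν) :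
    ∃ δ : ℝ, 0 < δ ∧ ∀ B : ℕ, 1 ≤ B → ∀ᶠ x : ℕ in atTop, ∃ P : Finset ℕ,
    (∀ f ∈ P, 2 ≤ f) ∧
    (∀ z : ℕ, 1 ≤ z → ((P.filter (fun f => f ≤ z)).card : ℝ) ≤ (x : ℝ) ^ ν * (1 + z * (x : ℝ) ^ (-(1 / 20) : ℝ))) ∧
    ∀ q : ℕ, (q : ℝ) ≤ (x : ℝ) ^ κ → (∀ f ∈ P, ¬ f ∣ q) → ∀ (A : List ℕ → ℤ) (D : Finset (List ℕ)),
      LS x q θ ρ η σ A D → ∀ y : List ℕ → ℕ, (∀ l, 2 ≤ y l ∧ y l ≤ x) →
      ∑ l ∈ D, (B : ℝ) ^ (q * l.prod).primeFactors.card *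
        |pn (y l) (q * l.prod) (A l) - pi1 (y l) / (Nat.totient (q * l.prod) : ℝ)| ≤ (x : ℝ) ^ (1 - δ) / q := by
  classical
  obtain ⟨e1, he1, hev1⟩ := seq_max θ η ρ σ κ hθ1 hη hσ hC3 hHG hκ0 hκ
  obtain ⟨e2, he2, hev2⟩ := power ν hν
  have hρ : 0 < ρ := by linarith
  have hθ' : θ ≤ 1 := by linarith
  obtain ⟨δ, hδ⟩ : ∃ δ : ℝ, δ = min e1 e2 / 4 := ⟨_, rfl⟩
  have hm0 : 0 < min e1 e2 := lt_min he1 he2
  have hδ0 : 0 < δ := by rw [hδ]; positivity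
  have hδ1 : 4 * δ ≤ e1 := by rw [hδ]; linarith [min_le_left e1 e2]
  have hδ2 : 4 * δ ≤ e2 := by rw [hδ]; linarith [min_le_right e1 e2]
  obtain ⟨Cd, hCd⟩ : ∃ Cd : ℝ, Cd = (Fintype.card (Fin ⌈1 / ρ⌉₊ → Fin ⌈1 / ρ⌉₊) : ℝ) := ⟨_, rfl⟩
  have hCd0 : 0 ≤ Cd := by rw [hCd]; exact Nat.cast_nonneg _
  refine ⟨δ, hδ0, fun B hB => ?_⟩
  have hBr : (1 : ℝ) ≤ B := by exact_mod_cast hB
  have hB0 : (0 : ℝ) < B := by linarith
  have h1 : ∀ᶠ X : ℝ in atTop, (1 + 4 * Cd) * Real.log X ^ 2 ≤ X ^ δ := Pool.Agent.Y61.Z.ev_log_rpow _ 2 hδ0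
  have hr : 0 < δ / (B + 1) := by positivity
  filter_upwards [hev1, hev2, tendsto_natCast_atTop_atTop.eventually h1,
    eventually_ge_atTop 3, Pool.Agent.R503.N.ev_basic (δ / (B + 1)) hr, ev_rpow hδ0 ((B : ℝ) ^ ⌈1 / ρ⌉₊),
    li_unif 0] with x g1 g2 g3 hx g5 g6 g7
  obtain ⟨P, hP2, hPc, hP⟩ := g2
  have hx0 : (0 : ℝ) < x := by exact_mod_cast (by omega : 0 < x)
  have hx1 : (1 : ℝ) ≤ x := by exact_mod_cast (by omega : 1 ≤ x)
  have rle : ∀ {a b : ℝ}, a ≤ b → (x : ℝ) ^ a ≤ (x : ℝ) ^ b := fun h => Real.rpow_le_rpow_of_exponent_le hx1 h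
  have rpos : ∀ a : ℝ, 0 < (x : ℝ) ^ a := fun a => Real.rpow_pos_of_pos hx0 a
  refine ⟨P, hP2, hPc, fun q hqκ hqP A D hL y hy => ?_⟩
  have hq := hL.q0p
  have hqr : (0 : ℝ) < q := by exact_mod_cast hq
  have hqx : q ≤ x := by
    have : (q : ℝ) ≤ x := hqκ.trans (by
      calc (x : ℝ) ^ κ ≤ (x : ℝ) ^ (1 : ℝ) := rle (by linarith)
        _ = x := Real.rpow_one _)
    exact_mod_cast this
  have hmain := (nested_one hL hx hρ hθ' (hqκ.trans (rle (by linarith))) y hy (B2 := (x : ℝ) ^ (1 - e2) / q)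
    (B3 := x / Real.log x ^ 0) (by positivity)
    (g1 q hqκ A D hL y (fun l => (hy l).2)) (by
      intro hc z hz
      rw [pn_rep' _ q _ hq hc]
      exact (hP q hq (hqκ.trans (rle (by linarith))) hqP _ (rep_coprime q _ hq) z hz).2)
    (fun z hz1 hz2 => g7 z hz1 hz2)).1
  rw [← hCd, abs_of_nonneg (by have := rpos (1 - e2); positivity)] at hmain
  have hτ := tau_ge hq
  have hτ2 : tau q ≤ (x : ℝ) ^ (δ / (B + 1)) := g5.1 q hq.ne' hqx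
  have hτ3 : tau q ^ B ≤ (x : ℝ) ^ δ := by
    calc tau q ^ B ≤ ((x : ℝ) ^ (δ / (B + 1))) ^ B := pow_le_pow_left₀ (by linarith) hτ2 B
      _ = (x : ℝ) ^ (δ / (B + 1) * B) := by rw [← Real.rpow_natCast, ← Real.rpow_mul hx0.le]
      _ ≤ (x : ℝ) ^ δ := by
          apply rle
          rw [div_mul_eq_mul_div, div_le_iff₀ (by positivity)]
          nlinarith
  have hw : ∀ l ∈ D, (B : ℝ) ^ (q * l.prod).primeFactors.card ≤ (x : ℝ) ^ δ * (x : ℝ) ^ δ := by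
    intro l hl
    refine (weight_le hq hB (fun p hp => (hL.pm l hl p hp).1) (LS_len hL hx hρ hθ' hl)).trans ?_
    exact mul_le_mul g6 hτ3 (by positivity) (rpos _).le
  have hsum : ∑ l ∈ D, (B : ℝ) ^ (q * l.prod).primeFactors.card *
        |pn (y l) (q * l.prod) (A l) - pi1 (y l) / (Nat.totient (q * l.prod) : ℝ)| ≤
      ((x : ℝ) ^ δ * (x : ℝ) ^ δ) * ∑ l ∈ D,
        |pn (y l) (q * l.prod) (A l) - pi1 (y l) / (Nat.totient (q * l.prod) : ℝ)| := by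
    rw [mul_sum]
    exact sum_le_sum fun l hl => mul_le_mul_of_nonneg_right (hw l hl) (abs_nonneg _)
  refine hsum.trans ?_
  have hl := Pool.Agent.R503.N.log_ge1 hx
  have i1 : (x : ℝ) ^ (1 - e1) ≤ (x : ℝ) ^ (1 - 4 * δ) := rle (by linarith)
  have i2 : (x : ℝ) ^ (1 - e2) ≤ (x : ℝ) ^ (1 - 4 * δ) := rle (by linarith)
  have i3 : (1 : ℝ) + Cd * (4 * Real.log x ^ 2) ≤ (1 + 4 * Cd) * Real.log x ^ 2 := by
    have : (1 : ℝ) ≤ Real.log x ^ 2 := one_le_pow₀ hl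
    nlinarith
  have hp := rpos (1 - 4 * δ)
  calc ((x : ℝ) ^ δ * (x : ℝ) ^ δ) * ∑ l ∈ D,
        |pn (y l) (q * l.prod) (A l) - pi1 (y l) / (Nat.totient (q * l.prod) : ℝ)| ≤
      ((x : ℝ) ^ δ * (x : ℝ) ^ δ) * ((x : ℝ) ^ (1 - e1) / q + Cd * (4 * Real.log x ^ 2) * ((x : ℝ) ^ (1 - e2) / q)) := by
        apply mul_le_mul_of_nonneg_left hmain (by have := rpos δ; positivity)
    _ ≤ ((x : ℝ) ^ δ * (x : ℝ) ^ δ) * ((x : ℝ) ^ (1 - 4 * δ) / q +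
          Cd * (4 * Real.log x ^ 2) * ((x : ℝ) ^ (1 - 4 * δ) / q)) := by
        have := rpos δ
        gcongr
    _ = ((x : ℝ) ^ δ * (x : ℝ) ^ δ) * ((1 + Cd * (4 * Real.log x ^ 2)) * (x : ℝ) ^ (1 - 4 * δ)) / q := by ring
    _ ≤ ((x : ℝ) ^ δ * (x : ℝ) ^ δ) * ((x : ℝ) ^ δ * (x : ℝ) ^ (1 - 4 * δ)) / q := by
        have := rpos δ
        apply div_le_div_of_nonneg_right _ hqr.le
        apply mul_le_mul_of_nonneg_left _ (by positivity)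
        exact mul_le_mul_of_nonneg_right (i3.trans g3) hp.le
    _ = (x : ℝ) ^ (1 - δ) / q := by
        rw [← Real.rpow_add hx0, ← Real.rpow_add hx0, ← Real.rpow_add hx0]
        congr 2
        ring

/-- **Individual left moduli, nested choices of the classes, savings of powers of the logarithm.** -/
theorem nested_log (θ η ρ σ κ : ℝ) (hθ1 : 1 / 2 ≤ θ) (hη : 0 < η) (hσ : 0 ≤ σ)
    (hC3 : 28 * (θ - 1 / 2) + 20 * η + 15 * σ < 1 / 3)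
    (hHG : 2 * (θ - 1 / 2) + σ < ρ) (hκ0 : 0 ≤ κ) (hκ : κ + σ < 1 / 3) (B E U : ℕ) (hB : 1 ≤ B) :
    ∃ C : ℕ, ∀ A' : ℕ, ∀ᶠ x : ℕ in atTop, ∃ P : Finset ℕ,
    (∀ f ∈ P, 2 ≤ f ∧ Real.log x ^ A' < f) ∧
    (∀ z : ℕ, 1 ≤ z → ((P.filter (fun f => f ≤ z)).card : ℝ) ≤ Real.log x ^ C * (1 + z * (x : ℝ) ^ (-(1 / 20) : ℝ))) ∧
    ∀ q : ℕ, (q : ℝ) ≤ (x : ℝ) ^ κ → (q.divisors.card : ℝ) ≤ Real.log x ^ E → (∀ f ∈ P, ¬ f ∣ q) →
      ∀ (A : List ℕ → ℤ) (D : Finset (List ℕ)),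
      LS x q θ ρ η σ A D → ∀ y : List ℕ → ℕ, (∀ l, 2 ≤ y l ∧ y l ≤ x) →
      ∑ l ∈ D, (B : ℝ) ^ (q * l.prod).primeFactors.card *
        |pn (y l) (q * l.prod) (A l) - lin (y l) / (Nat.totient (q * l.prod) : ℝ)| ≤ x / (q * Real.log x ^ U) := by
  classical
  obtain ⟨e1, he1, hev1⟩ := seq_max θ η ρ σ κ hθ1 hη hσ hC3 hHG hκ0 hκ
  obtain ⟨C, hC⟩ := logsave (U + E * B + 3) E
  refine ⟨C, fun A' => ?_⟩
  have hρ : 0 < ρ := by linarith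
  have hθ' : θ ≤ 1 := by linarith
  obtain ⟨Cd, hCd⟩ : ∃ Cd : ℝ, Cd = (Fintype.card (Fin ⌈1 / ρ⌉₊ → Fin ⌈1 / ρ⌉₊) : ℝ) := ⟨_, rfl⟩
  have hCd0 : 0 ≤ Cd := by rw [hCd]; exact Nat.cast_nonneg _
  obtain ⟨W, hW⟩ : ∃ W : ℝ, W = (B : ℝ) ^ ⌈1 / ρ⌉₊ := ⟨_, rfl⟩
  have hBr : (1 : ℝ) ≤ B := by exact_mod_cast hB
  have hW0 : 0 < W := by rw [hW]; positivity
  have h1 : ∀ᶠ X : ℝ in atTop, (3 * W) * Real.log X ^ (U + E * B) ≤ X ^ e1 := Pool.Agent.Y61.Z.ev_log_rpow _ _ he1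
  have h4 : ∀ᶠ x : ℕ in atTop, 1 + 48 * (W * Cd) ≤ Real.log x :=
    (Real.tendsto_log_atTop.comp tendsto_natCast_atTop_atTop).eventually (eventually_ge_atTop _)
  filter_upwards [hev1, hC A', tendsto_natCast_atTop_atTop.eventually h1,
    eventually_ge_atTop 3, h4, li_unif (U + E * B + 4)] with x g1 g2 g3 hx g5 g7
  obtain ⟨P, hP2, hPc, hP⟩ := g2
  have hx0 : (0 : ℝ) < x := by exact_mod_cast (by omega : 0 < x)
  have hx1 : (1 : ℝ) ≤ x := by exact_mod_cast (by omega : 1 ≤ x)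
  have rle : ∀ {a b : ℝ}, a ≤ b → (x : ℝ) ^ a ≤ (x : ℝ) ^ b := fun h => Real.rpow_le_rpow_of_exponent_le hx1 h
  refine ⟨P, hP2, hPc, fun q hqκ hqE hqP A D hL y hy => ?_⟩
  have hq := hL.q0p
  have hqr : (0 : ℝ) < q := by exact_mod_cast hq
  have hφ0 : (0 : ℝ) < Nat.totient q := by exact_mod_cast Nat.totient_pos.2 hq
  have hqx : q ≤ x := by
    have : (q : ℝ) ≤ x := hqκ.trans (by
      calc (x : ℝ) ^ κ ≤ (x : ℝ) ^ (1 : ℝ) := rle (by linarith)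
        _ = x := Real.rpow_one _)
    exact_mod_cast this
  have hWC : 0 ≤ W * Cd := by positivity
  have hl0 : 0 < Real.log x := by linarith
  have hmain := (nested_one hL hx hρ hθ' (hqκ.trans (rle (by linarith))) y hy
    (B2 := x / (q * Real.log x ^ (U + E * B + 3)))
    (B3 := x / Real.log x ^ (U + E * B + 4)) (by positivity)
    (g1 q hqκ A D hL y (fun l => (hy l).2)) (by
      intro hc z hz
      rw [pn_rep' _ q _ hq hc]
      exact (hP q hq (hqκ.trans (rle (by linarith))) hqE hqP _ (rep_coprime q _ hq) z hz).2)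
    (fun z hz1 hz2 => g7 z hz1 hz2)).2
  rw [← hCd, abs_of_nonneg (by positivity)] at hmain
  have hφ : 1 / (Nat.totient q : ℝ) ≤ 4 * Real.log x / q := by
    have h5 := q_le_phi hq
    have h6 : Real.log q ≤ Real.log x := Real.log_le_log hqr (by exact_mod_cast hqx)
    have h7 := Pool.Agent.R503.N.log_ge1 hx
    rw [div_le_div_iff₀ hφ0 hqr, one_mul]
    refine h5.trans ?_
    rw [mul_comm]
    apply mul_le_mul_of_nonneg_right _ hφ0.le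
    linarith
  obtain ⟨L, hLd⟩ : ∃ L : ℝ, L = Real.log x := ⟨_, rfl⟩
  rw [← hLd] at hmain hφ hqE hl0 g3 g5 ⊢
  have hτ := tau_ge hq
  have hτ3 : tau q ^ B ≤ L ^ (E * B) := by
    rw [pow_mul]
    exact pow_le_pow_left₀ (by linarith) hqE B
  have hw : ∀ l ∈ D, (B : ℝ) ^ (q * l.prod).primeFactors.card ≤ W * L ^ (E * B) := by
    intro l hl
    refine (weight_le hq hB (fun p hp => (hL.pm l hl p hp).1) (LS_len hL hx hρ hθ' hl)).trans ?_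
    rw [← hW]
    exact mul_le_mul_of_nonneg_left hτ3 hW0.le
  have hsum : ∑ l ∈ D, (B : ℝ) ^ (q * l.prod).primeFactors.card *
        |pn (y l) (q * l.prod) (A l) - lin (y l) / (Nat.totient (q * l.prod) : ℝ)| ≤
      (W * L ^ (E * B)) * ∑ l ∈ D,
        |pn (y l) (q * l.prod) (A l) - lin (y l) / (Nat.totient (q * l.prod) : ℝ)| := by
    rw [mul_sum]
    exact sum_le_sum fun l hl => mul_le_mul_of_nonneg_right (hw l hl) (abs_nonneg _)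
  refine hsum.trans ?_
  refine (mul_le_mul_of_nonneg_left hmain (by positivity)).trans ?_
  have i1 : (W * L ^ (E * B)) * ((x : ℝ) ^ (1 - e1) / q) ≤ (1 / 3) * (x / (q * L ^ U)) := by
    have e : (x : ℝ) ^ (1 - e1) = x / (x : ℝ) ^ e1 := by rw [Real.rpow_sub hx0, Real.rpow_one]
    rw [e]
    calc (W * L ^ (E * B)) * (x / (x : ℝ) ^ e1 / q) ≤ (W * L ^ (E * B)) * (x / ((3 * W) * L ^ (U + E * B)) / q) := by
          gcongr
      _ = _ := by rw [pow_add]; field_simp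
  have i2 : (W * L ^ (E * B)) * (Cd * (4 * L ^ 2) * (x / (q * L ^ (U + E * B + 3)))) ≤ (1 / 3) * (x / (q * L ^ U)) := by
    calc (W * L ^ (E * B)) * (Cd * (4 * L ^ 2) * (x / (q * L ^ (U + E * B + 3)))) =
        (4 * (W * Cd) / L) * (x / (q * L ^ U)) := by
          rw [pow_add L (U + E * B) 3, pow_add L U (E * B)]; field_simp
      _ ≤ (1 / 3) * (x / (q * L ^ U)) := by
          apply mul_le_mul_of_nonneg_right _ (by positivity)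
          rw [div_le_iff₀ hl0]
          linarith
  have i3 : (W * L ^ (E * B)) * (Cd * (4 * L ^ 2) * (x / L ^ (U + E * B + 4) / (Nat.totient q : ℝ))) ≤
      (1 / 3) * (x / (q * L ^ U)) := by
    calc (W * L ^ (E * B)) * (Cd * (4 * L ^ 2) * (x / L ^ (U + E * B + 4) / (Nat.totient q : ℝ))) =
        (W * L ^ (E * B)) * (Cd * (4 * L ^ 2) * (x / L ^ (U + E * B + 4))) * (1 / (Nat.totient q : ℝ)) := by ring
      _ ≤ (W * L ^ (E * B)) * (Cd * (4 * L ^ 2) * (x / L ^ (U + E * B + 4))) * (4 * L / q) := by gcongr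
      _ = (16 * (W * Cd) / L) * (x / (q * L ^ U)) := by
          rw [pow_add L (U + E * B) 4, pow_add L U (E * B)]; field_simp; ring
      _ ≤ (1 / 3) * (x / (q * L ^ U)) := by
          apply mul_le_mul_of_nonneg_right _ (by positivity)
          rw [div_le_iff₀ hl0]
          linarith
  have e : (W * L ^ (E * B)) * ((x : ℝ) ^ (1 - e1) / q + Cd * (4 * L ^ 2) * (x / (q * L ^ (U + E * B + 3)) +
      x / L ^ (U + E * B + 4) / (Nat.totient q : ℝ))) = (W * L ^ (E * B)) * ((x : ℝ) ^ (1 - e1) / q) +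
      (W * L ^ (E * B)) * (Cd * (4 * L ^ 2) * (x / (q * L ^ (U + E * B + 3)))) +
      (W * L ^ (E * B)) * (Cd * (4 * L ^ 2) * (x / L ^ (U + E * B + 4) / (Nat.totient q : ℝ))) := by ring
  rw [e]
  linarith

end Pool.Agent.U365.LM
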