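import Pool.Agent.U365.LM.J

/-!
# Every left modulus without exceptional conductors: `ψ`, individual moduli
-/

set_option autoImplicit false

namespace Pool.Agent.U365.LM

open Finset Filter
open H343E (psi1 psiAP Eψ)
open Pool.Agent.R503.N (Mo Mo.pos rep rep_coprime)

lemma inv_phi_le {m x : ℕ} (hm : 0 < m) (hmx : m ≤ x) (hx : 3 ≤ x) :
    1 / (Nat.totient m : ℝ) ≤ 4 * Real.log x / m := by
  have h5 := q_le_phi hm
  have hmr : (0 : ℝ) < m := by exact_mod_cast hm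
  have h6 : Real.log m ≤ Real.log x := Real.log_le_log hmr (by exact_mod_cast hmx)
  have hφ0 : (0 : ℝ) < Nat.totient m := by exact_mod_cast Nat.totient_pos.2 hm
  have hL := Pool.Agent.R503.N.log_ge1 hx
  rw [div_le_div_iff₀ hφ0 hmr, one_mul]
  refine h5.trans ?_
  rw [mul_comm]
  apply mul_le_mul_of_nonneg_right _ hφ0.le
  linarith

/-- from `ψ(y)` to `y` -/
lemma reg_x (U : ℕ) : ∀ᶠ x : ℕ in atTop, ∀ m : ℕ, 0 < m → m ≤ x → ∀ (c : ℤ) (y : ℝ), 1 ≤ y → y ≤ x → ∀ E : ℝ,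
    |ps ⌊y⌋₊ m c - psi1 (⌊y⌋₊ : ℝ) / (Nat.totient m : ℝ)| ≤ E →
    |ps ⌊y⌋₊ m c - y / (Nat.totient m : ℝ)| ≤ E + (1 / 2) * (x / (m * Real.log x ^ U)) := by
  have h4 : ∀ᶠ x : ℕ in atTop, 16 ≤ Real.log x :=
    (Real.tendsto_log_atTop.comp tendsto_natCast_atTop_atTop).eventually (eventually_ge_atTop _)
  have h6 : ∀ᶠ X : ℝ in atTop, 1 * Real.log X ^ (U + 2) ≤ X ^ (1 : ℝ) :=
    Pool.Agent.Y61.Z.ev_log_rpow _ _ (by norm_num)
  filter_upwards [psi_unif (U + 2), eventually_ge_atTop 3, h4, tendsto_natCast_atTop_atTop.eventually h6] with x h1 hx h4 h6 m hm hmx c y hy1 hyx E hE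
  have hx0 : (0 : ℝ) < x := by exact_mod_cast (by omega : 0 < x)
  have hmr : (0 : ℝ) < m := by exact_mod_cast hm
  have hφ0 : (0 : ℝ) < Nat.totient m := by exact_mod_cast Nat.totient_pos.2 hm
  have hφ := inv_phi_le hm hmx hx
  rw [one_mul, Real.rpow_one] at h6
  obtain ⟨L, hLd⟩ : ∃ L : ℝ, L = Real.log x := ⟨_, rfl⟩
  rw [← hLd] at h1 h4 h6 hφ ⊢
  have hL0 : 0 < L := by linarith
  have hy0 : 0 ≤ y := by linarith
  have hfl : (⌊y⌋₊ : ℝ) ≤ y := Nat.floor_le hy0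
  have hfx : ⌊y⌋₊ ≤ x := by
    have : (⌊y⌋₊ : ℝ) ≤ x := hfl.trans hyx
    exact_mod_cast this
  have h7 := h1 ⌊y⌋₊ hfx
  have h8 : |psi1 (⌊y⌋₊ : ℝ) - y| ≤ 2 * (x / L ^ (U + 2)) := by
    have h9 := Nat.lt_floor_add_one y
    have h10 : 1 ≤ x / L ^ (U + 2) := by
      rw [one_le_div (by positivity)]
      exact h6
    rw [abs_le] at h7 ⊢
    constructor <;> linarith [h7.1, h7.2]
  have e : ps ⌊y⌋₊ m c - y / (Nat.totient m : ℝ) = (ps ⌊y⌋₊ m c - psi1 (⌊y⌋₊ : ℝ) / (Nat.totient m : ℝ)) +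
      (1 / (Nat.totient m : ℝ)) * (psi1 (⌊y⌋₊ : ℝ) - y) := by ring
  rw [e]
  refine (abs_add_le _ _).trans (add_le_add hE ?_)
  rw [abs_mul, abs_of_nonneg (by positivity : (0 : ℝ) ≤ 1 / (Nat.totient m : ℝ))]
  calc 1 / (Nat.totient m : ℝ) * |psi1 (⌊y⌋₊ : ℝ) - y| ≤ (4 * L / m) * (2 * (x / L ^ (U + 2))) := by gcongr
    _ = (8 / L) * (x / (m * L ^ U)) := by rw [pow_add]; field_simp; ring
    _ ≤ _ := by
        apply mul_le_mul_of_nonneg_right _ (by positivity)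
        rw [div_le_iff₀ hL0]
        linarith

/-- the primes are well distributed in the class `c` modulo `m` at all real heights up to `x`, with the
error terms `E1` (for `ψ(y)/φ(m)`) and `E2` (for `y/φ(m)`) -/
def Reg (x : ℕ) (E1 E2 : ℝ) (m : ℕ) (c : ℤ) : Prop :=
  ∀ y : ℝ, 1 ≤ y → y ≤ x → |ps ⌊y⌋₊ m c - psi1 (⌊y⌋₊ : ℝ) / (Nat.totient m : ℝ)| ≤ E1 / m ∧
    |ps ⌊y⌋₊ m c - y / (Nat.totient m : ℝ)| ≤ E2 / m

/-- **Individual moduli, power saving, `ψ`.** -/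
theorem few_psi_power (θ κ : ℝ) (hθ1 : 1 / 2 ≤ θ) (hθ : θ < 43 / 84) (hκ0 : 0 ≤ κ) (hκ : κ < 1 / 3) :
    ∃ η : ℝ, 0 < η ∧ ∀ ε : ℝ, 0 < ε → ∀ ν : ℝ, 0 < ν → ∃ δ : ℝ, 0 < δ ∧ ∀ U : ℕ, ∀ᶠ x : ℕ in atTop, ∃ P : Finset ℕ,
    (∀ f ∈ P, 2 ≤ f) ∧
    (∀ z : ℕ, 1 ≤ z → ((P.filter (fun f => f ≤ z)).card : ℝ) ≤ (x : ℝ) ^ ν * (1 + z * (x : ℝ) ^ (-(1 / 20) : ℝ))) ∧
    ∀ q : ℕ, 0 < q → (q : ℝ) ≤ (x : ℝ) ^ κ → (∀ f ∈ P, ¬ f ∣ q) → ∀ c : ℤ, IsCoprime c (q : ℤ) →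
      ∀ T : Finset ℕ, (∀ t ∈ T, Mo x q c θ ε η t) → ∀ Z : ℕ, 1 ≤ Z → ∀ R : Finset ℕ,
      (∀ t ∈ R, t ∈ T ∧ t ≤ Z ∧ ¬ Reg x ((x : ℝ) ^ (1 - δ)) (x / Real.log x ^ U) (q * t) c) →
      (R.card : ℝ) ≤ Z * (x : ℝ) ^ (-δ) := by
  obtain ⟨η, hη, hmax⟩ := indiv_psi_power θ κ hθ1 hθ hκ0 hκ
  refine ⟨η, hη, fun ε hε ν hν => ?_⟩
  obtain ⟨δ0, hδ0, hev⟩ := hmax ε hε ν hν
  refine ⟨δ0 / 2, by positivity, fun U => ?_⟩
  have h1 : ∀ᶠ X : ℝ in atTop, 2 * Real.log X ^ U ≤ X ^ (δ0 / 2) := Pool.Agent.Y61.Z.ev_log_rpow _ _ (by positivity)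
  filter_upwards [hev, reg_x U, tendsto_natCast_atTop_atTop.eventually h1, eventually_ge_atTop 3] with x h2 hreg h1 hx
  obtain ⟨P, hP2, hPc, hP⟩ := h2
  have hx0 : (0 : ℝ) < x := by exact_mod_cast (by omega : 0 < x)
  have hx1 : (1 : ℝ) ≤ x := by exact_mod_cast (by omega : 1 ≤ x)
  refine ⟨P, hP2, hPc, fun q hq hqκ hqP c hc T hT Z hZ R hR => ?_⟩
  have hqr : (0 : ℝ) < q := by exact_mod_cast hq
  have hZr : (0 : ℝ) < Z := by exact_mod_cast hZ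
  have hL := Pool.Agent.R503.N.log_ge1 hx
  have hL0 : 0 < Real.log x := by linarith
  have hqt : ∀ t ∈ T, q * t ≤ x := by
    intro t ht
    have h1 := (hT t ht).2.2.2
    have h2 : ((q * t : ℕ) : ℝ) ≤ (x : ℝ) := by
      push_cast
      refine h1.trans ?_
      calc (x : ℝ) ^ θ ≤ (x : ℝ) ^ (1 : ℝ) := Real.rpow_le_rpow_of_exponent_le hx1 (by linarith)
        _ = x := Real.rpow_one _
    exact_mod_cast h2
  obtain ⟨D, hD⟩ : ∃ D : ℝ, D = (x : ℝ) ^ (1 - δ0 / 2) := ⟨_, rfl⟩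
  have hD0 : 0 < D := by rw [hD]; exact Real.rpow_pos_of_pos hx0 _
  have h3 := count_bad (T := T) (x := x)
    (G := fun t y => |ps y (q * t) c - psi1 y / (Nat.totient (q * t) : ℝ)|) (S := (x : ℝ) ^ (1 - δ0) / q)
    (a := D / q) (by positivity) (fun y hy => hP q hq hqκ hqP c hc T hT y hy) (fun _ _ => abs_nonneg _)
    (fun t ht => (hT t ht).pos) Z R (by
      intro t ht
      obtain ⟨h4, h5, h6⟩ := hR t ht
      refine ⟨h4, h5, fun h7 => h6 ?_⟩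
      have ht0 : 0 < t := (hT t h4).pos
      have hm : 0 < q * t := Nat.mul_pos hq ht0
      have hmr : (0 : ℝ) < ((q * t : ℕ) : ℝ) := by exact_mod_cast hm
      intro y hy1 hyx
      have hfx : ⌊y⌋₊ ≤ x := by
        have : (⌊y⌋₊ : ℝ) ≤ x := (Nat.floor_le (by linarith)).trans hyx
        exact_mod_cast this
      have h8 := h7 ⌊y⌋₊ hfx
      have e : D / q / (t : ℝ) = (x : ℝ) ^ (1 - δ0 / 2) / ((q * t : ℕ) : ℝ) := by
        rw [hD]; push_cast; rw [div_div]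
      rw [e] at h8
      refine ⟨h8, (hreg (q * t) hm (hqt t h4) c y hy1 hyx _ h8).trans ?_⟩
      have e2 : (x : ℝ) ^ (1 - δ0 / 2) = x / (x : ℝ) ^ (δ0 / 2) := by rw [Real.rpow_sub hx0, Real.rpow_one]
      have i1 : (x : ℝ) ^ (1 - δ0 / 2) / ((q * t : ℕ) : ℝ) ≤ (1 / 2) * (x / (((q * t : ℕ) : ℝ) * Real.log x ^ U)) := by
        rw [e2]
        calc x / (x : ℝ) ^ (δ0 / 2) / ((q * t : ℕ) : ℝ) ≤ x / (2 * Real.log x ^ U) / ((q * t : ℕ) : ℝ) := by gcongr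
          _ = _ := by field_simp
      have e3 : x / Real.log x ^ U / ((q * t : ℕ) : ℝ) = x / (((q * t : ℕ) : ℝ) * Real.log x ^ U) := by
        rw [div_div, mul_comm]
      rw [e3]
      linarith)
  have e4 : (x : ℝ) ^ (1 - δ0) = D * (x : ℝ) ^ (-(δ0 / 2)) := by
    rw [hD, ← Real.rpow_add hx0]; congr 1; ring
  rw [e4] at h3
  have h5 : (R.card : ℝ) * (D / q / Z) = (D / q) * ((R.card : ℝ) / Z) := by ring
  have h6 : D * (x : ℝ) ^ (-(δ0 / 2)) / q = (D / q) * (x : ℝ) ^ (-(δ0 / 2)) := by ring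
  rw [h5, h6] at h3
  have h7 := le_of_mul_le_mul_left h3 (by positivity)
  rw [div_le_iff₀ hZr] at h7
  linarith

/-- **Individual moduli, savings of powers of the logarithm, `ψ`.** -/
theorem few_psi_log (θ κ : ℝ) (hθ1 : 1 / 2 ≤ θ) (hθ : θ < 43 / 84) (hκ0 : 0 ≤ κ) (hκ : κ < 1 / 3) :
    ∃ η : ℝ, 0 < η ∧ ∀ ε : ℝ, 0 < ε → ∀ U B : ℕ, ∃ C : ℕ, ∀ A : ℕ, ∀ᶠ x : ℕ in atTop, ∃ P : Finset ℕ,
    (∀ f ∈ P, 2 ≤ f ∧ Real.log x ^ A < f) ∧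
    (∀ z : ℕ, 1 ≤ z → ((P.filter (fun f => f ≤ z)).card : ℝ) ≤ Real.log x ^ C * (1 + z * (x : ℝ) ^ (-(1 / 20) : ℝ))) ∧
    ∀ q : ℕ, 0 < q → (q : ℝ) ≤ (x : ℝ) ^ κ → (q.divisors.card : ℝ) ≤ Real.log x ^ B →
      (∀ f ∈ P, ¬ f ∣ q) → ∀ c : ℤ, IsCoprime c (q : ℤ) →
      ∀ T : Finset ℕ, (∀ t ∈ T, Mo x q c θ ε η t) → ∀ Z : ℕ, 1 ≤ Z → ∀ R : Finset ℕ,
      (∀ t ∈ R, t ∈ T ∧ t ≤ Z ∧ ¬ Reg x (x / Real.log x ^ U) (x / Real.log x ^ U) (q * t) c) →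
      (R.card : ℝ) ≤ Z / Real.log x ^ U := by
  obtain ⟨η, hη, hmax⟩ := indiv_psi_log θ κ hθ1 hθ hκ0 hκ
  refine ⟨η, hη, fun ε hε U B => ?_⟩
  obtain ⟨C, hC⟩ := hmax ε hε (2 * U + 1) B
  refine ⟨C, fun A => ?_⟩
  have h4 : ∀ᶠ x : ℕ in atTop, 2 ≤ Real.log x :=
    (Real.tendsto_log_atTop.comp tendsto_natCast_atTop_atTop).eventually (eventually_ge_atTop _)
  filter_upwards [hC A, reg_x U, eventually_ge_atTop 3, h4] with x h2 hreg hx h4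
  obtain ⟨P, hP2, hPc, hP⟩ := h2
  have hx0 : (0 : ℝ) < x := by exact_mod_cast (by omega : 0 < x)
  have hx1 : (1 : ℝ) ≤ x := by exact_mod_cast (by omega : 1 ≤ x)
  refine ⟨P, hP2, hPc, fun q hq hqκ hqB hqP c hc T hT Z hZ R hR => ?_⟩
  have hqr : (0 : ℝ) < q := by exact_mod_cast hq
  have hZr : (0 : ℝ) < Z := by exact_mod_cast hZ
  have hqt : ∀ t ∈ T, q * t ≤ x := by
    intro t ht
    have h1 := (hT t ht).2.2.2
    have h2 : ((q * t : ℕ) : ℝ) ≤ (x : ℝ) := by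
      push_cast
      refine h1.trans ?_
      calc (x : ℝ) ^ θ ≤ (x : ℝ) ^ (1 : ℝ) := Real.rpow_le_rpow_of_exponent_le hx1 (by linarith)
        _ = x := Real.rpow_one _
    exact_mod_cast h2
  obtain ⟨L, hLd⟩ : ∃ L : ℝ, L = Real.log x := ⟨_, rfl⟩
  rw [← hLd] at h4 ⊢
  have hL0 : 0 < L := by linarith
  obtain ⟨D, hD⟩ : ∃ D : ℝ, D = x / L ^ (U + 1) := ⟨_, rfl⟩
  have hD0 : 0 < D := by rw [hD]; positivity
  have h3 := count_bad (T := T) (x := x)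
    (G := fun t y => |ps y (q * t) c - psi1 y / (Nat.totient (q * t) : ℝ)|) (S := x / (q * L ^ (2 * U + 1)))
    (a := D / q) (by positivity) (fun y hy => by rw [hLd]; exact hP q hq hqκ hqB hqP c hc T hT y hy)
    (fun _ _ => abs_nonneg _)
    (fun t ht => (hT t ht).pos) Z R (by
      intro t ht
      obtain ⟨h4', h5, h6⟩ := hR t ht
      refine ⟨h4', h5, fun h7 => h6 ?_⟩
      have ht0 : 0 < t := (hT t h4').pos
      have hm : 0 < q * t := Nat.mul_pos hq ht0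
      have hmr : (0 : ℝ) < ((q * t : ℕ) : ℝ) := by exact_mod_cast hm
      intro y hy1 hyx
      have hfx : ⌊y⌋₊ ≤ x := by
        have : (⌊y⌋₊ : ℝ) ≤ x := (Nat.floor_le (by linarith)).trans hyx
        exact_mod_cast this
      have h8 := h7 ⌊y⌋₊ hfx
      have e : D / q / (t : ℝ) = D / ((q * t : ℕ) : ℝ) := by
        push_cast; rw [div_div]
      rw [e] at h8
      have i1 : D / ((q * t : ℕ) : ℝ) ≤ (1 / 2) * (x / L ^ U / ((q * t : ℕ) : ℝ)) := by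
        rw [hD]
        calc x / L ^ (U + 1) / ((q * t : ℕ) : ℝ) = (1 / L) * (x / L ^ U / ((q * t : ℕ) : ℝ)) := by
              rw [pow_succ]; field_simp
          _ ≤ _ := by gcongr
      have i2 : 0 ≤ x / L ^ U / ((q * t : ℕ) : ℝ) := by positivity
      have e3 : x / L ^ U / ((q * t : ℕ) : ℝ) = x / (((q * t : ℕ) : ℝ) * L ^ U) := by
        rw [div_div, mul_comm]
      have h9 := hreg (q * t) hm (hqt t h4') c y hy1 hyx _ h8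
      rw [← hLd, ← e3] at h9
      rw [← hLd]
      exact ⟨h8.trans (by linarith), h9.trans (by linarith)⟩)
  have e4 : x / (q * L ^ (2 * U + 1)) = (D / q) * (1 / L ^ U) := by
    rw [hD, show 2 * U + 1 = (U + 1) + U by ring, pow_add L (U + 1) U]
    field_simp
  rw [e4] at h3
  have h5 : (R.card : ℝ) * (D / q / Z) = (D / q) * ((R.card : ℝ) / Z) := by ring
  rw [h5] at h3
  have h7 := le_of_mul_le_mul_left h3 (by positivity)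
  rw [div_le_iff₀ hZr] at h7
  calc (R.card : ℝ) ≤ 1 / L ^ U * Z := h7
    _ = Z / L ^ U := by ring

end Pool.Agent.U365.LM
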