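import Pool.Agent.H343R2.EH.BVLog
import Pool.Agent.H343R2.EH.Unsmooth
import Pool.Agent.H343R2.EH.Primes

/-!
# Moduli without exceptional conductors: the number of the exceptional conductors

The mean value theorem for primitive characters (library), block by block.
-/

set_option autoImplicit false

namespace Pool.Agent.U365.LM

open Finset Filter
open Pool.Agent.H410R2 Pool.Agent.H398R2.BV

/-- the total of the primitive characters modulo `f` -/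
noncomputable def S (X : ℝ) (f : ℕ) : ℝ := ∑ ψ ∈ Prim f, ‖psiLog X f ψ‖

lemma S_nonneg (X : ℝ) (f : ℕ) : 0 ≤ S X f := sum_nonneg fun _ _ => norm_nonneg _

/-- a block of conductors, abstractly -/
lemma block_card {G : ℕ} (hG : 2 ≤ G) {X T B : ℝ} (hT : 0 < T) (P : Finset ℕ) (hP : P ⊆ Icc G (2 * G))
    (h1 : ∀ f ∈ P, T ≤ S X f)
    (h2 : ∑ f ∈ Icc G (2 * G), (1 / (Nat.totient f : ℝ)) * S X f ≤ B) :
    (P.card : ℝ) ≤ 2 * G * B / T := by
  have hG0 : (0 : ℝ) < G := by exact_mod_cast (by omega : 0 < G)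
  have h3 : ∑ f ∈ P, (T / (2 * G)) ≤ ∑ f ∈ P, (1 / (Nat.totient f : ℝ)) * S X f := by
    apply sum_le_sum
    intro f hf
    have hf2 := hP hf
    rw [mem_Icc] at hf2
    have hφ : (0 : ℝ) < Nat.totient f := by exact_mod_cast Nat.totient_pos.2 (by omega)
    have hφ2 : (Nat.totient f : ℝ) ≤ 2 * G := by
      have := Nat.totient_le f
      exact_mod_cast this.trans hf2.2
    have h4 := h1 f hf
    calc T / (2 * G) ≤ T / (Nat.totient f : ℝ) := div_le_div_of_nonneg_left hT.le hφ hφ2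
      _ ≤ S X f / (Nat.totient f : ℝ) := div_le_div_of_nonneg_right h4 hφ.le
      _ = _ := by ring
  have h5 : ∑ f ∈ P, (1 / (Nat.totient f : ℝ)) * S X f ≤
      ∑ f ∈ Icc G (2 * G), (1 / (Nat.totient f : ℝ)) * S X f :=
    sum_le_sum_of_subset_of_nonneg hP fun f _ _ => mul_nonneg (by positivity) (S_nonneg X f)
  rw [sum_const, nsmul_eq_mul] at h3
  have h6 := (h3.trans h5).trans h2
  rw [le_div_iff₀ hT]
  have h7 : (P.card : ℝ) * T = ((P.card : ℝ) * (T / (2 * G))) * (2 * G) := by field_simp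
  rw [h7]
  calc _ ≤ B * (2 * G) := mul_le_mul_of_nonneg_right h6 (by positivity)
    _ = _ := by ring

/-- the bound for a block -/
lemma block_bound {x X : ℝ} (hx : 16 ≤ x) (hX1 : x ^ (19 / 20 : ℝ) ≤ X) (hX2 : X ≤ 3 * x) {G : ℕ} (hG : 2 ≤ G)
    (hGx : (G : ℝ) ≤ x ^ (1 / 3 : ℝ)) :
    2 * G * (∑ f ∈ Icc G (2 * G), (1 / (Nat.totient f : ℝ)) * S X f) ≤
      X * ((3 + Real.log x) ^ 5 * (24 + 400 * (G * x ^ (-(1 / 20) : ℝ)))) := by
  have hx0 : 0 < x := by linarith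
  have hx1 : 1 ≤ x := by linarith
  have rpos : ∀ a : ℝ, 0 < x ^ a := fun a => Real.rpow_pos_of_pos hx0 a
  have radd : ∀ a b : ℝ, x ^ a * x ^ b = x ^ (a + b) := fun a b => (Real.rpow_add hx0 a b).symm
  have rle : ∀ {a b : ℝ}, a ≤ b → x ^ a ≤ x ^ b := fun h => Real.rpow_le_rpow_of_exponent_le hx1 h
  have hX0 : 0 < X := lt_of_lt_of_le (rpos _) hX1
  have hX1' : 1 ≤ X := (Real.one_le_rpow hx1 (by norm_num)).trans hX1
  have hG0 : (2 : ℝ) ≤ G := by exact_mod_cast hG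
  have hlogx : 0 ≤ Real.log x := Real.log_nonneg hx1
  set L : ℝ := 3 + Real.log x with hL
  have hL3 : 3 ≤ L := by linarith
  have hlog3 : Real.log 3 ≤ 2 := by
    have := Real.log_le_sub_one_of_pos (show (0:ℝ) < 3 by norm_num)
    linarith
  have hLX : 1 + Real.log X ≤ L := by
    have h1 := Real.log_le_log hX0 hX2
    rw [Real.log_mul (by norm_num) hx0.ne'] at h1
    linarith
  have hLX0 : 0 ≤ Real.log X := Real.log_nonneg hX1'
  have hLG : 1 + Real.log ((2 * G : ℕ) : ℝ) ≤ L := by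
    have h0 : ((2 * G : ℕ) : ℝ) ≤ 3 * x := by
      push_cast
      have : x ^ (1 / 3 : ℝ) ≤ x := by
        calc x ^ (1 / 3 : ℝ) ≤ x ^ (1 : ℝ) := rle (by norm_num)
          _ = x := Real.rpow_one x
      linarith
    have h1 := Real.log_le_log (by positivity) h0
    rw [Real.log_mul (by norm_num) hx0.ne'] at h1
    linarith
  obtain ⟨W, hW⟩ : ∃ W : ℕ, W = ⌈x ^ (1 / 10 : ℝ)⌉₊ := ⟨_, rfl⟩
  have hW1 : x ^ (1 / 10 : ℝ) ≤ W := by rw [hW]; exact Nat.le_ceil _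
  have hW2 : (W : ℝ) ≤ 2 * x ^ (1 / 10 : ℝ) := by
    have h1 := Nat.ceil_lt_add_one (rpos (1 / 10)).le
    rw [← hW] at h1
    have h2 : 1 ≤ x ^ (1 / 10 : ℝ) := Real.one_le_rpow hx1 (by norm_num)
    linarith
  have hWr : (1 : ℝ) ≤ W := (Real.one_le_rpow hx1 (by norm_num)).trans hW1
  have hW3 : 1 ≤ W := by exact_mod_cast hWr
  have hlarge := H343E.BVL.large X hX1' W G (2 * G) hW3 hG (by omega)
  have hsum : ∑ f ∈ Icc G (2 * G), (1 / (Nat.totient f : ℝ)) * S X f ≤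
      8 * (W : ℝ) ^ 2 * ((2 * G : ℕ) : ℝ) ^ 2 * Real.log X ^ 2 +
      12 * (1 + Real.log ((2 * G : ℕ) : ℝ)) * (Real.sqrt X / (G : ℝ) +
        (Real.sqrt (X / W) + Real.sqrt (X / W)) + ((2 * G : ℕ) : ℝ)) * (Real.sqrt X * (1 + Real.log X) ^ 3) *
          Real.log X := hlarge
  have hsX : 0 < Real.sqrt X := Real.sqrt_pos.mpr hX0
  have hss : Real.sqrt X * Real.sqrt X = X := Real.mul_self_sqrt hX0.le
  -- the first term
  have hL0 : 0 < L := by linarith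
  have t1 : 8 * (W : ℝ) ^ 2 * ((2 * G : ℕ) : ℝ) ^ 2 * Real.log X ^ 2 ≤ 128 * x ^ (1 / 5 : ℝ) * G ^ 2 * L ^ 5 := by
    have h1 : (W : ℝ) ^ 2 ≤ 4 * x ^ (1 / 5 : ℝ) := by
      calc (W : ℝ) ^ 2 ≤ (2 * x ^ (1 / 10 : ℝ)) ^ 2 := by gcongr
        _ = 4 * (x ^ (1 / 10 : ℝ) * x ^ (1 / 10 : ℝ)) := by ring
        _ = 4 * x ^ (1 / 5 : ℝ) := by rw [radd]; norm_num
    have h2 : Real.log X ^ 2 ≤ L ^ 5 := by
      calc Real.log X ^ 2 ≤ L ^ 2 := by gcongr; linarith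
        _ ≤ L ^ 5 := pow_le_pow_right₀ (by linarith) (by norm_num)
    push_cast
    calc 8 * (W : ℝ) ^ 2 * (2 * (G : ℝ)) ^ 2 * Real.log X ^ 2 ≤ 8 * (4 * x ^ (1 / 5 : ℝ)) * (2 * (G : ℝ)) ^ 2 * L ^ 5 := by
          gcongr
      _ = _ := by ring
  have hWs : Real.sqrt (X / W) * Real.sqrt X ≤ X * x ^ (-(1 / 20) : ℝ) := by
    have h1 : Real.sqrt (X / W) ≤ Real.sqrt X * x ^ (-(1 / 20) : ℝ) := by
      rw [Real.sqrt_le_left (by positivity), mul_pow, Real.sq_sqrt hX0.le]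
      have h2 : (x ^ (-(1 / 20) : ℝ)) ^ 2 = (x ^ (1 / 10 : ℝ))⁻¹ := by
        rw [pow_two, radd, ← Real.rpow_neg hx0.le]
        norm_num
      rw [h2, div_eq_mul_inv]
      apply mul_le_mul_of_nonneg_left _ hX0.le
      exact inv_anti₀ (rpos _) hW1
    calc _ ≤ (Real.sqrt X * x ^ (-(1 / 20) : ℝ)) * Real.sqrt X := by gcongr
      _ = (Real.sqrt X * Real.sqrt X) * x ^ (-(1 / 20) : ℝ) := by ring
      _ = _ := by rw [hss]
  have t2 : 12 * (1 + Real.log ((2 * G : ℕ) : ℝ)) * (Real.sqrt X / (G : ℝ) +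
        (Real.sqrt (X / W) + Real.sqrt (X / W)) + ((2 * G : ℕ) : ℝ)) * (Real.sqrt X * (1 + Real.log X) ^ 3) *
          Real.log X ≤ 12 * L ^ 5 * (X / G + 2 * (X * x ^ (-(1 / 20) : ℝ)) + 2 * G * Real.sqrt X) := by
    have hnn : 0 ≤ Real.sqrt X / (G : ℝ) + (Real.sqrt (X / W) + Real.sqrt (X / W)) + ((2 * G : ℕ) : ℝ) := by positivity
    have h1 : (Real.sqrt X / (G : ℝ) + (Real.sqrt (X / W) + Real.sqrt (X / W)) + ((2 * G : ℕ) : ℝ)) * Real.sqrt X ≤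
        X / G + 2 * (X * x ^ (-(1 / 20) : ℝ)) + 2 * G * Real.sqrt X := by
      have e : (Real.sqrt X / (G : ℝ) + (Real.sqrt (X / W) + Real.sqrt (X / W)) + ((2 * G : ℕ) : ℝ)) * Real.sqrt X =
          Real.sqrt X * Real.sqrt X / G + 2 * (Real.sqrt (X / W) * Real.sqrt X) + 2 * G * Real.sqrt X := by
        push_cast; ring
      rw [e, hss]
      linarith
    calc _ = 12 * (((1 + Real.log ((2 * G : ℕ) : ℝ)) * (1 + Real.log X) ^ 3 * Real.log X)) *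
          ((Real.sqrt X / (G : ℝ) + (Real.sqrt (X / W) + Real.sqrt (X / W)) + ((2 * G : ℕ) : ℝ)) * Real.sqrt X) := by ring
      _ ≤ 12 * (L * L ^ 3 * L) * (X / G + 2 * (X * x ^ (-(1 / 20) : ℝ)) + 2 * G * Real.sqrt X) := by
          have h5 : Real.log X ≤ L := by linarith
          have h6 : 0 ≤ Real.log ((2 * G : ℕ) : ℝ) := Real.log_natCast_nonneg _
          gcongr
      _ = _ := by ring
  -- numerical facts
  have n1 : x ^ (1 / 5 : ℝ) * G ^ 2 ≤ X * x ^ (-(1 / 20) : ℝ) := by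
    calc x ^ (1 / 5 : ℝ) * (G : ℝ) ^ 2 ≤ x ^ (1 / 5 : ℝ) * (x ^ (1 / 3 : ℝ)) ^ 2 := by gcongr
      _ = x ^ (1 / 5 + (1 / 3 + 1 / 3) : ℝ) := by rw [pow_two, radd, radd]
      _ ≤ x ^ (19 / 20 + -(1 / 20) : ℝ) := rle (by norm_num)
      _ = x ^ (19 / 20 : ℝ) * x ^ (-(1 / 20) : ℝ) := (radd _ _).symm
      _ ≤ _ := by gcongr
  have n2 : (G : ℝ) * Real.sqrt X ≤ X * x ^ (-(1 / 20) : ℝ) := by
    have h1 : (G : ℝ) ≤ Real.sqrt X * x ^ (-(1 / 20) : ℝ) := by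
      have h2 : x ^ (19 / 40 : ℝ) ≤ Real.sqrt X := by
        apply Real.le_sqrt_of_sq_le
        rw [pow_two, radd]
        refine le_trans (le_of_eq ?_) hX1
        norm_num
      calc (G : ℝ) ≤ x ^ (1 / 3 : ℝ) := hGx
        _ ≤ x ^ (19 / 40 + -(1 / 20) : ℝ) := rle (by norm_num)
        _ = x ^ (19 / 40 : ℝ) * x ^ (-(1 / 20) : ℝ) := (radd _ _).symm
        _ ≤ _ := by gcongr
    calc (G : ℝ) * Real.sqrt X ≤ (Real.sqrt X * x ^ (-(1 / 20) : ℝ)) * Real.sqrt X := by gcongr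
      _ = (Real.sqrt X * Real.sqrt X) * x ^ (-(1 / 20) : ℝ) := by ring
      _ = _ := by rw [hss]
  set v : ℝ := x ^ (-(1 / 20) : ℝ) with hv
  have hv0 : 0 < v := rpos _
  have hL5 : 0 < L ^ 5 := by positivity
  calc 2 * G * (∑ f ∈ Icc G (2 * G), (1 / (Nat.totient f : ℝ)) * S X f) ≤
      2 * G * (128 * x ^ (1 / 5 : ℝ) * G ^ 2 * L ^ 5 + 12 * L ^ 5 * (X / G + 2 * (X * v) + 2 * G * Real.sqrt X)) := by
        apply mul_le_mul_of_nonneg_left _ (by positivity)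
        linarith
    _ = L ^ 5 * (256 * G * (x ^ (1 / 5 : ℝ) * G ^ 2) + 24 * X + 48 * G * (X * v) + 48 * G * (G * Real.sqrt X)) := by
        field_simp
        ring
    _ ≤ L ^ 5 * (256 * G * (X * v) + 24 * X + 48 * G * (X * v) + 48 * G * (X * v)) := by
        apply mul_le_mul_of_nonneg_left _ hL5.le
        have a1 : 256 * (G : ℝ) * (x ^ (1 / 5 : ℝ) * G ^ 2) ≤ 256 * G * (X * v) :=
          mul_le_mul_of_nonneg_left n1 (by positivity)
        have a2 : 48 * (G : ℝ) * (G * Real.sqrt X) ≤ 48 * G * (X * v) :=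
          mul_le_mul_of_nonneg_left n2 (by positivity)
        linarith
    _ ≤ X * (L ^ 5 * (24 + 400 * (G * v))) := by
        have : 0 ≤ L ^ 5 * (48 * (G * (X * v))) := by positivity
        nlinarith

end Pool.Agent.U365.LM
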