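import Pool.Agent.U365.LM.A

/-!
# Moduli without exceptional conductors: the error term
-/

set_option autoImplicit false

namespace Pool.Agent.U365.LM

open Finset Filter
open Pool.Agent.H410R2 Pool.Agent.H398R2.BV
open H343E (psiAP psi1 piAP pi1 Eψ)

/-- the points `x exp ((1 - i) / M)` -/
noncomputable def gr (x M : ℝ) (i : ℕ) : ℝ := x * Real.exp ((1 - (i : ℝ)) / M)

/-- conductors which are not exceptional -/
def good (x M : ℝ) (f : ℕ) : Prop :=
  ∀ i : ℕ, x ^ (19 / 20 : ℝ) ≤ gr x M i → S (gr x M i) f ≤ gr x M i / M ^ 2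

lemma gr_pos {x M : ℝ} (hx : 0 < x) (i : ℕ) : 0 < gr x M i := mul_pos hx (Real.exp_pos _)

lemma gr_le {x M : ℝ} (hx : 0 < x) (hM : 1 ≤ M) (i : ℕ) : gr x M i ≤ 3 * x := by
  unfold gr
  have h1 : (1 - (i : ℝ)) / M ≤ 1 := by
    rw [div_le_one (by linarith)]
    have : (0 : ℝ) ≤ i := Nat.cast_nonneg i
    linarith
  have h2 : Real.exp ((1 - (i : ℝ)) / M) ≤ 3 := by
    have := Real.exp_le_exp.2 h1
    have h3 := Real.exp_one_lt_d9
    linarith
  calc x * Real.exp ((1 - (i : ℝ)) / M) ≤ x * 3 := mul_le_mul_of_nonneg_left h2 hx.le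
    _ = _ := by ring

lemma gr_succ {x M : ℝ} (i : ℕ) : gr x M (i + 1) * Real.exp (1 / M) = gr x M i := by
  unfold gr
  rw [mul_assoc, ← Real.exp_add]
  congr 2
  push_cast
  ring

lemma gr_pred {x M : ℝ} (i : ℕ) : gr x M (i + 1) * Real.exp (-(1 / M)) = gr x M (i + 2) := by
  unfold gr
  rw [mul_assoc, ← Real.exp_add]
  congr 2
  push_cast
  ring

lemma gr_anti {x M : ℝ} (hx : 0 < x) (hM : 1 ≤ M) {i j : ℕ} (h : i ≤ j) : gr x M j ≤ gr x M i := by
  unfold gr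
  apply mul_le_mul_of_nonneg_left _ hx.le
  apply Real.exp_le_exp.2
  apply div_le_div_of_nonneg_right _ (by linarith)
  have : (i : ℝ) ≤ j := by exact_mod_cast h
  linarith

lemma gr_index {x M : ℝ} (hx : 1 < x) (hM : 1 ≤ M) {i : ℕ} (h : x ^ (19 / 20 : ℝ) ≤ gr x M i) :
    i ∈ range (⌊M * Real.log x⌋₊ + 2) := by
  have hx0 : 0 < x := by linarith
  have h1 := Real.log_le_log (Real.rpow_pos_of_pos hx0 _) h
  unfold gr at h1
  rw [Real.log_rpow hx0, Real.log_mul hx0.ne' (Real.exp_pos _).ne', Real.log_exp] at h1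
  have hl : 0 < Real.log x := Real.log_pos hx
  have h2 : ((i : ℝ) - 1) / M ≤ Real.log x := by
    have e : (1 - (i : ℝ)) / M = -(((i : ℝ) - 1) / M) := by ring
    rw [e] at h1
    linarith
  rw [div_le_iff₀ (by linarith)] at h2
  rw [mem_range]
  have h3 := Nat.lt_floor_add_one (M * Real.log x)
  have h4 : (i : ℝ) < ((⌊M * Real.log x⌋₊ + 2 : ℕ) : ℝ) := by push_cast; nlinarith
  exact_mod_cast h4

/-- the exceptional conductors of a block -/
lemma bad_block {x M : ℝ} (hx : 16 ≤ x) (hM : 1 ≤ M) {G : ℕ} (hG : 2 ≤ G) (hGx : (G : ℝ) ≤ x ^ (1 / 3 : ℝ))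
    (P : Finset ℕ) (hP : P ⊆ Icc G (2 * G)) (h1 : ∀ f ∈ P, ¬ good x M f) :
    (P.card : ℝ) ≤ M ^ 3 * (3 + Real.log x) ^ 6 * (24 + 400 * (G * x ^ (-(1 / 20) : ℝ))) := by
  classical
  have hx0 : 0 < x := by linarith
  have hM0 : 0 < M := by linarith
  have hl : 0 ≤ Real.log x := Real.log_nonneg (by linarith)
  set I := (range (⌊M * Real.log x⌋₊ + 2)).filter (fun i => x ^ (19 / 20 : ℝ) ≤ gr x M i) with hI
  have hsub : P ⊆ I.biUnion (fun i => P.filter (fun f => gr x M i / M ^ 2 ≤ S (gr x M i) f)) := by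
    intro f hf
    have h2 := h1 f hf
    unfold good at h2
    push Not at h2
    obtain ⟨i, hi, hi2⟩ := h2
    rw [mem_biUnion]
    exact ⟨i, by rw [hI, mem_filter]; exact ⟨gr_index (by linarith) hM hi, hi⟩, by
      rw [mem_filter]; exact ⟨hf, hi2.le⟩⟩
  have h3 : ∀ i ∈ I, ((P.filter (fun f => gr x M i / M ^ 2 ≤ S (gr x M i) f)).card : ℝ) ≤
      M ^ 2 * ((3 + Real.log x) ^ 5 * (24 + 400 * (G * x ^ (-(1 / 20) : ℝ)))) := by
    intro i hi
    rw [hI, mem_filter] at hi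
    have hX := gr_pos (M := M) hx0 i
    have h4 := block_bound hx hi.2 (gr_le hx0 hM i) hG hGx
    have h5 := block_card hG (X := gr x M i) (T := gr x M i / M ^ 2) (by positivity)
      (P.filter (fun f => gr x M i / M ^ 2 ≤ S (gr x M i) f)) ((filter_subset _ _).trans hP)
      (fun f hf => (mem_filter.1 hf).2) le_rfl
    refine h5.trans ?_
    rw [div_div_eq_mul_div, div_le_iff₀ hX]
    calc _ ≤ (gr x M i * ((3 + Real.log x) ^ 5 * (24 + 400 * (G * x ^ (-(1 / 20) : ℝ))))) * M ^ 2 :=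
          mul_le_mul_of_nonneg_right h4 (by positivity)
      _ = _ := by ring
  have h6 : (P.card : ℝ) ≤ ∑ i ∈ I, ((P.filter (fun f => gr x M i / M ^ 2 ≤ S (gr x M i) f)).card : ℝ) := by
    calc (P.card : ℝ) ≤ ((I.biUnion (fun i => P.filter (fun f => gr x M i / M ^ 2 ≤ S (gr x M i) f))).card : ℝ) := by
          exact_mod_cast card_le_card hsub
      _ ≤ _ := by exact_mod_cast card_biUnion_le
  refine (h6.trans (sum_le_sum h3)).trans ?_
  rw [sum_const, nsmul_eq_mul]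
  have h7 : (I.card : ℝ) ≤ M * (3 + Real.log x) := by
    have h8 : I.card ≤ ⌊M * Real.log x⌋₊ + 2 := (card_filter_le _ _).trans (by rw [card_range])
    have h9 := Nat.floor_le (show 0 ≤ M * Real.log x by positivity)
    calc (I.card : ℝ) ≤ ((⌊M * Real.log x⌋₊ + 2 : ℕ) : ℝ) := by exact_mod_cast h8
      _ ≤ M * Real.log x + 2 := by push_cast; linarith
      _ ≤ _ := by nlinarith
  have hpos : 0 ≤ M ^ 2 * ((3 + Real.log x) ^ 5 * (24 + 400 * (G * x ^ (-(1 / 20) : ℝ)))) := by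
    have : 0 < x ^ (-(1 / 20) : ℝ) := Real.rpow_pos_of_pos hx0 _
    positivity
  calc _ ≤ (M * (3 + Real.log x)) * (M ^ 2 * ((3 + Real.log x) ^ 5 * (24 + 400 * (G * x ^ (-(1 / 20) : ℝ))))) :=
        mul_le_mul_of_nonneg_right h7 hpos
    _ = _ := by ring

/-- the number of the exceptional conductors -/
lemma bad_card {x M : ℝ} (hx : 16 ≤ x) (hM : 1 ≤ M) {z : ℕ} (hz : 1 ≤ z) (hzx : (z : ℝ) ≤ x ^ (1 / 3 : ℝ))
    (P : Finset ℕ) (hP : P ⊆ Icc 2 z) (h1 : ∀ f ∈ P, ¬ good x M f) :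
    (P.card : ℝ) ≤ 800 * (M ^ 3 * (3 + Real.log x) ^ 7 * (1 + z * x ^ (-(1 / 20) : ℝ))) := by
  classical
  have hx0 : 0 < x := by linarith
  have hx1 : 1 ≤ x := by linarith
  have hM0 : 0 < M := by linarith
  have hl : 0 ≤ Real.log x := Real.log_nonneg hx1
  obtain ⟨v, hv⟩ : ∃ v : ℝ, v = x ^ (-(1 / 20) : ℝ) := ⟨_, rfl⟩
  have hv0 : 0 < v := by rw [hv]; exact Real.rpow_pos_of_pos hx0 _
  rw [← hv]
  obtain ⟨J, hJ⟩ : ∃ J : ℕ, J = Nat.log 2 z := ⟨_, rfl⟩
  have hsub : P ⊆ (Icc 1 J).biUnion (fun j => P.filter (fun f => f ∈ Icc (2 ^ j) (2 * 2 ^ j))) := by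
    intro f hf
    have h2 := hP hf
    rw [mem_Icc] at h2
    rw [mem_biUnion]
    refine ⟨Nat.log 2 f, ?_, ?_⟩
    · rw [mem_Icc]
      refine ⟨?_, ?_⟩
      · exact Nat.log_pos (by norm_num) h2.1
      · rw [hJ]; exact Nat.log_mono_right h2.2
    · rw [mem_filter, mem_Icc]
      refine ⟨hf, Nat.pow_log_le_self 2 (by omega), ?_⟩
      have h3 := Nat.lt_pow_succ_log_self (b := 2) (by norm_num) f
      rw [pow_succ] at h3
      omega
  have h3 : ∀ j ∈ Icc 1 J, ((P.filter (fun f => f ∈ Icc (2 ^ j) (2 * 2 ^ j))).card : ℝ) ≤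
      M ^ 3 * (3 + Real.log x) ^ 6 * (24 + 400 * ((2 : ℝ) ^ j * v)) := by
    intro j hj
    rw [mem_Icc] at hj
    have h4 : (2 : ℕ) ^ j ≤ z := by
      calc (2 : ℕ) ^ j ≤ 2 ^ J := Nat.pow_le_pow_right (by norm_num) hj.2
        _ ≤ z := by rw [hJ]; exact Nat.pow_log_le_self 2 (by omega)
    have h5 : 2 ≤ (2 : ℕ) ^ j := by
      calc 2 = 2 ^ 1 := by norm_num
        _ ≤ 2 ^ j := Nat.pow_le_pow_right (by norm_num) hj.1
    have h6 := bad_block hx hM h5 ((by exact_mod_cast h4 : ((2 ^ j : ℕ) : ℝ) ≤ z).trans hzx)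
      (P.filter (fun f => f ∈ Icc (2 ^ j) (2 * 2 ^ j))) (by
        intro f hf
        exact (mem_filter.1 hf).2) (fun f hf => h1 f (mem_filter.1 hf).1)
    rw [← hv] at h6
    push_cast at h6
    exact h6
  have h6 : (P.card : ℝ) ≤ ∑ j ∈ Icc 1 J, ((P.filter (fun f => f ∈ Icc (2 ^ j) (2 * 2 ^ j))).card : ℝ) := by
    calc (P.card : ℝ) ≤ (((Icc 1 J).biUnion (fun j => P.filter (fun f => f ∈ Icc (2 ^ j) (2 * 2 ^ j)))).card : ℝ) := by
          exact_mod_cast card_le_card hsub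
      _ ≤ _ := by exact_mod_cast card_biUnion_le
  refine (h6.trans (sum_le_sum h3)).trans ?_
  rw [← mul_sum, sum_add_distrib, ← mul_sum, ← sum_mul, sum_const, Nat.card_Icc, nsmul_eq_mul, Nat.add_sub_cancel]
  have hJ2 : (2 : ℝ) ^ J ≤ z := by
    have h7 : (2 : ℕ) ^ J ≤ z := by rw [hJ]; exact Nat.pow_log_le_self 2 (by omega)
    exact_mod_cast h7
  have hg : ∑ j ∈ Icc 1 J, (2 : ℝ) ^ j ≤ 2 * z := by
    have h7 : ∑ j ∈ Icc 1 J, (2 : ℝ) ^ j ≤ ∑ j ∈ range (J + 1), (2 : ℝ) ^ j := by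
      apply sum_le_sum_of_subset_of_nonneg
      · intro j hj
        rw [mem_Icc] at hj
        rw [mem_range]; omega
      · intro _ _ _; positivity
    rw [geom_sum_eq (by norm_num)] at h7
    have : ((2 : ℝ) ^ (J + 1) - 1) / (2 - 1) ≤ 2 * z := by
      rw [pow_succ]; linarith
    linarith
  have hJ3 : (J : ℝ) ≤ 3 + Real.log x := by
    have h7 := Real.log_le_log (by positivity) hJ2
    rw [Real.log_pow] at h7
    have h8 : Real.log z ≤ 1 / 3 * Real.log x := by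
      rw [← Real.log_rpow hx0]
      exact Real.log_le_log (by exact_mod_cast hz) hzx
    have h9 := Real.log_two_gt_d9
    have hJ0 : (0 : ℝ) ≤ J := Nat.cast_nonneg J
    nlinarith
  have hL : 0 < 3 + Real.log x := by linarith
  calc M ^ 3 * (3 + Real.log x) ^ 6 * ((J : ℝ) * 24 + 400 * ((∑ j ∈ Icc 1 J, (2 : ℝ) ^ j) * v)) ≤
      M ^ 3 * (3 + Real.log x) ^ 6 * ((3 + Real.log x) * 24 + 400 * ((2 * z) * v)) := by gcongr
    _ ≤ M ^ 3 * (3 + Real.log x) ^ 6 * ((3 + Real.log x) * (800 * (1 + z * v))) := by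
        apply mul_le_mul_of_nonneg_left _ (by positivity)
        have h10 : (z : ℝ) * v ≤ (3 + Real.log x) * (z * v) := le_mul_of_one_le_left (by positivity) (by linarith)
        nlinarith
    _ = _ := by ring

end Pool.Agent.U365.LM
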