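import Pool.Agent.U365.LM.B

/-!
# Moduli without exceptional conductors: the error term at all heights
-/

set_option autoImplicit false

namespace Pool.Agent.U365.LM

open Finset Filter
open Pool.Agent.H410R2 Pool.Agent.H398R2.BV
open H343E (psiAP psi1 piAP pi1 Eψ unsmooth_point psi1_short psiP_mono)

/-- the sizes of the parameters -/
structure Par (x M : ℝ) : Prop where
  x16 : 16 ≤ x
  M1 : 1 ≤ M
  a1 : 2 * (3 + Real.log x) ^ 2 * M ^ 2 * x ^ (1 / 3 : ℝ) ≤ x ^ (19 / 20 : ℝ)
  a2 : 9 * x ^ (19 / 20 : ℝ) ≤ x ^ (39 / 40 : ℝ)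
  a3 : 3 * M * x ^ (39 / 40 : ℝ) ≤ x
  a4 : 6 * M * x ^ (5 / 6 : ℝ) ≤ x

variable {x M : ℝ}

/-- the number of divisors -/
noncomputable def tau (q : ℕ) : ℝ := (q.divisors.card : ℝ)

lemma tau_ge {q : ℕ} (hq : 0 < q) : 1 ≤ tau q := by
  unfold tau
  have : 0 < q.divisors.card := Finset.card_pos.2 ⟨1, Nat.one_mem_divisors.2 hq.ne'⟩
  exact_mod_cast this

lemma omega_le_tau (q : ℕ) : (q.primeFactors.card : ℝ) ≤ tau q := by
  unfold tau
  have : q.primeFactors ⊆ q.divisors := fun p hp => by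
    rw [Nat.mem_primeFactors] at hp
    exact Nat.mem_divisors.2 ⟨hp.2.1, hp.2.2⟩
  exact_mod_cast card_le_card this

lemma phi_le {q : ℕ} {x : ℝ} (hqx : (q : ℝ) ≤ x ^ (1 / 3 : ℝ)) : (Nat.totient q : ℝ) ≤ x ^ (1 / 3 : ℝ) := by
  have : (Nat.totient q : ℝ) ≤ q := by exact_mod_cast Nat.totient_le q
  linarith

/-- the weighted sums at the grid points -/
lemma log_grid (h : Par x M) {q a : ℕ} (hq : 0 < q) (hqx : (q : ℝ) ≤ x ^ (1 / 3 : ℝ)) (ha : a.Coprime q)
    (hg : ∀ f : ℕ, f ∣ q → f ≠ 1 → good x M f) {i : ℕ} (hi : x ^ (19 / 20 : ℝ) ≤ gr x M i) :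
    |psiLogAP (gr x M i) q a - psiLog1 (gr x M i) / (Nat.totient q : ℝ)| ≤
      2 * tau q * gr x M i / (M ^ 2 * Nat.totient q) := by
  have hx0 : 0 < x := by linarith [h.x16]
  have hM0 : 0 < M := by linarith [h.M1]
  have hφ : (0 : ℝ) < Nat.totient q := by exact_mod_cast Nat.totient_pos.2 hq
  have hX0 := gr_pos (M := M) hx0 i
  have hX1 : 1 ≤ gr x M i := (Real.one_le_rpow (by linarith [h.x16]) (by norm_num)).trans hi
  have h1 := disc_le (gr x M i) hX1 q a hq ha
  have h2 : ∑ f ∈ q.divisors.filter (fun f => f ≠ 1), ∑ ψ ∈ Prim f, ‖psiLog (gr x M i) f ψ‖ ≤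
      tau q * (gr x M i / M ^ 2) := by
    have h3 : ∀ f ∈ q.divisors.filter (fun f => f ≠ 1), ∑ ψ ∈ Prim f, ‖psiLog (gr x M i) f ψ‖ ≤
        gr x M i / M ^ 2 := by
      intro f hf
      rw [mem_filter, Nat.mem_divisors] at hf
      exact hg f hf.1.1 hf.2 i hi
    refine (sum_le_sum h3).trans ?_
    rw [sum_const, nsmul_eq_mul]
    apply mul_le_mul_of_nonneg_right _ (by positivity)
    unfold tau
    exact_mod_cast card_filter_le _ _
  have hτ := tau_ge hq
  have h4 : 2 * ((q.primeFactors.card : ℝ) * Real.log (gr x M i) ^ 2) ≤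
      tau q * gr x M i / (M ^ 2 * Nat.totient q) := by
    have h5 := omega_le_tau q
    have h6 : Real.log (gr x M i) ≤ 3 + Real.log x := by
      have h7 := Real.log_le_log hX0 (gr_le hx0 h.M1 i)
      rw [Real.log_mul (by norm_num) hx0.ne'] at h7
      have := Real.log_le_sub_one_of_pos (show (0:ℝ) < 3 by norm_num)
      linarith
    have h8 : 0 ≤ Real.log (gr x M i) := Real.log_nonneg hX1
    have h9 : 2 * (3 + Real.log x) ^ 2 * M ^ 2 * Nat.totient q ≤ gr x M i := by
      have h10 := phi_le hqx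
      calc _ ≤ 2 * (3 + Real.log x) ^ 2 * M ^ 2 * x ^ (1 / 3 : ℝ) := by gcongr
        _ ≤ _ := h.a1.trans hi
    rw [le_div_iff₀ (by positivity)]
    calc 2 * ((q.primeFactors.card : ℝ) * Real.log (gr x M i) ^ 2) * (M ^ 2 * Nat.totient q) ≤
        2 * (tau q * (3 + Real.log x) ^ 2) * (M ^ 2 * Nat.totient q) := by gcongr
      _ = tau q * (2 * (3 + Real.log x) ^ 2 * M ^ 2 * Nat.totient q) := by ring
      _ ≤ _ := mul_le_mul_of_nonneg_left h9 (by linarith)
  refine h1.trans ?_
  have h11 : (1 / (Nat.totient q : ℝ)) * (∑ f ∈ q.divisors.filter (fun f => f ≠ 1),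
      ∑ ψ ∈ Prim f, ‖psiLog (gr x M i) f ψ‖) ≤ tau q * gr x M i / (M ^ 2 * Nat.totient q) := by
    calc _ ≤ (1 / (Nat.totient q : ℝ)) * (tau q * (gr x M i / M ^ 2)) :=
          mul_le_mul_of_nonneg_left h2 (by positivity)
      _ = _ := by field_simp
  have e : 2 * tau q * gr x M i / (M ^ 2 * Nat.totient q) =
      tau q * gr x M i / (M ^ 2 * Nat.totient q) + tau q * gr x M i / (M ^ 2 * Nat.totient q) := by ring
  rw [e]
  exact add_le_add h11 h4

/-- the short intervals -/
lemma short_grid (h : Par x M) {i : ℕ} (hi : x ^ (19 / 20 : ℝ) ≤ gr x M (i + 1)) :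
    psi1 (gr x M i) - psi1 (gr x M (i + 2)) ≤ 10 * (3 + Real.log x) * x / M := by
  have hx0 : 0 < x := by linarith [h.x16]
  have hM0 : 0 < M := by linarith [h.M1]
  have hX1 : 1 ≤ gr x M (i + 1) := (Real.one_le_rpow (by linarith [h.x16]) (by norm_num)).trans hi
  have h1 := psi1_short (x := gr x M (i + 1)) (η := 1 / M) hX1 (by positivity) (by
    rw [div_le_one hM0]; exact h.M1)
  rw [gr_succ, gr_pred] at h1
  refine h1.trans ?_
  have h6 : Real.log (gr x M (i + 1)) + 1 ≤ 3 + Real.log x := by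
    have h7 := Real.log_le_log (gr_pos hx0 _) (gr_le hx0 h.M1 (i + 1))
    rw [Real.log_mul (by norm_num) hx0.ne'] at h7
    have := Real.log_le_sub_one_of_pos (show (0:ℝ) < 3 by norm_num)
    linarith
  have h8 : 0 ≤ Real.log (gr x M (i + 1)) := Real.log_nonneg hX1
  have h9 : 1 ≤ x / M := by
    rw [one_le_div hM0]
    have h10 := h.a3
    have h11 : (1 : ℝ) ≤ x ^ (39 / 40 : ℝ) := Real.one_le_rpow (by linarith [h.x16]) (by norm_num)
    nlinarith
  have h12 := gr_le hx0 h.M1 (i + 1)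
  have h13 : 3 * (1 / M) * gr x M (i + 1) + 1 ≤ 10 * (x / M) := by
    have : 3 * (1 / M) * gr x M (i + 1) ≤ 3 * (1 / M) * (3 * x) := by gcongr
    have e : 3 * (1 / M) * (3 * x) = 9 * (x / M) := by ring
    linarith
  calc _ ≤ 10 * (x / M) * (3 + Real.log x) := by gcongr
    _ = _ := by ring

/-- the sums at the grid points -/
lemma psi_grid (h : Par x M) {q a : ℕ} (hq : 0 < q) (hqx : (q : ℝ) ≤ x ^ (1 / 3 : ℝ)) (ha : a.Coprime q)
    (hg : ∀ f : ℕ, f ∣ q → f ≠ 1 → good x M f) {i : ℕ} (hi : x ^ (19 / 20 : ℝ) ≤ gr x M (i + 2)) :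
    |psiAP (gr x M (i + 1)) q a - psi1 (gr x M (i + 1)) / (Nat.totient q : ℝ)| ≤
      28 * tau q * (3 + Real.log x) * x / (M * Nat.totient q) := by
  have hx0 : 0 < x := by linarith [h.x16]
  have hM0 : 0 < M := by linarith [h.M1]
  have hφ : (0 : ℝ) < Nat.totient q := by exact_mod_cast Nat.totient_pos.2 hq
  have hl : 0 ≤ Real.log x := Real.log_nonneg (by linarith [h.x16])
  have hi1 : x ^ (19 / 20 : ℝ) ≤ gr x M (i + 1) := hi.trans (gr_anti hx0 h.M1 (by omega))
  have hi0 : x ^ (19 / 20 : ℝ) ≤ gr x M i := hi1.trans (gr_anti hx0 h.M1 (by omega))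
  have h1 := unsmooth_point (x := gr x M (i + 1)) (η := 1 / M) (gr_pos hx0 _) (by positivity) q a
  rw [gr_succ, gr_pred] at h1
  refine h1.trans ?_
  have hτ := tau_ge hq
  have b : ∀ j : ℕ, x ^ (19 / 20 : ℝ) ≤ gr x M j →
      |psiLogAP (gr x M j) q a - psiLog1 (gr x M j) / (Nat.totient q : ℝ)| ≤
        6 * tau q * x / (M ^ 2 * Nat.totient q) := by
    intro j hj
    refine (log_grid h hq hqx ha hg hj).trans ?_
    apply div_le_div_of_nonneg_right _ (by positivity)
    have := gr_le hx0 h.M1 j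
    nlinarith
  have b0 := b i hi0
  have b1 := b (i + 1) hi1
  have b2 := b (i + 2) hi
  have s := short_grid h hi1
  have e1 : (1 / (1 / M)) * (|psiLogAP (gr x M i) q a - psiLog1 (gr x M i) / (Nat.totient q : ℝ)| +
        |psiLogAP (gr x M (i + 1)) q a - psiLog1 (gr x M (i + 1)) / (Nat.totient q : ℝ)| +
        |psiLogAP (gr x M (i + 2)) q a - psiLog1 (gr x M (i + 2)) / (Nat.totient q : ℝ)|) ≤
      18 * (tau q * x / (M * Nat.totient q)) := by
    calc _ ≤ (1 / (1 / M)) * (6 * tau q * x / (M ^ 2 * Nat.totient q) + 6 * tau q * x / (M ^ 2 * Nat.totient q) +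
          6 * tau q * x / (M ^ 2 * Nat.totient q)) := by gcongr
      _ = _ := by field_simp; ring
  have e2 : (psi1 (gr x M i) - psi1 (gr x M (i + 2))) / (Nat.totient q : ℝ) ≤
      10 * ((3 + Real.log x) * x / (M * Nat.totient q)) := by
    calc _ ≤ (10 * (3 + Real.log x) * x / M) / (Nat.totient q : ℝ) := div_le_div_of_nonneg_right s hφ.le
      _ = _ := by field_simp
  refine (add_le_add e1 e2).trans ?_
  have e3 : tau q * x / (M * Nat.totient q) ≤ tau q * (3 + Real.log x) * x / (M * Nat.totient q) := by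
    apply div_le_div_of_nonneg_right _ (by positivity)
    have : tau q ≤ tau q * (3 + Real.log x) := le_mul_of_one_le_right (by linarith) (by linarith)
    exact mul_le_mul_of_nonneg_right this hx0.le
  have e4 : (3 + Real.log x) * x / (M * Nat.totient q) ≤ tau q * (3 + Real.log x) * x / (M * Nat.totient q) := by
    apply div_le_div_of_nonneg_right _ (by positivity)
    have : (3 + Real.log x) ≤ tau q * (3 + Real.log x) := le_mul_of_one_le_left (by linarith) hτ
    exact mul_le_mul_of_nonneg_right this hx0.le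
  have e5 : 28 * tau q * (3 + Real.log x) * x / (M * Nat.totient q) =
      28 * (tau q * (3 + Real.log x) * x / (M * Nat.totient q)) := by ring
  rw [e5]
  linarith

/-- all heights -/
theorem psi_good (h : Par x M) {q a : ℕ} (hq : 0 < q) (hqx : (q : ℝ) ≤ x ^ (1 / 3 : ℝ)) (ha : a.Coprime q)
    (hg : ∀ f : ℕ, f ∣ q → f ≠ 1 → good x M f) {y : ℕ} (hy : (y : ℝ) ≤ x) :
    |Eψ y q a| ≤ 38 * tau q * (3 + Real.log x) * x / (M * Nat.totient q) := by
  have hx0 : 0 < x := by linarith [h.x16]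
  have hx1 : 1 ≤ x := by linarith [h.x16]
  have hM0 : 0 < M := by linarith [h.M1]
  have hφ : (0 : ℝ) < Nat.totient q := by exact_mod_cast Nat.totient_pos.2 hq
  have hl : 0 ≤ Real.log x := Real.log_nonneg hx1
  have hτ := tau_ge hq
  have hbase : (3 + Real.log x) * x / (M * Nat.totient q) ≤ tau q * (3 + Real.log x) * x / (M * Nat.totient q) := by
    apply div_le_div_of_nonneg_right _ (by positivity)
    have : (3 + Real.log x) ≤ tau q * (3 + Real.log x) := le_mul_of_one_le_left (by linarith) hτ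
    exact mul_le_mul_of_nonneg_right this hx0.le
  have e5 : 38 * tau q * (3 + Real.log x) * x / (M * Nat.totient q) =
      38 * (tau q * (3 + Real.log x) * x / (M * Nat.totient q)) := by ring
  rw [e5]
  set R : ℝ := tau q * (3 + Real.log x) * x / (M * Nat.totient q) with hR
  have hR0 : 0 ≤ R := by rw [hR]; positivity
  rcases lt_or_ge (y : ℝ) (x ^ (39 / 40 : ℝ)) with hys | hyl
  · -- the trivial bound
    rcases Nat.eq_zero_or_pos y with h0 | hy0
    · subst h0
      have : Eψ 0 q a = 0 := by unfold Eψ psiAP psi1; simp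
      rw [this, abs_zero]; linarith
    have h1 := H343E.psiAP_le y q a hq
    have h2 := H343E.psi1_le y
    have h3 := H343E.psiAP_nonneg y q a
    have h4 := H343E.psi1_nonneg y
    have hly : Real.log y ≤ 3 + Real.log x := by
      have := Real.log_le_log (by exact_mod_cast hy0) hy
      linarith
    have hly0 : 0 ≤ Real.log y := Real.log_natCast_nonneg y
    have hqφ : (Nat.totient q : ℝ) ≤ q := by exact_mod_cast Nat.totient_le q
    have hφx := phi_le hqx
    have h5 : (y : ℝ) / q + 1 ≤ 2 * (x ^ (39 / 40 : ℝ) / Nat.totient q) := by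
      have h6 : (y : ℝ) / q ≤ x ^ (39 / 40 : ℝ) / Nat.totient q :=
        div_le_div₀ (Real.rpow_nonneg hx0.le _) hys.le hφ hqφ
      have h7 : 1 ≤ x ^ (39 / 40 : ℝ) / Nat.totient q := by
        rw [one_le_div hφ]
        exact hφx.trans (Real.rpow_le_rpow_of_exponent_le hx1 (by norm_num))
      linarith
    have h8 : psiAP y q a ≤ 2 * (x ^ (39 / 40 : ℝ) / Nat.totient q) * (3 + Real.log x) := by
      refine h1.trans ?_
      have : 0 ≤ (y : ℝ) / q + 1 := by positivity
      gcongr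
    have h9 : psi1 y / (Nat.totient q : ℝ) ≤ (x ^ (39 / 40 : ℝ) / Nat.totient q) * (3 + Real.log x) := by
      calc psi1 y / (Nat.totient q : ℝ) ≤ (y * Real.log y) / Nat.totient q := div_le_div_of_nonneg_right h2 hφ.le
        _ ≤ (x ^ (39 / 40 : ℝ) * (3 + Real.log x)) / Nat.totient q := by gcongr
        _ = _ := by ring
    have h10 : 3 * (x ^ (39 / 40 : ℝ) / Nat.totient q) ≤ x / (M * Nat.totient q) := by
      rw [← div_div, ← mul_div_assoc]
      apply div_le_div_of_nonneg_right _ hφ.le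
      rw [le_div_iff₀ hM0]
      linarith [h.a3]
    have h11 : 3 * (x ^ (39 / 40 : ℝ) / Nat.totient q) * (3 + Real.log x) ≤ R := by
      calc _ ≤ x / (M * Nat.totient q) * (3 + Real.log x) := mul_le_mul_of_nonneg_right h10 (by linarith)
        _ = (3 + Real.log x) * x / (M * Nat.totient q) := by ring
        _ ≤ R := hbase
    have h12 : 0 ≤ psi1 y / (Nat.totient q : ℝ) := div_nonneg h4 hφ.le
    have h13 : 0 ≤ (x ^ (39 / 40 : ℝ) / Nat.totient q) * (3 + Real.log x) := by positivity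
    unfold Eψ
    rw [abs_le]
    constructor
    · nlinarith
    · nlinarith
  · -- between two grid points
    have hy0 : (0 : ℝ) < y := lt_of_lt_of_le (Real.rpow_pos_of_pos hx0 _) hyl
    set s : ℝ := M * Real.log (x / y) with hs
    have hs0 : 0 ≤ s := mul_nonneg hM0.le (Real.log_nonneg (by rw [one_le_div hy0]; exact hy))
    set k : ℕ := ⌊s⌋₊ with hk
    have hk1 : (k : ℝ) ≤ s := Nat.floor_le hs0
    have hk2 : s < k + 1 := Nat.lt_floor_add_one s
    have hyeq : (y : ℝ) = x * Real.exp (-s / M) := by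
      have h1 : -s / M = -Real.log (x / y) := by rw [hs]; field_simp
      rw [h1, Real.exp_neg, Real.exp_log (by positivity), inv_div]
      field_simp
    have g1 : (y : ℝ) ≤ gr x M (k + 1) := by
      rw [hyeq]; unfold gr
      apply mul_le_mul_of_nonneg_left _ hx0.le
      apply Real.exp_le_exp.2
      apply div_le_div_of_nonneg_right _ hM0.le
      push_cast; linarith
    have g2 : gr x M (k + 2) ≤ y := by
      rw [hyeq]; unfold gr
      apply mul_le_mul_of_nonneg_left _ hx0.le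
      apply Real.exp_le_exp.2
      apply div_le_div_of_nonneg_right _ hM0.le
      push_cast; linarith
    have g3 : x ^ (19 / 20 : ℝ) ≤ gr x M (k + 3) := by
      have h1 : (y : ℝ) * Real.exp (-2) ≤ gr x M (k + 3) := by
        rw [hyeq]; unfold gr
        rw [mul_assoc, ← Real.exp_add]
        apply mul_le_mul_of_nonneg_left _ hx0.le
        apply Real.exp_le_exp.2
        have h2 : (1 - ((k + 3 : ℕ) : ℝ)) / M = -(k : ℝ) / M + (-2) / M := by push_cast; ring
        rw [h2]
        have h3 : -s / M ≤ -(k : ℝ) / M := div_le_div_of_nonneg_right (by linarith) hM0.le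
        have h4 : (-2 : ℝ) ≤ (-2) / M := by
          rw [le_div_iff₀ hM0]; nlinarith [h.M1]
        linarith
      have h5 : Real.exp (-2) * 9 ≥ 1 := by
        rw [Real.exp_neg]
        have h6 : Real.exp 2 ≤ 9 := by
          have h7 := Real.exp_one_lt_d9
          have h8 : Real.exp 2 = Real.exp 1 * Real.exp 1 := by rw [← Real.exp_add]; norm_num
          have h9 := Real.exp_pos 1
          rw [h8]; nlinarith
        rw [ge_iff_le, ← div_eq_inv_mul, one_le_div (Real.exp_pos 2)]
        exact h6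
      have h10 : 9 * x ^ (19 / 20 : ℝ) ≤ y := h.a2.trans hyl
      have h11 : x ^ (19 / 20 : ℝ) ≤ y * Real.exp (-2) := by
        have h12 := Real.exp_pos (-2)
        have h13 : 0 < x ^ (19 / 20 : ℝ) := Real.rpow_pos_of_pos hx0 _
        nlinarith
      exact h11.trans h1
    have g4 : x ^ (19 / 20 : ℝ) ≤ gr x M (k + 2) := g3.trans (gr_anti hx0 h.M1 (by omega))
    have p1 := psi_grid h hq hqx ha hg (i := k) g4
    have p2 := psi_grid h hq hqx ha hg (i := k + 1) g3
    have s1 := short_grid h (i := k) (g4.trans (gr_anti hx0 h.M1 (by omega)))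
    have hRe : 28 * tau q * (3 + Real.log x) * x / (M * Nat.totient q) = 28 * R := by rw [hR]; ring
    rw [hRe] at p1 p2
    have m0 : psi1 (gr x M (k + 1)) ≤ psi1 (gr x M k) := by
      rw [H343E.psi1_eq, H343E.psi1_eq]
      exact psiP_mono _ (gr_anti hx0 h.M1 (by omega))
    have s2 : (psi1 (gr x M (k + 1)) - psi1 (gr x M (k + 2))) / (Nat.totient q : ℝ) ≤ 10 * R := by
      calc _ ≤ (10 * (3 + Real.log x) * x / M) / (Nat.totient q : ℝ) :=
            div_le_div_of_nonneg_right (by linarith) hφ.le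
        _ = 10 * ((3 + Real.log x) * x / (M * Nat.totient q)) := by field_simp
        _ ≤ _ := by linarith
    have m1 : psiAP y q a ≤ psiAP (gr x M (k + 1)) q a := by
      rw [H343E.psiAP_eq, H343E.psiAP_eq]; exact psiP_mono _ g1
    have m2 : psiAP (gr x M (k + 2)) q a ≤ psiAP y q a := by
      rw [H343E.psiAP_eq, H343E.psiAP_eq]; exact psiP_mono _ g2
    have m3 : psi1 y ≤ psi1 (gr x M (k + 1)) := by
      rw [H343E.psi1_eq, H343E.psi1_eq]; exact psiP_mono _ g1
    have m4 : psi1 (gr x M (k + 2)) ≤ psi1 y := by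
      rw [H343E.psi1_eq, H343E.psi1_eq]; exact psiP_mono _ g2
    have m5 : psi1 (gr x M (k + 2)) / (Nat.totient q : ℝ) ≤ psi1 y / (Nat.totient q : ℝ) :=
      div_le_div_of_nonneg_right m4 hφ.le
    have m6 : psi1 y / (Nat.totient q : ℝ) ≤ psi1 (gr x M (k + 1)) / (Nat.totient q : ℝ) :=
      div_le_div_of_nonneg_right m3 hφ.le
    rw [sub_div] at s2
    rw [abs_le] at p1 p2
    unfold Eψ
    rw [abs_le]
    constructor
    · linarith [p2.1]
    · linarith [p1.2]

lemma NPa_le (y q a : ℕ) : H343E.NPa y q a ≤ H343E.NP y := by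
  unfold H343E.NPa H343E.NP
  apply sum_le_sum_of_subset_of_nonneg
  · intro m hm
    rw [mem_filter] at hm ⊢
    exact ⟨hm.1, hm.2.1⟩
  · intro m _ _
    exact div_nonneg ArithmeticFunction.vonMangoldt_nonneg (Real.log_natCast_nonneg m)

/-- all heights, the primes -/
theorem pi_good (h : Par x M) {q a : ℕ} (hq : 0 < q) (hqx : (q : ℝ) ≤ x ^ (1 / 3 : ℝ)) (ha : a.Coprime q)
    (hg : ∀ f : ℕ, f ∣ q → f ≠ 1 → good x M f) {y : ℕ} (hy : (y : ℝ) ≤ x) :
    |piAP y q a - pi1 y / (Nat.totient q : ℝ)| ≤ 100 * tau q * (3 + Real.log x) * x / (M * Nat.totient q) := by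
  have hx0 : 0 < x := by linarith [h.x16]
  have hx1 : 1 ≤ x := by linarith [h.x16]
  have hM0 : 0 < M := by linarith [h.M1]
  have hφ : (0 : ℝ) < Nat.totient q := by exact_mod_cast Nat.totient_pos.2 hq
  have hφ1 : (1 : ℝ) ≤ Nat.totient q := by exact_mod_cast Nat.totient_pos.2 hq
  have hl : 0 ≤ Real.log x := Real.log_nonneg hx1
  have hτ := tau_ge hq
  have e5 : 100 * tau q * (3 + Real.log x) * x / (M * Nat.totient q) =
      100 * (tau q * (3 + Real.log x) * x / (M * Nat.totient q)) := by ring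
  rw [e5]
  set R : ℝ := tau q * (3 + Real.log x) * x / (M * Nat.totient q) with hR
  have hR0 : 0 ≤ R := by rw [hR]; positivity
  have hbase : (3 + Real.log x) * x / (M * Nat.totient q) ≤ R := by
    apply div_le_div_of_nonneg_right _ (by positivity)
    have : (3 + Real.log x) ≤ tau q * (3 + Real.log x) := le_mul_of_one_le_left (by linarith) hτ
    exact mul_le_mul_of_nonneg_right this hx0.le
  rcases lt_or_ge y 2 with hy2 | hy2
  · have h1 : piAP y q a = 0 := by
      unfold piAP
      rw [filter_eq_empty_iff.2, card_empty, Nat.cast_zero]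
      intro p hp hp2
      rw [mem_Icc] at hp
      have := hp2.1.two_le
      omega
    have h2 : pi1 y = 0 := by
      unfold pi1
      rw [filter_eq_empty_iff.2, card_empty, Nat.cast_zero]
      intro p hp hp2
      rw [mem_Icc] at hp
      have := hp2.two_le
      omega
    rw [h1, h2, zero_div, sub_zero, abs_zero]
    linarith
  have hE : ∀ n : ℕ, n ≤ y → |Eψ n q a| ≤ 38 * R := by
    intro n hn
    have h1 := psi_good h hq hqx ha hg (y := n) ((by exact_mod_cast hn : (n : ℝ) ≤ y).trans hy)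
    have e : 38 * tau q * (3 + Real.log x) * x / (M * Nat.totient q) = 38 * R := by rw [hR]; ring
    rwa [e] at h1
  have h1 := H343E.pi_err y q a hy2
  have hly : 0 < Real.log y := Real.log_pos (by exact_mod_cast hy2)
  have h2 : |Eψ y q a| / Real.log y ≤ 38 * R * (1 / Real.log y) := by
    rw [mul_one_div]
    exact div_le_div_of_nonneg_right (hE y le_rfl) hly.le
  have h3 : ∑ n ∈ Ico 2 y, H343E.wA n * |Eψ n q a| ≤ (38 * R) * (1 / Real.log 2 - 1 / Real.log y) := by
    rw [← H343E.sum_wA y hy2, mul_sum]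
    apply sum_le_sum
    intro n hn
    rw [mem_Ico] at hn
    rw [mul_comm]
    exact mul_le_mul_of_nonneg_right (hE n hn.2.le) (H343E.wA_nonneg hn.1)
  have h4 : H343E.NPa y q a + H343E.NP y / (Nat.totient q : ℝ) ≤ 6 * (Real.sqrt y * Real.log y) := by
    have h5 := H343E.NP_le y (by omega)
    have h6 := H343E.NP_nonneg y
    have h7 : H343E.NP y / (Nat.totient q : ℝ) ≤ H343E.NP y := div_le_self h6 hφ1
    linarith [NPa_le y q a]
  have h8 : 6 * (Real.sqrt y * Real.log y) ≤ R := by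
    refine le_trans ?_ hbase
    have h9 : Real.sqrt y ≤ x ^ (1 / 2 : ℝ) := by
      rw [← Real.sqrt_eq_rpow]; exact Real.sqrt_le_sqrt hy
    have h10 : Real.log y ≤ 3 + Real.log x := by
      have := Real.log_le_log (by exact_mod_cast (by omega : 0 < y)) hy
      linarith
    rw [le_div_iff₀ (by positivity)]
    have h11 := phi_le hqx
    have h12 : x ^ (1 / 2 : ℝ) * x ^ (1 / 3 : ℝ) = x ^ (5 / 6 : ℝ) := by
      rw [← Real.rpow_add hx0]; norm_num
    calc 6 * (Real.sqrt y * Real.log y) * (M * Nat.totient q) ≤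
        6 * (x ^ (1 / 2 : ℝ) * (3 + Real.log x)) * (M * x ^ (1 / 3 : ℝ)) := by gcongr
      _ = (3 + Real.log x) * (6 * M * (x ^ (1 / 2 : ℝ) * x ^ (1 / 3 : ℝ))) := by ring
      _ ≤ _ := by rw [h12]; exact mul_le_mul_of_nonneg_left h.a4 (by linarith)
  have h13 : 1 / Real.log 2 ≤ 3 / 2 := by
    have := Real.log_two_gt_d9
    rw [div_le_div_iff₀ (by linarith) (by norm_num)]
    linarith
  have h14 : (38 * R) * (1 / Real.log 2) ≤ 57 * R := by nlinarith
  have h15 : 38 * R * (1 / Real.log y) + (38 * R) * (1 / Real.log 2 - 1 / Real.log y) =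
      (38 * R) * (1 / Real.log 2) := by ring
  linarith

end Pool.Agent.U365.LM
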