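import Pool.Agent.U365.LM.C
import Pool.Agent.R503.N.PiD

/-!
# Moduli without exceptional conductors: power savings and savings of powers of the logarithm
-/

set_option autoImplicit false

namespace Pool.Agent.U365.LM

open Finset Filter
open Pool.Agent.H410R2 Pool.Agent.H398R2.BV
open H343E (psiAP psi1 piAP pi1 Eψ)

lemma ev_rpow {a : ℝ} (ha : 0 < a) (K : ℝ) : ∀ᶠ x : ℕ in atTop, K ≤ (x : ℝ) ^ a :=
  ((tendsto_rpow_atTop ha).comp tendsto_natCast_atTop_atTop).eventually (eventually_ge_atTop K)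

/-- the parameters are admissible -/
lemma ev_par : ∀ᶠ x : ℕ in atTop, ∀ M : ℝ, 1 ≤ M → M ≤ (x : ℝ) ^ (1 / 50 : ℝ) → Par x M := by
  have h1 : ∀ᶠ X : ℝ in atTop, 1 * Real.log X ^ 2 ≤ X ^ (1 / 50 : ℝ) := Pool.Agent.Y61.Z.ev_log_rpow 1 2 (by norm_num)
  have h2 := tendsto_natCast_atTop_atTop.eventually h1
  have h3 : ∀ᶠ x : ℕ in atTop, 3 ≤ Real.log x :=
    (Real.tendsto_log_atTop.comp tendsto_natCast_atTop_atTop).eventually (eventually_ge_atTop 3)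
  filter_upwards [h2, h3, ev_rpow (show (0 : ℝ) < 1 / 200 by norm_num) 9, eventually_ge_atTop 16] with x h2 h3 h4 h5 M hM hMx
  have hx16 : (16 : ℝ) ≤ x := by exact_mod_cast h5
  have hx0 : (0 : ℝ) < x := by linarith
  have hx1 : (1 : ℝ) ≤ x := by linarith
  have rpos : ∀ a : ℝ, 0 < (x : ℝ) ^ a := fun a => Real.rpow_pos_of_pos hx0 a
  have radd : ∀ a b : ℝ, (x : ℝ) ^ a * (x : ℝ) ^ b = (x : ℝ) ^ (a + b) := fun a b => (Real.rpow_add hx0 a b).symm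
  have rle : ∀ {a b : ℝ}, a ≤ b → (x : ℝ) ^ a ≤ (x : ℝ) ^ b := fun h => Real.rpow_le_rpow_of_exponent_le hx1 h
  refine ⟨hx16, hM, ?_, ?_, ?_, ?_⟩
  · have h6 : (3 + Real.log (x : ℝ)) ^ 2 ≤ 4 * (x : ℝ) ^ (1 / 50 : ℝ) := by nlinarith
    have h7 : M ^ 2 ≤ (x : ℝ) ^ (1 / 25 : ℝ) := by
      calc M ^ 2 ≤ ((x : ℝ) ^ (1 / 50 : ℝ)) ^ 2 := by gcongr
        _ = _ := by rw [pow_two, radd]; norm_num
    calc 2 * (3 + Real.log (x : ℝ)) ^ 2 * M ^ 2 * (x : ℝ) ^ (1 / 3 : ℝ) ≤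
        2 * (4 * (x : ℝ) ^ (1 / 50 : ℝ)) * (x : ℝ) ^ (1 / 25 : ℝ) * (x : ℝ) ^ (1 / 3 : ℝ) := by gcongr
      _ = 8 * ((x : ℝ) ^ (1 / 50 : ℝ) * (x : ℝ) ^ (1 / 25 : ℝ) * (x : ℝ) ^ (1 / 3 : ℝ)) := by ring
      _ ≤ (x : ℝ) ^ (1 / 200 : ℝ) * ((x : ℝ) ^ (1 / 50 : ℝ) * (x : ℝ) ^ (1 / 25 : ℝ) * (x : ℝ) ^ (1 / 3 : ℝ)) := by
          have := rpos (1 / 50); have := rpos (1 / 25); have := rpos (1 / 3)
          gcongr
          linarith
      _ = (x : ℝ) ^ (1 / 200 + (1 / 50 + 1 / 25 + 1 / 3) : ℝ) := by rw [radd, radd, radd]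
      _ ≤ _ := rle (by norm_num)
  · calc 9 * (x : ℝ) ^ (19 / 20 : ℝ) ≤ (x : ℝ) ^ (1 / 200 : ℝ) * (x : ℝ) ^ (19 / 20 : ℝ) := by gcongr
      _ = (x : ℝ) ^ (1 / 200 + 19 / 20 : ℝ) := radd _ _
      _ ≤ _ := rle (by norm_num)
  · calc 3 * M * (x : ℝ) ^ (39 / 40 : ℝ) ≤ (x : ℝ) ^ (1 / 200 : ℝ) * (x : ℝ) ^ (1 / 50 : ℝ) * (x : ℝ) ^ (39 / 40 : ℝ) := by
          gcongr
          linarith
      _ = (x : ℝ) ^ (1 / 200 + 1 / 50 + 39 / 40 : ℝ) := by rw [radd, radd]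
      _ ≤ (x : ℝ) ^ (1 : ℝ) := rle (by norm_num)
      _ = x := Real.rpow_one _
  · calc 6 * M * (x : ℝ) ^ (5 / 6 : ℝ) ≤ (x : ℝ) ^ (1 / 200 : ℝ) * (x : ℝ) ^ (1 / 50 : ℝ) * (x : ℝ) ^ (5 / 6 : ℝ) := by
          gcongr
          linarith
      _ = (x : ℝ) ^ (1 / 200 + 1 / 50 + 5 / 6 : ℝ) := by rw [radd, radd]
      _ ≤ (x : ℝ) ^ (1 : ℝ) := rle (by norm_num)
      _ = x := Real.rpow_one _

open Classical in
/-- the exceptional conductors -/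
noncomputable def bad (x : ℕ) (M : ℝ) : Finset ℕ :=
  (Icc 2 ⌊(x : ℝ) ^ (1 / 3 : ℝ)⌋₊).filter (fun f => ¬ good x M f)

lemma bad_count {x : ℕ} {M : ℝ} (hx : 16 ≤ x) (hM : 1 ≤ M) (P : Finset ℕ) (hP : P ⊆ bad x M) (z : ℕ) (hz : 1 ≤ z) :
    ((P.filter (fun f => f ≤ z)).card : ℝ) ≤
      800 * (M ^ 3 * (3 + Real.log x) ^ 7 * (1 + z * (x : ℝ) ^ (-(1 / 20) : ℝ))) := by
  classical
  have hx16 : (16 : ℝ) ≤ x := by exact_mod_cast hx
  have hx1 : (1 : ℝ) ≤ x := by linarith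
  have hM0 : 0 < M := by linarith
  have hl : 0 ≤ Real.log x := Real.log_nonneg hx1
  obtain ⟨w, hw⟩ : ∃ w : ℕ, w = min z ⌊(x : ℝ) ^ (1 / 3 : ℝ)⌋₊ := ⟨_, rfl⟩
  have hfl : 1 ≤ ⌊(x : ℝ) ^ (1 / 3 : ℝ)⌋₊ := by
    rw [Nat.one_le_floor_iff]; exact Real.one_le_rpow hx1 (by norm_num)
  have hw1 : 1 ≤ w := by rw [hw]; exact le_min hz hfl
  have hwx : (w : ℝ) ≤ (x : ℝ) ^ (1 / 3 : ℝ) := by
    have : w ≤ ⌊(x : ℝ) ^ (1 / 3 : ℝ)⌋₊ := by rw [hw]; exact min_le_right _ _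
    exact (by exact_mod_cast this : (w : ℝ) ≤ (⌊(x : ℝ) ^ (1 / 3 : ℝ)⌋₊ : ℝ)).trans (Nat.floor_le (by positivity))
  have h1 := bad_card hx16 hM hw1 hwx (P.filter (fun f => f ≤ z)) (by
    intro f hf
    rw [mem_filter] at hf
    have h2 := hP hf.1
    unfold bad at h2
    rw [mem_filter, mem_Icc] at h2
    rw [mem_Icc, hw]
    exact ⟨h2.1.1, le_min hf.2 h2.1.2⟩) (by
    intro f hf
    rw [mem_filter] at hf
    have h2 := hP hf.1
    unfold bad at h2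
    exact (mem_filter.1 h2).2)
  refine h1.trans ?_
  have hv : 0 < (x : ℝ) ^ (-(1 / 20) : ℝ) := Real.rpow_pos_of_pos (by linarith) _
  have hwz : (w : ℝ) ≤ z := by
    have : w ≤ z := by rw [hw]; exact min_le_left _ _
    exact_mod_cast this
  gcongr

lemma good_of_bad {x : ℕ} {M : ℝ} {q : ℕ} (hq : 0 < q) (hqx : (q : ℝ) ≤ (x : ℝ) ^ (1 / 3 : ℝ))
    {P : Finset ℕ} (hP : ∀ f ∈ bad x M, f ∈ P ∨ good x M f) (h : ∀ f ∈ P, ¬ f ∣ q) :
    ∀ f : ℕ, f ∣ q → f ≠ 1 → good x M f := by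
  classical
  intro f hf h1
  by_contra hb
  have hf0 : 0 < f := Nat.pos_of_dvd_of_pos hf hq
  have hfq : f ≤ q := Nat.le_of_dvd hq hf
  have h2 : f ∈ bad x M := by
    unfold bad
    rw [mem_filter, mem_Icc]
    refine ⟨⟨by omega, ?_⟩, hb⟩
    apply Nat.le_floor
    exact (by exact_mod_cast hfq : (f : ℝ) ≤ q).trans hqx
  rcases hP f h2 with h3 | h3
  · exact h f h3 hf
  · exact hb h3

/-- **Power savings for all moduli without exceptional conductors.** -/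
theorem power (ν : ℝ) (hν : 0 < ν) : ∃ δ : ℝ, 0 < δ ∧ ∀ᶠ x : ℕ in atTop, ∃ P : Finset ℕ, (∀ f ∈ P, 2 ≤ f) ∧
    (∀ z : ℕ, 1 ≤ z → ((P.filter (fun f => f ≤ z)).card : ℝ) ≤ (x : ℝ) ^ ν * (1 + z * (x : ℝ) ^ (-(1 / 20) : ℝ))) ∧
    ∀ q : ℕ, 0 < q → (q : ℝ) ≤ (x : ℝ) ^ (1 / 3 : ℝ) → (∀ f ∈ P, ¬ f ∣ q) → ∀ a : ℕ, a.Coprime q → ∀ y : ℕ, y ≤ x →
      |Eψ y q a| ≤ (x : ℝ) ^ (1 - δ) / q ∧
      |piAP y q a - pi1 y / (Nat.totient q : ℝ)| ≤ (x : ℝ) ^ (1 - δ) / q := by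
  classical
  obtain ⟨d, hd⟩ : ∃ d : ℝ, d = min (ν / 6) (1 / 50) := ⟨_, rfl⟩
  have hd0 : 0 < d := by rw [hd]; exact lt_min (by positivity) (by norm_num)
  have hd1 : d ≤ ν / 6 := by rw [hd]; exact min_le_left _ _
  have hd2 : d ≤ 1 / 50 := by rw [hd]; exact min_le_right _ _
  have h1 : ∀ᶠ X : ℝ in atTop, (800 * 2 ^ 7) * Real.log X ^ 7 ≤ X ^ (ν / 2) :=
    Pool.Agent.Y61.Z.ev_log_rpow _ 7 (by positivity)
  have h3 : ∀ᶠ x : ℕ in atTop, 3 ≤ Real.log x :=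
    (Real.tendsto_log_atTop.comp tendsto_natCast_atTop_atTop).eventually (eventually_ge_atTop 3)
  refine ⟨d / 2, by positivity, ?_⟩
  filter_upwards [tendsto_natCast_atTop_atTop.eventually h1, h3, ev_par,
    Pool.Agent.R503.N.ev_basic (d / 16) (by positivity), ev_rpow (show (0 : ℝ) < d / 8 by positivity) 300,
    eventually_ge_atTop 16] with x h1 h3 hpar hb h300 hx16
  obtain ⟨htau, hlog, -, -⟩ := hb
  have hxr : (16 : ℝ) ≤ x := by exact_mod_cast hx16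
  have hx0 : (0 : ℝ) < x := by linarith
  have hx1 : (1 : ℝ) ≤ x := by linarith
  have rpos : ∀ a : ℝ, 0 < (x : ℝ) ^ a := fun a => Real.rpow_pos_of_pos hx0 a
  have radd : ∀ a b : ℝ, (x : ℝ) ^ a * (x : ℝ) ^ b = (x : ℝ) ^ (a + b) := fun a b => (Real.rpow_add hx0 a b).symm
  have rle : ∀ {a b : ℝ}, a ≤ b → (x : ℝ) ^ a ≤ (x : ℝ) ^ b := fun h => Real.rpow_le_rpow_of_exponent_le hx1 h
  obtain ⟨M, hM⟩ : ∃ M : ℝ, M = (x : ℝ) ^ d := ⟨_, rfl⟩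
  have hM1 : 1 ≤ M := by rw [hM]; exact Real.one_le_rpow hx1 hd0.le
  have hMx : M ≤ (x : ℝ) ^ (1 / 50 : ℝ) := by rw [hM]; exact rle hd2
  have hp := hpar M hM1 hMx
  have hM0 : 0 < M := by linarith
  refine ⟨bad x M, ?_, ?_, ?_⟩
  · intro f hf
    unfold bad at hf
    exact (mem_Icc.1 (mem_filter.1 hf).1).1
  · intro z hz
    refine (bad_count hx16 hM1 (bad x M) (subset_refl _) z hz).trans ?_
    have hv := rpos (-(1 / 20))
    have h5 : 800 * (M ^ 3 * (3 + Real.log x) ^ 7) ≤ (x : ℝ) ^ ν := by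
      have h6 : M ^ 3 ≤ (x : ℝ) ^ (ν / 2) := by
        rw [hM, ← Real.rpow_natCast, ← Real.rpow_mul hx0.le]
        apply rle
        push_cast
        linarith
      have h7 : 800 * (3 + Real.log x) ^ 7 ≤ (x : ℝ) ^ (ν / 2) := by
        calc 800 * (3 + Real.log (x : ℝ)) ^ 7 ≤ 800 * (2 * Real.log x) ^ 7 := by gcongr; linarith
          _ = (800 * 2 ^ 7) * Real.log x ^ 7 := by ring
          _ ≤ _ := h1
      calc 800 * (M ^ 3 * (3 + Real.log x) ^ 7) = M ^ 3 * (800 * (3 + Real.log x) ^ 7) := by ring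
        _ ≤ (x : ℝ) ^ (ν / 2) * (x : ℝ) ^ (ν / 2) := by gcongr
        _ = _ := by rw [radd]; congr 1; ring
    calc _ = 800 * (M ^ 3 * (3 + Real.log x) ^ 7) * (1 + z * (x : ℝ) ^ (-(1 / 20) : ℝ)) := by ring
      _ ≤ _ := by gcongr
  · intro q hq hqx hP a ha y hy
    have hg := good_of_bad hq hqx (P := bad x M) (fun f hf => Or.inl hf) hP
    have hyx : (y : ℝ) ≤ x := by exact_mod_cast hy
    have e1 := psi_good hp hq hqx ha hg hyx
    have e2 := pi_good hp hq hqx ha hg hyx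
    have hqr : (0 : ℝ) < q := by exact_mod_cast hq
    have hφ : (0 : ℝ) < Nat.totient q := by exact_mod_cast Nat.totient_pos.2 hq
    have hqx' : q ≤ x := by
      have : (q : ℝ) ≤ x := hqx.trans (by
        calc (x : ℝ) ^ (1 / 3 : ℝ) ≤ (x : ℝ) ^ (1 : ℝ) := rle (by norm_num)
          _ = x := Real.rpow_one _)
      exact_mod_cast this
    have t1 : tau q ≤ (x : ℝ) ^ (d / 16) := htau q hq.ne' hqx'
    have t0 := tau_ge hq
    have t2 : 1 / (Nat.totient q : ℝ) ≤ tau q / q := Pool.Agent.Y61.Z.one_div_totient_le q hq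
    have t3 : 3 + Real.log x ≤ 3 * (x : ℝ) ^ (d / 16) := by
      have : (1 : ℝ) ≤ (x : ℝ) ^ (d / 16) := Real.one_le_rpow hx1 (by positivity)
      linarith
    have hfin : 100 * tau q * (3 + Real.log x) * x / (M * Nat.totient q) ≤ (x : ℝ) ^ (1 - d / 2) / q := by
      have hl : 0 ≤ 3 + Real.log (x : ℝ) := by linarith
      have u := rpos (d / 16)
      calc 100 * tau q * (3 + Real.log x) * x / (M * Nat.totient q) =
          100 * tau q * (3 + Real.log x) * (x / M) * (1 / (Nat.totient q : ℝ)) := by field_simp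
        _ ≤ 100 * (x : ℝ) ^ (d / 16) * (3 * (x : ℝ) ^ (d / 16)) * (x / M) * (tau q / q) := by gcongr
        _ ≤ 100 * (x : ℝ) ^ (d / 16) * (3 * (x : ℝ) ^ (d / 16)) * (x / M) * ((x : ℝ) ^ (d / 16) / q) := by gcongr
        _ = 300 * ((x : ℝ) ^ (d / 16) * (x : ℝ) ^ (d / 16) * (x : ℝ) ^ (d / 16)) * (x / M) / q := by ring
        _ ≤ (x : ℝ) ^ (d / 8) * ((x : ℝ) ^ (d / 16) * (x : ℝ) ^ (d / 16) * (x : ℝ) ^ (d / 16)) * (x / M) / q := by
            gcongr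
        _ = (x : ℝ) ^ (d / 8 + (d / 16 + d / 16 + d / 16) + (1 - d)) / q := by
            have e3 : x / M = (x : ℝ) ^ (1 - d) := by
              rw [hM, Real.rpow_sub hx0, Real.rpow_one]
            rw [e3, radd, radd, radd, radd]
        _ ≤ _ := by
            apply div_le_div_of_nonneg_right _ hqr.le
            apply rle
            linarith
    refine ⟨e1.trans (le_trans ?_ hfin), e2.trans hfin⟩
    have hl : 0 ≤ 3 + Real.log (x : ℝ) := by linarith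
    have : 0 ≤ tau q * (3 + Real.log x) * x / (M * Nat.totient q) := by positivity
    have e4 : 38 * tau q * (3 + Real.log x) * x / (M * Nat.totient q) =
      38 * (tau q * (3 + Real.log x) * x / (M * Nat.totient q)) := by ring
    have e5 : 100 * tau q * (3 + Real.log x) * x / (M * Nat.totient q) =
      100 * (tau q * (3 + Real.log x) * x / (M * Nat.totient q)) := by ring
    rw [e4, e5]
    linarith

end Pool.Agent.U365.LM
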