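import Pool.Agent.U365.LM.D
import Pool.Agent.H343R2.EH.BVLog

/-!
# Moduli without exceptional conductors: savings of powers of the logarithm
-/

set_option autoImplicit false

namespace Pool.Agent.U365.LM

open Finset Filter
open Pool.Agent.H410R2 Pool.Agent.H398R2.BV
open H343E (psiAP psi1 piAP pi1 Eψ)

/-- small conductors are good -/
lemma good_small (m A : ℕ) : ∀ᶠ x : ℕ in atTop, ∀ f : ℕ, 2 ≤ f → (f : ℝ) ≤ Real.log x ^ A →
    good x (Real.log x ^ m) f := by
  classical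
  obtain ⟨x₀, hx₀⟩ := H343E.sw (A + 2 * m + 1) (A + 1)
  have hlog : Tendsto (fun x : ℕ => Real.log x) atTop atTop :=
    Real.tendsto_log_atTop.comp tendsto_natCast_atTop_atTop
  filter_upwards [ev_rpow (show (0 : ℝ) < 19 / 20 by norm_num) x₀,
    hlog.eventually_ge_atTop (2 ^ (A + 2 * m + 1)), eventually_ge_atTop 3] with x h1 h2 h3 f hf hfA i hi
  obtain ⟨X, hX⟩ : ∃ X : ℝ, X = gr x (Real.log x ^ m) i := ⟨_, rfl⟩
  rw [← hX] at hi ⊢
  have hx0 : (0 : ℝ) < x := by exact_mod_cast (by omega : 0 < x)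
  have hx1 : (1 : ℝ) ≤ x := by exact_mod_cast (by omega : 1 ≤ x)
  obtain ⟨L, hL⟩ : ∃ L : ℝ, L = Real.log x := ⟨_, rfl⟩
  rw [← hL] at h2 hfA ⊢
  have hL1 : 1 ≤ L := (one_le_pow₀ (by norm_num)).trans h2
  have hX1 : 1 ≤ X := (Real.one_le_rpow hx1 (by norm_num)).trans hi
  have hX0 : 0 < X := by linarith
  have hlX : L / 2 ≤ Real.log X := by
    have h4 := Real.log_le_log (by positivity) hi
    rw [Real.log_rpow hx0, ← hL] at h4
    linarith
  have hL2 : 0 < L / 2 := by linarith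
  have h5 : L ^ A ≤ Real.log X ^ (A + 1) := by
    calc L ^ A ≤ (L / 2) ^ (A + 1) := by
          rw [div_pow, le_div_iff₀ (by positivity), pow_succ L A]
          apply mul_le_mul_of_nonneg_left _ (by positivity)
          exact (pow_le_pow_right₀ (by norm_num) (by omega)).trans h2
      _ ≤ _ := pow_le_pow_left₀ hL2.le hlX _
  have h6 : ∀ ψ ∈ Prim f, ‖psiLog X f ψ‖ ≤ X / Real.log X ^ (A + 2 * m + 1) := by
    intro ψ hψ
    apply hx₀ X (h1.trans hi) f (by omega)
    · exact hfA.trans h5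
    · unfold Prim at hψ
      rw [mem_filter] at hψ
      exact hψ.2
  unfold S
  refine (sum_le_sum h6).trans ?_
  rw [sum_const, nsmul_eq_mul]
  have hc : ((Prim f).card : ℝ) ≤ L ^ A := by
    refine (card_prim_le (f := f) (by omega)).trans (le_trans ?_ hfA)
    exact_mod_cast Nat.totient_le f
  have hlXp : 0 < Real.log X := by linarith
  calc ((Prim f).card : ℝ) * (X / Real.log X ^ (A + 2 * m + 1)) ≤ L ^ A * (X / (L / 2) ^ (A + 2 * m + 1)) := by
        gcongr
    _ = X * 2 ^ (A + 2 * m + 1) / L ^ (2 * m + 1) := by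
        have e : L ^ (A + 2 * m + 1) = L ^ A * L ^ (2 * m + 1) := by rw [← pow_add]; congr 1
        rw [div_pow, e]
        have : L ^ A ≠ 0 := by positivity
        field_simp
    _ ≤ X * L / L ^ (2 * m + 1) := by gcongr
    _ = X / (L ^ m) ^ 2 := by
        rw [← pow_mul, mul_comm m 2, pow_succ L (2 * m)]
        field_simp

/-- **Savings of powers of the logarithm for all moduli without exceptional conductors.** -/
theorem logsave (U B : ℕ) : ∃ C : ℕ, ∀ A : ℕ, ∀ᶠ x : ℕ in atTop, ∃ P : Finset ℕ,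
    (∀ f ∈ P, 2 ≤ f ∧ Real.log x ^ A < f) ∧
    (∀ z : ℕ, 1 ≤ z → ((P.filter (fun f => f ≤ z)).card : ℝ) ≤ Real.log x ^ C * (1 + z * (x : ℝ) ^ (-(1 / 20) : ℝ))) ∧
    ∀ q : ℕ, 0 < q → (q : ℝ) ≤ (x : ℝ) ^ (1 / 3 : ℝ) → (q.divisors.card : ℝ) ≤ Real.log x ^ B →
      (∀ f ∈ P, ¬ f ∣ q) → ∀ a : ℕ, a.Coprime q → ∀ y : ℕ, y ≤ x →
      |Eψ y q a| ≤ x / (q * Real.log x ^ U) ∧
      |piAP y q a - pi1 y / (Nat.totient q : ℝ)| ≤ x / (q * Real.log x ^ U) := by
  classical
  obtain ⟨m, hm⟩ : ∃ m : ℕ, m = U + 2 * B + 2 := ⟨_, rfl⟩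
  refine ⟨3 * m + 8, fun A => ?_⟩
  have h1 : ∀ᶠ X : ℝ in atTop, 1 * Real.log X ^ m ≤ X ^ (1 / 50 : ℝ) :=
    Pool.Agent.Y61.Z.ev_log_rpow _ m (by norm_num)
  have h3 : ∀ᶠ x : ℕ in atTop, 800 * 2 ^ 7 ≤ Real.log x :=
    (Real.tendsto_log_atTop.comp tendsto_natCast_atTop_atTop).eventually (eventually_ge_atTop (800 * 2 ^ 7))
  filter_upwards [tendsto_natCast_atTop_atTop.eventually h1, h3, ev_par, good_small m A,
    eventually_ge_atTop 16] with x h1 h3 hpar hsm hx16
  have hxr : (16 : ℝ) ≤ x := by exact_mod_cast hx16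
  have hx0 : (0 : ℝ) < x := by linarith
  have hx1 : (1 : ℝ) ≤ x := by linarith
  obtain ⟨L, hL⟩ : ∃ L : ℝ, L = Real.log x := ⟨_, rfl⟩
  rw [one_mul] at h1
  rw [← hL] at h1 h3 hsm ⊢
  have hL1 : 1 ≤ L := by linarith
  have hL0 : 0 < L := by linarith
  have hM1 : 1 ≤ L ^ m := one_le_pow₀ hL1
  have hp := hpar (L ^ m) hM1 h1
  have rpos : ∀ a : ℝ, 0 < (x : ℝ) ^ a := fun a => Real.rpow_pos_of_pos hx0 a
  refine ⟨(bad x (L ^ m)).filter (fun f => L ^ A < f), ?_, ?_, ?_⟩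
  · intro f hf
    rw [mem_filter] at hf
    refine ⟨?_, hf.2⟩
    have := hf.1
    unfold bad at this
    exact (mem_Icc.1 (mem_filter.1 this).1).1
  · intro z hz
    refine (bad_count hx16 hM1 _ (filter_subset _ _) z hz).trans ?_
    rw [← hL]
    have hv := rpos (-(1 / 20))
    have h7 : 800 * (3 + L) ^ 7 ≤ L ^ 8 := by
      calc 800 * (3 + L) ^ 7 ≤ 800 * (2 * L) ^ 7 := by gcongr; linarith
        _ = (800 * 2 ^ 7) * L ^ 7 := by ring
        _ ≤ L * L ^ 7 := by gcongr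
        _ = _ := by ring
    calc 800 * ((L ^ m) ^ 3 * (3 + L) ^ 7 * (1 + z * (x : ℝ) ^ (-(1 / 20) : ℝ))) =
        (L ^ m) ^ 3 * (800 * (3 + L) ^ 7) * (1 + z * (x : ℝ) ^ (-(1 / 20) : ℝ)) := by ring
      _ ≤ (L ^ m) ^ 3 * L ^ 8 * (1 + z * (x : ℝ) ^ (-(1 / 20) : ℝ)) := by gcongr
      _ = _ := by rw [← pow_mul, ← pow_add, mul_comm m 3]
  · intro q hq hqx hqB hP a ha y hy
    have hg := good_of_bad (x := x) (M := L ^ m) hq hqx (P := (bad x (L ^ m)).filter (fun f => L ^ A < f)) (by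
      intro f hf
      rcases lt_or_ge (L ^ A) (f : ℝ) with h | h
      · exact Or.inl (mem_filter.2 ⟨hf, h⟩)
      · refine Or.inr (hsm f ?_ h)
        unfold bad at hf
        exact (mem_Icc.1 (mem_filter.1 hf).1).1) hP
    have hyx : (y : ℝ) ≤ x := by exact_mod_cast hy
    have e1 := psi_good hp hq hqx ha hg hyx
    have e2 := pi_good hp hq hqx ha hg hyx
    rw [← hL] at e1 e2
    have hqr : (0 : ℝ) < q := by exact_mod_cast hq
    have hφ : (0 : ℝ) < Nat.totient q := by exact_mod_cast Nat.totient_pos.2 hq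
    have t0 := tau_ge hq
    have t1 : tau q ≤ L ^ B := hqB
    have t2 : 1 / (Nat.totient q : ℝ) ≤ tau q / q := Pool.Agent.Y61.Z.one_div_totient_le q hq
    have t3 : 3 + L ≤ 2 * L := by linarith
    have hfin : 100 * tau q * (3 + L) * x / (L ^ m * Nat.totient q) ≤ x / (q * L ^ U) := by
      calc 100 * tau q * (3 + L) * x / (L ^ m * Nat.totient q) =
          100 * tau q * (3 + L) * (x / L ^ m) * (1 / (Nat.totient q : ℝ)) := by field_simp
        _ ≤ 100 * L ^ B * (2 * L) * (x / L ^ m) * (tau q / q) := by gcongr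
        _ ≤ 100 * L ^ B * (2 * L) * (x / L ^ m) * (L ^ B / q) := by gcongr
        _ = 200 * (L ^ (2 * B + 1) * (x / L ^ m)) / q := by ring
        _ ≤ L * (L ^ (2 * B + 1) * (x / L ^ m)) / q := by
            gcongr
            linarith
        _ = x / (q * L ^ U) := by
            have e : L ^ m = L * L ^ (2 * B + 1) * L ^ U := by
              rw [hm]; ring
            rw [e]
            have : L ^ (2 * B + 1) ≠ 0 := by positivity
            field_simp
    refine ⟨e1.trans (le_trans ?_ hfin), e2.trans hfin⟩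
    have : 0 ≤ tau q * (3 + L) * x / (L ^ m * Nat.totient q) := by positivity
    have e4 : 38 * tau q * (3 + L) * x / (L ^ m * Nat.totient q) =
      38 * (tau q * (3 + L) * x / (L ^ m * Nat.totient q)) := by ring
    have e5 : 100 * tau q * (3 + L) * x / (L ^ m * Nat.totient q) =
      100 * (tau q * (3 + L) * x / (L ^ m * Nat.totient q)) := by ring
    rw [e4, e5]
    linarith

end Pool.Agent.U365.LM
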