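import Pool.Agent.U365.LM.E
import Pool.Agent.R503.N.Fin

/-!
# Every left modulus without exceptional conductors: beyond the level `1/2`
-/

set_option autoImplicit false

namespace Pool.Agent.U365.LM

open Finset Filter
open H343E (pi1)
open Pool.Agent.R503.N (pn Mo lin rep rep_coprime pn_rep sum_inv_phi pi_max pnt_lin)

lemma pn_rep' (y q : ℕ) (c : ℤ) (hq : 0 < q) (hc : IsCoprime c (q : ℤ)) :
    pn y q c = H343E.piAP y q (rep q c) := by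
  rw [pn_rep y q c hq hc]
  unfold Pool.Agent.H442R2.KF.piAP H343E.piAP
  rfl

/-- one modulus `q`, with arbitrary heights -/
lemma transfer {x q : ℕ} {c : ℤ} {T : Finset ℕ} (hx : 3 ≤ x) (hq : 0 < q) (hT : T ⊆ Icc 1 x)
    (hcop : ∀ t ∈ T, q.Coprime t) (y : ℕ → ℕ) {B1 B2 : ℝ}
    (h1 : ∑ t ∈ T, |pn (y t) (q * t) c - pn (y t) q c / (Nat.totient t : ℝ)| ≤ B1)
    (h2 : ∀ t, |pn (y t) q c - pi1 (y t) / (Nat.totient q : ℝ)| ≤ B2) :
    ∑ t ∈ T, |pn (y t) (q * t) c - pi1 (y t) / (Nat.totient (q * t) : ℝ)| ≤ B1 + 4 * Real.log x ^ 2 * B2 := by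
  have hB : 0 ≤ B2 := (abs_nonneg _).trans (h2 0)
  have h3 : ∀ t ∈ T, |pn (y t) (q * t) c - pi1 (y t) / (Nat.totient (q * t) : ℝ)| ≤
      |pn (y t) (q * t) c - pn (y t) q c / (Nat.totient t : ℝ)| + 1 / (Nat.totient t : ℝ) * B2 := by
    intro t ht
    have e : pn (y t) (q * t) c - pi1 (y t) / (Nat.totient (q * t) : ℝ) =
        (pn (y t) (q * t) c - pn (y t) q c / (Nat.totient t : ℝ)) +
        1 / (Nat.totient t : ℝ) * (pn (y t) q c - pi1 (y t) / (Nat.totient q : ℝ)) := by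
      rw [Nat.totient_mul (hcop t ht)]
      push_cast
      have a1 : (0 : ℝ) < Nat.totient q := by exact_mod_cast Nat.totient_pos.2 hq
      have a2 : (0 : ℝ) < Nat.totient t := by exact_mod_cast Nat.totient_pos.2 (mem_Icc.1 (hT ht)).1
      field_simp
      ring
    rw [e]
    refine (abs_add_le _ _).trans (add_le_add le_rfl ?_)
    rw [abs_mul, abs_of_nonneg (by positivity : (0 : ℝ) ≤ 1 / (Nat.totient t : ℝ))]
    exact mul_le_mul_of_nonneg_left (h2 t) (by positivity)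
  refine (sum_le_sum h3).trans ?_
  rw [sum_add_distrib, ← sum_mul]
  apply add_le_add h1
  exact mul_le_mul_of_nonneg_right (sum_inv_phi x hx T hT) hB

/-- from `π(y)` to `li(y)` -/
lemma transfer_li {x q : ℕ} {c : ℤ} {T : Finset ℕ} (hx : 3 ≤ x) (hq : 0 < q) (hT : T ⊆ Icc 1 x)
    (hcop : ∀ t ∈ T, q.Coprime t) (y : ℕ → ℕ) {B1 B2 : ℝ}
    (h1 : ∑ t ∈ T, |pn (y t) (q * t) c - pi1 (y t) / (Nat.totient (q * t) : ℝ)| ≤ B1)
    (h2 : ∀ t, |pi1 (y t) - lin (y t)| ≤ B2) :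
    ∑ t ∈ T, |pn (y t) (q * t) c - lin (y t) / (Nat.totient (q * t) : ℝ)| ≤
      B1 + 4 * Real.log x ^ 2 * (B2 / (Nat.totient q : ℝ)) := by
  have hB : 0 ≤ B2 := (abs_nonneg _).trans (h2 0)
  have h3 : ∀ t ∈ T, |pn (y t) (q * t) c - lin (y t) / (Nat.totient (q * t) : ℝ)| ≤
      |pn (y t) (q * t) c - pi1 (y t) / (Nat.totient (q * t) : ℝ)| +
        1 / (Nat.totient t : ℝ) * (B2 / (Nat.totient q : ℝ)) := by
    intro t ht
    have a1 : (0 : ℝ) < Nat.totient q := by exact_mod_cast Nat.totient_pos.2 hq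
    have a2 : (0 : ℝ) < Nat.totient t := by exact_mod_cast Nat.totient_pos.2 (mem_Icc.1 (hT ht)).1
    have e : pn (y t) (q * t) c - lin (y t) / (Nat.totient (q * t) : ℝ) =
        (pn (y t) (q * t) c - pi1 (y t) / (Nat.totient (q * t) : ℝ)) +
        1 / (Nat.totient t : ℝ) * ((pi1 (y t) - lin (y t)) / (Nat.totient q : ℝ)) := by
      rw [Nat.totient_mul (hcop t ht)]
      push_cast
      field_simp
      ring
    rw [e]
    refine (abs_add_le _ _).trans (add_le_add le_rfl ?_)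
    rw [abs_mul, abs_of_nonneg (by positivity : (0 : ℝ) ≤ 1 / (Nat.totient t : ℝ)), abs_div, Nat.abs_cast]
    apply mul_le_mul_of_nonneg_left _ (by positivity)
    exact div_le_div_of_nonneg_right (h2 t) a1.le
  refine (sum_le_sum h3).trans ?_
  rw [sum_add_distrib, ← sum_mul]
  apply add_le_add h1
  exact mul_le_mul_of_nonneg_right (sum_inv_phi x hx T hT) (by positivity)

/-- the prime number theorem, uniformly in the height -/
lemma li_unif (V : ℕ) : ∀ᶠ x : ℕ in atTop, ∀ y : ℕ, 2 ≤ y → y ≤ x → |pi1 y - lin y| ≤ x / Real.log x ^ V := by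
  obtain ⟨C, hC, h⟩ := pnt_lin (V + 1)
  have h1 : ∀ᶠ X : ℝ in atTop, (C + 1) * Real.log X ^ V ≤ X ^ (1 / 2 : ℝ) :=
    Pool.Agent.Y61.Z.ev_log_rpow _ V (by norm_num)
  have h2 : ∀ᶠ x : ℕ in atTop, C * 2 ^ (V + 1) ≤ Real.log x :=
    (Real.tendsto_log_atTop.comp tendsto_natCast_atTop_atTop).eventually (eventually_ge_atTop _)
  filter_upwards [tendsto_natCast_atTop_atTop.eventually h1, h2, eventually_ge_atTop 3] with x h1 h2 hx y hy2 hyx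
  have hx0 : (0 : ℝ) < x := by exact_mod_cast (by omega : 0 < x)
  have hx1 : (1 : ℝ) ≤ x := by exact_mod_cast (by omega : 1 ≤ x)
  have hL := Pool.Agent.R503.N.log_ge1 hx
  obtain ⟨L, hLd⟩ : ∃ L : ℝ, L = Real.log x := ⟨_, rfl⟩
  rw [← hLd] at h1 h2 hL ⊢
  have hL0 : 0 < L := by linarith
  have hss : (x : ℝ) ^ (1 / 2 : ℝ) * (x : ℝ) ^ (1 / 2 : ℝ) = x := by
    rw [← Real.rpow_add hx0]; norm_num
  have hs0 : 0 < (x : ℝ) ^ (1 / 2 : ℝ) := Real.rpow_pos_of_pos hx0 _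
  have hs1 : 1 ≤ (x : ℝ) ^ (1 / 2 : ℝ) := Real.one_le_rpow hx1 (by norm_num)
  -- the small bound
  have hsmall : (C + 1) * (x : ℝ) ^ (1 / 2 : ℝ) ≤ x / L ^ V := by
    rw [le_div_iff₀ (by positivity)]
    calc (C + 1) * (x : ℝ) ^ (1 / 2 : ℝ) * L ^ V = (x : ℝ) ^ (1 / 2 : ℝ) * ((C + 1) * L ^ V) := by ring
      _ ≤ (x : ℝ) ^ (1 / 2 : ℝ) * (x : ℝ) ^ (1 / 2 : ℝ) := by gcongr
      _ = x := hss
  rcases Nat.lt_or_ge y 3 with h3 | h3
  · have e : y = 2 := by omega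
    subst e
    have e1 : pi1 2 = 1 := by
      unfold pi1
      have : ((Icc 1 2).filter (fun p : ℕ => p.Prime)) = {2} := by decide
      rw [this, card_singleton, Nat.cast_one]
    have e2 : lin 2 = 0 := by
      unfold lin
      simp
    rw [e1, e2, sub_zero, abs_one]
    nlinarith
  · have h4 := h y h3
    have e : (Pool.Agent.H442R2.KF.piN y : ℝ) = pi1 y := rfl
    rw [e] at h4
    refine h4.trans ?_
    have hly := Pool.Agent.R503.N.log_ge1 h3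
    rcases le_or_gt (y : ℝ) ((x : ℝ) ^ (1 / 2 : ℝ)) with h5 | h5
    · refine le_trans ?_ hsmall
      have : (y : ℝ) / Real.log y ^ (V + 1) ≤ y := div_le_self (Nat.cast_nonneg y) (one_le_pow₀ hly)
      nlinarith
    · have h6 : L / 2 ≤ Real.log y := by
        have h7 := Real.log_le_log hs0 h5.le
        rw [Real.log_rpow hx0, ← hLd] at h7
        linarith
      have hyx' : (y : ℝ) ≤ x := by exact_mod_cast hyx
      calc C * (y / Real.log y ^ (V + 1)) ≤ C * (x / (L / 2) ^ (V + 1)) := by gcongr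
        _ = (C * 2 ^ (V + 1)) * (x / L ^ (V + 1)) := by rw [div_pow]; field_simp
        _ ≤ L * (x / L ^ (V + 1)) := by gcongr
        _ = x / L ^ V := by
            rw [pow_succ]; field_simp

/-- **Individual left moduli, power saving.** -/
theorem indiv_power (θ κ : ℝ) (hθ1 : 1 / 2 ≤ θ) (hθ : θ < 43 / 84) (hκ0 : 0 ≤ κ) (hκ : κ < 1 / 3) :
    ∃ η : ℝ, 0 < η ∧ ∀ ε : ℝ, 0 < ε → ∀ ν : ℝ, 0 < ν → ∃ δ : ℝ, 0 < δ ∧ ∀ᶠ x : ℕ in atTop, ∃ P : Finset ℕ,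
    (∀ f ∈ P, 2 ≤ f) ∧
    (∀ z : ℕ, 1 ≤ z → ((P.filter (fun f => f ≤ z)).card : ℝ) ≤ (x : ℝ) ^ ν * (1 + z * (x : ℝ) ^ (-(1 / 20) : ℝ))) ∧
    ∀ q : ℕ, 0 < q → (q : ℝ) ≤ (x : ℝ) ^ κ → (∀ f ∈ P, ¬ f ∣ q) → ∀ c : ℤ, IsCoprime c (q : ℤ) →
      ∀ T : Finset ℕ, (∀ t ∈ T, Mo x q c θ ε η t) → ∀ y : ℕ → ℕ, (∀ t, y t ≤ x) →
      ∑ t ∈ T, |pn (y t) (q * t) c - pi1 (y t) / (Nat.totient (q * t) : ℝ)| ≤ (x : ℝ) ^ (1 - δ) / q := by
  obtain ⟨η, hη, hmax⟩ := pi_max θ κ hθ1 hθ hκ0 hκ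
  refine ⟨η, hη, fun ε hε ν hν => ?_⟩
  obtain ⟨e1, he1, hev1⟩ := hmax ε hε
  obtain ⟨e2, he2, hev2⟩ := power ν hν
  obtain ⟨δ, hδ⟩ : ∃ δ : ℝ, δ = min e1 e2 / 2 := ⟨_, rfl⟩
  have hm0 : 0 < min e1 e2 := lt_min he1 he2
  have hδ0 : 0 < δ := by rw [hδ]; positivity
  have hδ1 : 2 * δ ≤ e1 := by rw [hδ]; linarith [min_le_left e1 e2]
  have hδ2 : 2 * δ ≤ e2 := by rw [hδ]; linarith [min_le_right e1 e2]
  refine ⟨δ, hδ0, ?_⟩
  have h1 : ∀ᶠ X : ℝ in atTop, 5 * Real.log X ^ 2 ≤ X ^ δ := Pool.Agent.Y61.Z.ev_log_rpow _ 2 hδ0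
  filter_upwards [hev1, hev2, tendsto_natCast_atTop_atTop.eventually h1, eventually_ge_atTop 3] with x h1 h2 h3 hx
  obtain ⟨P, hP2, hPc, hP⟩ := h2
  have hx0 : (0 : ℝ) < x := by exact_mod_cast (by omega : 0 < x)
  have hx1 : (1 : ℝ) ≤ x := by exact_mod_cast (by omega : 1 ≤ x)
  refine ⟨P, hP2, hPc, fun q hq hqκ hqP c hc T hT y hy => ?_⟩
  have hqr : (0 : ℝ) < q := by exact_mod_cast hq
  have hTx : T ⊆ Icc 1 x := by
    intro t ht
    rw [mem_Icc]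
    refine ⟨(hT t ht).pos, ?_⟩
    have h1 : (t : ℝ) ≤ x := by
      have h2 : (t : ℝ) ≤ q * t := le_mul_of_one_le_left (Nat.cast_nonneg t) (by exact_mod_cast hq)
      refine h2.trans ((hT t ht).2.2.2.trans ?_)
      calc (x : ℝ) ^ θ ≤ (x : ℝ) ^ (1 : ℝ) := Real.rpow_le_rpow_of_exponent_le hx1 (by linarith)
        _ = x := Real.rpow_one _
    exact_mod_cast h1
  have hmain := transfer hx hq hTx (fun t ht => (Nat.squarefree_mul_iff.1 (hT t ht).1).1) y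
    (h1 q hq hqκ c hc T hT y hy) (B2 := (x : ℝ) ^ (1 - e2) / q) (by
      intro t
      rw [pn_rep' _ q c hq hc]
      exact (hP q hq (hqκ.trans (Real.rpow_le_rpow_of_exponent_le hx1 hκ.le)) hqP (rep q c)
        (rep_coprime q c hq) (y t) (hy t)).2)
  refine hmain.trans ?_
  have hL := Pool.Agent.R503.N.log_ge1 hx
  have rle : ∀ {a b : ℝ}, a ≤ b → (x : ℝ) ^ a ≤ (x : ℝ) ^ b := fun h => Real.rpow_le_rpow_of_exponent_le hx1 h
  have i1 : (x : ℝ) ^ (1 - e1) ≤ (x : ℝ) ^ (1 - 2 * δ) := rle (by linarith)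
  have i2 : (x : ℝ) ^ (1 - e2) ≤ (x : ℝ) ^ (1 - 2 * δ) := rle (by linarith)
  have i3 : (1 : ℝ) + 4 * Real.log x ^ 2 ≤ 5 * Real.log x ^ 2 := by nlinarith
  have hp := Real.rpow_pos_of_pos hx0 (1 - 2 * δ)
  calc (x : ℝ) ^ (1 - e1) / q + 4 * Real.log x ^ 2 * ((x : ℝ) ^ (1 - e2) / q) ≤
      (x : ℝ) ^ (1 - 2 * δ) / q + 4 * Real.log x ^ 2 * ((x : ℝ) ^ (1 - 2 * δ) / q) := by gcongr
    _ = (1 + 4 * Real.log x ^ 2) * (x : ℝ) ^ (1 - 2 * δ) / q := by ring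
    _ ≤ (x : ℝ) ^ δ * (x : ℝ) ^ (1 - 2 * δ) / q := by
        apply div_le_div_of_nonneg_right _ hqr.le
        exact mul_le_mul_of_nonneg_right (i3.trans h3) hp.le
    _ = (x : ℝ) ^ (1 - δ) / q := by rw [← Real.rpow_add hx0]; congr 2; ring

/-- **Individual left moduli, savings of powers of the logarithm.** -/
theorem indiv_log (θ κ : ℝ) (hθ1 : 1 / 2 ≤ θ) (hθ : θ < 43 / 84) (hκ0 : 0 ≤ κ) (hκ : κ < 1 / 3) :
    ∃ η : ℝ, 0 < η ∧ ∀ ε : ℝ, 0 < ε → ∀ U B : ℕ, ∃ C : ℕ, ∀ A : ℕ, ∀ᶠ x : ℕ in atTop, ∃ P : Finset ℕ,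
    (∀ f ∈ P, 2 ≤ f ∧ Real.log x ^ A < f) ∧
    (∀ z : ℕ, 1 ≤ z → ((P.filter (fun f => f ≤ z)).card : ℝ) ≤ Real.log x ^ C * (1 + z * (x : ℝ) ^ (-(1 / 20) : ℝ))) ∧
    ∀ q : ℕ, 0 < q → (q : ℝ) ≤ (x : ℝ) ^ κ → (q.divisors.card : ℝ) ≤ Real.log x ^ B →
      (∀ f ∈ P, ¬ f ∣ q) → ∀ c : ℤ, IsCoprime c (q : ℤ) →
      ∀ T : Finset ℕ, (∀ t ∈ T, Mo x q c θ ε η t) → ∀ y : ℕ → ℕ, (∀ t, y t ≤ x) →
      ∑ t ∈ T, |pn (y t) (q * t) c - pi1 (y t) / (Nat.totient (q * t) : ℝ)| ≤ x / (q * Real.log x ^ U) := by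
  obtain ⟨η, hη, hmax⟩ := pi_max θ κ hθ1 hθ hκ0 hκ
  refine ⟨η, hη, fun ε hε U B => ?_⟩
  obtain ⟨e1, he1, hev1⟩ := hmax ε hε
  obtain ⟨C, hC⟩ := logsave (U + 3) B
  refine ⟨C, fun A => ?_⟩
  have hev2 := hC A
  have h1 : ∀ᶠ X : ℝ in atTop, 2 * Real.log X ^ U ≤ X ^ e1 := Pool.Agent.Y61.Z.ev_log_rpow _ U he1
  have h4 : ∀ᶠ x : ℕ in atTop, 8 ≤ Real.log x :=
    (Real.tendsto_log_atTop.comp tendsto_natCast_atTop_atTop).eventually (eventually_ge_atTop _)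
  filter_upwards [hev1, hev2, tendsto_natCast_atTop_atTop.eventually h1, eventually_ge_atTop 3, h4] with x h1 h2 h3 hx h4
  obtain ⟨P, hP2, hPc, hP⟩ := h2
  have hx0 : (0 : ℝ) < x := by exact_mod_cast (by omega : 0 < x)
  have hx1 : (1 : ℝ) ≤ x := by exact_mod_cast (by omega : 1 ≤ x)
  refine ⟨P, hP2, hPc, fun q hq hqκ hqB hqP c hc T hT y hy => ?_⟩
  have hqr : (0 : ℝ) < q := by exact_mod_cast hq
  have hTx : T ⊆ Icc 1 x := by
    intro t ht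
    rw [mem_Icc]
    refine ⟨(hT t ht).pos, ?_⟩
    have h1 : (t : ℝ) ≤ x := by
      have h2 : (t : ℝ) ≤ q * t := le_mul_of_one_le_left (Nat.cast_nonneg t) (by exact_mod_cast hq)
      refine h2.trans ((hT t ht).2.2.2.trans ?_)
      calc (x : ℝ) ^ θ ≤ (x : ℝ) ^ (1 : ℝ) := Real.rpow_le_rpow_of_exponent_le hx1 (by linarith)
        _ = x := Real.rpow_one _
    exact_mod_cast h1
  have hmain := transfer hx hq hTx (fun t ht => (Nat.squarefree_mul_iff.1 (hT t ht).1).1) y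
    (h1 q hq hqκ c hc T hT y hy) (B2 := x / (q * Real.log x ^ (U + 3))) (by
      intro t
      rw [pn_rep' _ q c hq hc]
      exact (hP q hq (hqκ.trans (Real.rpow_le_rpow_of_exponent_le hx1 hκ.le)) hqB hqP (rep q c)
        (rep_coprime q c hq) (y t) (hy t)).2)
  refine hmain.trans ?_
  obtain ⟨L, hLd⟩ : ∃ L : ℝ, L = Real.log x := ⟨_, rfl⟩
  rw [← hLd] at h3 h4 ⊢
  have hL0 : 0 < L := by linarith
  have i1 : (x : ℝ) ^ (1 - e1) / q ≤ (1 / 2) * (x / (q * L ^ U)) := by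
    have e : (x : ℝ) ^ (1 - e1) = x / (x : ℝ) ^ e1 := by rw [Real.rpow_sub hx0, Real.rpow_one]
    rw [e]
    calc x / (x : ℝ) ^ e1 / q ≤ x / (2 * L ^ U) / q := by gcongr
      _ = _ := by field_simp
  have i2 : 4 * L ^ 2 * (x / (q * L ^ (U + 3))) ≤ (1 / 2) * (x / (q * L ^ U)) := by
    calc 4 * L ^ 2 * (x / (q * L ^ (U + 3))) = (4 / L) * (x / (q * L ^ U)) := by
          rw [pow_add]; field_simp
      _ ≤ (1 / 2) * (x / (q * L ^ U)) := by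
          apply mul_le_mul_of_nonneg_right _ (by positivity)
          rw [div_le_iff₀ hL0]
          linarith
  linarith

end Pool.Agent.U365.LM
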