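import Pool.Agent.U365.LM.G
import Pool.Agent.R503.N.PiD
import Pool.Agent.H398R2.BA1

/-!
# Every left modulus without exceptional conductors: the function `ψ`, all heights
-/

set_option autoImplicit false

namespace Pool.Agent.U365.LM

open Finset Filter
open H343E (psi1 psiAP Eψ)
open Pool.Agent.Y826.Z (ind)
open Pool.Agent.Y826.Z.OB (ind_nonneg ind_le_one)
open Pool.Agent.R503.N (pn Mo Mo.pos lin rep rep_coprime ww Pl Dc card_Mo sum_mult sum_phi ev_basic psi_all sum_cls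
  sum_inv_phi pw)

/-- sums of `Λ` with a weight -/
noncomputable def F (w : ℕ → ℝ) (y : ℕ) : ℝ := ∑ n ∈ Icc 1 y, ArithmeticFunction.vonMangoldt n * w n

lemma F_inc {w : ℕ → ℝ} {q : ℕ} {c : ℤ} (hq : 0 < q)
    (hw : ∀ n, 0 ≤ w n ∧ w n ≤ ind ((q : ℤ) ∣ (n : ℤ) - c)) {y' y L x : ℕ} (h : y' ≤ y) (hL : y - y' ≤ L)
    (hy : y ≤ x) :
    0 ≤ F w y - F w y' ∧ F w y - F w y' ≤ Real.log x * ((L : ℝ) / q + 1) := by
  have e : F w y - F w y' = ∑ n ∈ Ioc y' y, ArithmeticFunction.vonMangoldt n * w n := by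
    unfold F
    have e1 : Icc 1 y = Icc 1 y' ∪ Ioc y' y := by
      ext n; simp only [mem_Icc, mem_Ioc, mem_union]; omega
    have e2 : Disjoint (Icc 1 y') (Ioc y' y) := by
      rw [disjoint_left]
      intro n hn hn'
      rw [mem_Icc] at hn
      rw [mem_Ioc] at hn'
      omega
    rw [e1, sum_union e2]
    ring
  rw [e]
  constructor
  · exact sum_nonneg fun n _ => mul_nonneg ArithmeticFunction.vonMangoldt_nonneg (hw n).1
  · calc ∑ n ∈ Ioc y' y, ArithmeticFunction.vonMangoldt n * w n ≤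
        ∑ n ∈ Ioc y' y, Real.log x * ind ((q : ℤ) ∣ (n : ℤ) - c) := by
          refine sum_le_sum fun n hn => ?_
          rw [mem_Ioc] at hn
          have h1 : ArithmeticFunction.vonMangoldt n ≤ Real.log x := by
            refine ArithmeticFunction.vonMangoldt_le_log.trans (Real.log_le_log ?_ ?_)
            · exact_mod_cast (by omega : 0 < n)
            · exact_mod_cast (by omega : n ≤ x)
          exact mul_le_mul h1 (hw n).2 (hw n).1 (Real.log_natCast_nonneg x)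
      _ = Real.log x * ∑ n ∈ Ioc y' y, ind ((q : ℤ) ∣ (n : ℤ) - c) := by rw [mul_sum]
      _ ≤ Real.log x * ((L : ℝ) / q + 1) := by
          apply mul_le_mul_of_nonneg_left _ (Real.log_natCast_nonneg x)
          refine (sum_cls y' y q hq c).trans ?_
          have h2 : ((y - y' : ℕ) : ℝ) ≤ L := by exact_mod_cast hL
          have h3 : (0 : ℝ) < q := by exact_mod_cast hq
          gcongr

/-- `ψ(y; q, c)` -/
noncomputable def ps (y q : ℕ) (c : ℤ) : ℝ := F (fun n => ind ((q : ℤ) ∣ (n : ℤ) - c)) y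

/-- the part of `ψ(y; q, c)` prime to `t` -/
noncomputable def pc (y q t : ℕ) (c : ℤ) : ℝ :=
  F (fun n => ind ((q : ℤ) ∣ (n : ℤ) - c) * ind (IsCoprime (n : ℤ) (t : ℤ))) y

lemma ww_sum {q t : ℕ} {c : ℤ} (h : q.Coprime t) (y : ℕ) :
    ∑ n ∈ Icc 1 y, ArithmeticFunction.vonMangoldt n * ww q c t n =
      ps y (q * t) c - pc y q t c / (Nat.totient t : ℝ) := by
  unfold ps pc F ww Pl Dc
  rw [sum_div, ← sum_sub_distrib]
  refine sum_congr rfl fun n _ => ?_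
  have e : ind (((q * t : ℕ) : ℤ) ∣ (n : ℤ) - c) = ind ((q : ℤ) ∣ (n : ℤ) - c) * ind ((t : ℤ) ∣ (n : ℤ) - c) := by
    have h1 : (((q * t : ℕ) : ℤ) ∣ (n : ℤ) - c) ↔ ((q : ℤ) ∣ (n : ℤ) - c) ∧ ((t : ℤ) ∣ (n : ℤ) - c) := by
      constructor
      · intro h2
        push_cast at h2
        exact ⟨(dvd_mul_right _ _).trans h2, (dvd_mul_left _ _).trans h2⟩
      · rintro ⟨h2, h3⟩
        push_cast
        exact (Nat.isCoprime_iff_coprime.2 h).mul_dvd h2 h3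
    unfold ind
    by_cases a : (q : ℤ) ∣ (n : ℤ) - c <;> by_cases b : (t : ℤ) ∣ (n : ℤ) - c <;> simp only [h1, a, b, and_self,
      and_true, and_false, if_true, if_false, mul_one, mul_zero]
  beta_reduce
  rw [e]
  ring

/-- the main estimate for `ψ`, with the maximum over the heights inside -/
theorem psi_max (θ κ : ℝ) (hθ1 : 1 / 2 ≤ θ) (hθ : θ < 43 / 84) (hκ0 : 0 ≤ κ) (hκ : κ < 1 / 3) :
    ∃ η : ℝ, 0 < η ∧ ∀ ε1 : ℝ, 0 < ε1 → ∃ ε : ℝ, 0 < ε ∧ ∀ᶠ x : ℕ in atTop, ∀ q0 : ℕ, 0 < q0 →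
      (q0 : ℝ) ≤ (x : ℝ) ^ κ → ∀ c : ℤ, IsCoprime c (q0 : ℤ) → ∀ T : Finset ℕ,
      (∀ t ∈ T, Mo x q0 c θ ε1 η t) → ∀ y : ℕ → ℕ, (∀ t, y t ≤ x) →
      ∑ t ∈ T, |ps (y t) (q0 * t) c - pc (y t) q0 t c / (Nat.totient t : ℝ)| ≤ (x : ℝ) ^ (1 - ε) / q0 := by
  obtain ⟨η, hη, hmain⟩ := psi_all θ κ hθ1 hθ hκ0 hκ
  refine ⟨η, hη, fun ε1 hε1 => ?_⟩
  obtain ⟨ε', hε', hev⟩ := hmain ε1 hε1
  set δ : ℝ := min (ε' / 2) (1 / 5) with hδ
  have hδ0 : 0 < δ := lt_min (by positivity) (by norm_num)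
  have hδ1 : δ ≤ ε' / 2 := min_le_left _ _
  have hδ2 : δ ≤ 1 / 5 := min_le_right _ _
  refine ⟨δ / 4, by positivity, ?_⟩
  have h11 : ∀ᶠ x : ℕ in atTop, (8 : ℝ) ≤ (x : ℝ) ^ (δ / 4) :=
    tendsto_natCast_atTop_atTop.eventually (Pool.Agent.Y61.Z.ev_rpow _ (by positivity))
  filter_upwards [hev, ev_basic (δ / 8) (by positivity), h11] with x hx hx2 hx11 q0 hq hqκ c hc T hT y hy
  obtain ⟨htau, hlog, hlog1, hx256⟩ := hx2
  have hX : (256 : ℝ) ≤ x := by exact_mod_cast hx256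
  set X : ℝ := (x : ℝ) with hXdef
  have hX0 : 0 < X := by linarith
  have hX1 : 1 ≤ X := by linarith
  have rle : ∀ {a b : ℝ}, a ≤ b → X ^ a ≤ X ^ b := fun h => Real.rpow_le_rpow_of_exponent_le hX1 h
  have radd : ∀ a b : ℝ, X ^ a * X ^ b = X ^ (a + b) := fun a b => (Real.rpow_add hX0 a b).symm
  have rpos : ∀ a : ℝ, 0 < X ^ a := fun a => Real.rpow_pos_of_pos hX0 a
  have hqr : (0 : ℝ) < q0 := by exact_mod_cast hq
  set ℓ : ℝ := X ^ (δ / 8) with hℓ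
  have hℓ1 : 1 ≤ ℓ := Real.one_le_rpow hX1 (by positivity)
  have hℓ0 : 0 ≤ ℓ := by linarith
  have hcard := card_Mo (by omega : 0 < x) hq T hT
  have hθX : X ^ θ ≤ X := by
    calc X ^ θ ≤ X ^ (1 : ℝ) := rle (by linarith)
      _ = X := Real.rpow_one X
  have hqtx : ∀ t ∈ T, q0 * t ≤ x := by
    intro t ht
    have h1 := ((hT t ht).2.2.2).trans hθX
    have h2 : ((q0 * t : ℕ) : ℝ) ≤ (x : ℝ) := by push_cast; exact h1
    exact (Nat.cast_le (α := ℝ)).1 h2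
  have htx : ∀ t ∈ T, 0 < t ∧ t ≤ x := by
    intro t ht
    refine ⟨(hT t ht).pos, (Nat.le_mul_of_pos_left t hq).trans (hqtx t ht)⟩
  have hcop : ∀ t ∈ T, q0.Coprime t := fun t ht => (Nat.squarefree_mul_iff.1 (hT t ht).1).1
  have h1t := sum_mult 1 x one_pos T (fun t ht => ⟨(htx t ht).1, (htx t ht).2, one_dvd _⟩)
  have hphi := sum_phi T 1 x ℓ one_pos (fun t ht => ⟨(htx t ht).1, (htx t ht).2, one_dvd _⟩) htau hlog
  rw [Nat.cast_one, div_one] at h1t hphi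
  have h1t' : ∑ t ∈ T, (1 / (t : ℝ)) ≤ ℓ ^ 2 := (h1t.trans hlog).trans (by nlinarith)
  have hlog0 : 0 ≤ Real.log (x : ℝ) := by linarith
  have hlogl : Real.log (x : ℝ) ≤ ℓ := by linarith
  -- the grid
  set L : ℕ := ⌊X ^ (1 - δ)⌋₊ with hL
  have hLr : (L : ℝ) ≤ X ^ (1 - δ) := Nat.floor_le (rpos _).le
  have h8 : 8 ≤ X ^ (1 - δ) := hx11.trans (rle (by linarith))
  have hL0 : 0 < L := Nat.floor_pos.2 (by linarith)
  have hLr0 : (0 : ℝ) < L := by exact_mod_cast hL0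
  have hL2 : X ^ (1 - δ) ≤ 2 * L := by
    have := Nat.lt_floor_add_one (X ^ (1 - δ))
    have h1 : (1 : ℝ) ≤ L := by exact_mod_cast hL0
    linarith
  have hJ : ((x / L + 1 : ℕ) : ℝ) ≤ 3 * X ^ δ := by
    have h1 : ((x / L : ℕ) : ℝ) ≤ X / L := Nat.cast_div_le
    have h2 : X / L ≤ 2 * X ^ δ := by
      rw [div_le_iff₀ hLr0]
      have h3 : X = X ^ δ * X ^ (1 - δ) := by
        rw [radd]
        have : δ + (1 - δ) = 1 := by ring
        rw [this, Real.rpow_one]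
      calc X = X ^ δ * X ^ (1 - δ) := h3
        _ ≤ X ^ δ * (2 * L) := mul_le_mul_of_nonneg_left hL2 (rpos _).le
        _ = _ := by ring
    have h4 : 1 ≤ X ^ δ := Real.one_le_rpow hX1 hδ0.le
    push_cast
    linarith
  -- the two parts
  have h1 : ∀ t ∈ T, |ps (y t) (q0 * t) c - pc (y t) q0 t c / (Nat.totient t : ℝ)| ≤
      (∑ j ∈ range (x / L + 1), |ps (L * j) (q0 * t) c - pc (L * j) q0 t c / (Nat.totient t : ℝ)|) +
      ℓ * ((((L : ℝ) / q0) * (1 / (t : ℝ)) + 1) + (1 / (Nat.totient t : ℝ)) * ((L : ℝ) / q0 + 1)) := by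
    intro t ht
    have hyj : L * (y t / L) ≤ y t := Nat.mul_div_le _ _
    have hyj2 : y t - L * (y t / L) ≤ L := by
      have := Nat.div_add_mod (y t) L
      have := Nat.mod_lt (y t) hL0
      omega
    have a1 := F_inc (w := fun n => ind (((q0 * t : ℕ) : ℤ) ∣ (n : ℤ) - c)) (q := q0 * t) (c := c)
      (Nat.mul_pos hq (htx t ht).1) (fun n => ⟨ind_nonneg _, le_rfl⟩) hyj hyj2 (hy t)
    have a2 := F_inc (w := fun n => ind ((q0 : ℤ) ∣ (n : ℤ) - c) * ind (IsCoprime (n : ℤ) (t : ℤ))) (q := q0) (c := c)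
      hq (fun n => ⟨mul_nonneg (ind_nonneg _) (ind_nonneg _), mul_le_of_le_one_right (ind_nonneg _) (ind_le_one _)⟩)
      hyj hyj2 (hy t)
    have e : (L : ℝ) / ((q0 * t : ℕ) : ℝ) = ((L : ℝ) / q0) * (1 / (t : ℝ)) := by
      push_cast
      rw [div_mul_div_comm, mul_one]
    rw [e] at a1
    have hj : y t / L ∈ range (x / L + 1) := by
      rw [mem_range]
      exact Nat.lt_succ_of_le (Nat.div_le_div_right (hy t))
    have a3 := single_le_sum (f := fun j => |ps (L * j) (q0 * t) c - pc (L * j) q0 t c / (Nat.totient t : ℝ)|)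
      (fun i _ => abs_nonneg _) hj
    have hφ : (0 : ℝ) ≤ 1 / (Nat.totient t : ℝ) := by positivity
    change 0 ≤ ps (y t) (q0 * t) c - ps (L * (y t / L)) (q0 * t) c ∧
      ps (y t) (q0 * t) c - ps (L * (y t / L)) (q0 * t) c ≤ _ at a1
    change 0 ≤ pc (y t) q0 t c - pc (L * (y t / L)) q0 t c ∧
      pc (y t) q0 t c - pc (L * (y t / L)) q0 t c ≤ _ at a2
    set A1 := ps (y t) (q0 * t) c
    set A2 := ps (L * (y t / L)) (q0 * t) c
    set B1 := pc (y t) q0 t c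
    set B2 := pc (L * (y t / L)) q0 t c
    have e2 : A1 - B1 / (Nat.totient t : ℝ) = (A2 - B2 / (Nat.totient t : ℝ)) +
        ((A1 - A2) - (1 / (Nat.totient t : ℝ)) * (B1 - B2)) := by ring
    rw [e2]
    refine (abs_add_le _ _).trans (add_le_add a3 ?_)
    have b0 : 0 ≤ (L : ℝ) / q0 * (1 / (t : ℝ)) + 1 := by positivity
    have b0' : 0 ≤ (L : ℝ) / q0 + 1 := by positivity
    have a1' : A1 - A2 ≤ ℓ * ((L : ℝ) / q0 * (1 / (t : ℝ)) + 1) :=
      a1.2.trans (mul_le_mul_of_nonneg_right hlogl b0)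
    have a2' : B1 - B2 ≤ ℓ * ((L : ℝ) / q0 + 1) := a2.2.trans (mul_le_mul_of_nonneg_right hlogl b0')
    have b1 := mul_nonneg hφ a2.1
    have b2 := mul_le_mul_of_nonneg_left a2' hφ
    have b3 : 0 ≤ ℓ * ((L : ℝ) / q0 * (1 / (t : ℝ)) + 1) := by positivity
    have b4 : 0 ≤ (1 / (Nat.totient t : ℝ)) * (ℓ * ((L : ℝ) / q0 + 1)) := by positivity
    have e3 : ℓ * ((((L : ℝ) / q0) * (1 / (t : ℝ)) + 1) + (1 / (Nat.totient t : ℝ)) * ((L : ℝ) / q0 + 1)) =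
        ℓ * ((L : ℝ) / q0 * (1 / (t : ℝ)) + 1) + (1 / (Nat.totient t : ℝ)) * (ℓ * ((L : ℝ) / q0 + 1)) := by ring
    rw [e3, abs_le]
    constructor
    · linarith [a1.1]
    · linarith [a1.1]
  refine (sum_le_sum h1).trans ?_
  rw [sum_add_distrib, sum_comm, ← mul_sum, sum_add_distrib, sum_add_distrib, ← mul_sum, ← sum_mul, sum_const,
    nsmul_eq_mul, mul_one]
  have hgrid : ∑ j ∈ range (x / L + 1), ∑ t ∈ T, |ps (L * j) (q0 * t) c - pc (L * j) q0 t c / (Nat.totient t : ℝ)| ≤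
      3 * X ^ δ * (X ^ (1 - ε') / q0) := by
    have h2 : ∀ j ∈ range (x / L + 1), ∑ t ∈ T, |ps (L * j) (q0 * t) c - pc (L * j) q0 t c / (Nat.totient t : ℝ)| ≤
        X ^ (1 - ε') / q0 := by
      intro j hj
      rw [mem_range] at hj
      have h3 := hx q0 hq hqκ c hc T hT (L * j) (by
        calc L * j ≤ L * (x / L) := Nat.mul_le_mul_left L (by omega)
          _ ≤ x := Nat.mul_div_le _ _)
      refine le_trans (le_of_eq ?_) h3
      exact sum_congr rfl fun t ht => by rw [ww_sum (hcop t ht)]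
    refine (sum_le_sum h2).trans ?_
    rw [sum_const, card_range, nsmul_eq_mul]
    exact mul_le_mul_of_nonneg_right hJ (by have := (rpos (1 - ε')).le; positivity)
  set Z : ℝ := X ^ (1 - δ) / q0 with hZ
  have hZ0 : 0 ≤ Z := by have := (rpos (1 - δ)).le; positivity
  have hLZ : (L : ℝ) / q0 ≤ Z := div_le_div_of_nonneg_right hLr hqr.le
  have hcZ : (T.card : ℝ) ≤ Z := by
    refine hcard.trans (div_le_div_of_nonneg_right (rle (by linarith)) hqr.le)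
  have h1Z : 1 ≤ Z := by
    rw [hZ, one_le_div hqr]
    exact hqκ.trans (rle (by linarith))
  have hg2 : 3 * X ^ δ * (X ^ (1 - ε') / q0) ≤ 3 * Z := by
    have : X ^ δ * (X ^ (1 - ε') / q0) ≤ Z := by
      rw [hZ, mul_div_assoc', radd]
      exact div_le_div_of_nonneg_right (rle (by linarith)) hqr.le
    linarith
  have h1t0 : 0 ≤ ∑ t ∈ T, (1 / (t : ℝ)) := sum_nonneg fun t _ => by positivity
  have hp0 : 0 ≤ ∑ t ∈ T, (1 / (Nat.totient t : ℝ)) := sum_nonneg fun t _ => by positivity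
  have hfin : ∑ j ∈ range (x / L + 1), ∑ t ∈ T, |ps (L * j) (q0 * t) c - pc (L * j) q0 t c / (Nat.totient t : ℝ)| +
      ℓ * (((L : ℝ) / q0) * ∑ t ∈ T, (1 / (t : ℝ)) + (T.card : ℝ) +
        (∑ t ∈ T, (1 / (Nat.totient t : ℝ))) * ((L : ℝ) / q0 + 1)) ≤ 8 * (ℓ ^ 3 * Z) := by
    have c1 : ((L : ℝ) / q0) * ∑ t ∈ T, (1 / (t : ℝ)) ≤ Z * ℓ ^ 2 := by gcongr
    have c2 : (∑ t ∈ T, (1 / (Nat.totient t : ℝ))) * ((L : ℝ) / q0 + 1) ≤ ℓ ^ 2 * (Z + Z) := by gcongr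
    have c3 : Z ≤ ℓ ^ 2 * Z := le_mul_of_one_le_left hZ0 (one_le_pow₀ hℓ1)
    have c4 : ((L : ℝ) / q0) * ∑ t ∈ T, (1 / (t : ℝ)) + (T.card : ℝ) +
        (∑ t ∈ T, (1 / (Nat.totient t : ℝ))) * ((L : ℝ) / q0 + 1) ≤ 4 * (ℓ ^ 2 * Z) := by linarith
    have c5 := mul_le_mul_of_nonneg_left c4 hℓ0
    have c6 : Z ≤ ℓ ^ 3 * Z := le_mul_of_one_le_left hZ0 (one_le_pow₀ hℓ1)
    have e4 : ℓ * (4 * (ℓ ^ 2 * Z)) = 4 * (ℓ ^ 3 * Z) := by ring
    linarith [hgrid.trans hg2]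
  refine hfin.trans ?_
  calc 8 * (ℓ ^ 3 * Z) ≤ X ^ (δ / 4) * (ℓ ^ 3 * Z) := mul_le_mul_of_nonneg_right hx11 (by positivity)
    _ = X ^ (δ / 4 + (δ / 8 * 3 + (1 - δ))) / q0 := by
        rw [hℓ, hZ, ← Real.rpow_natCast, ← Real.rpow_mul hX0.le, mul_div_assoc', mul_div_assoc', radd, radd]
        norm_num
    _ ≤ X ^ (1 - δ / 4) / q0 := by
        apply div_le_div_of_nonneg_right _ hqr.le
        apply rle
        linarith

end Pool.Agent.U365.LM
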