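import Pool.Agent.U365.LM.H
import Pool.Agent.H442R2.EHI.PntErr

/-!
# Every left modulus without exceptional conductors: the final forms for `ψ`
-/

set_option autoImplicit false

namespace Pool.Agent.U365.LM

open Finset Filter
open H343E (psi1 psiAP Eψ)
open Pool.Agent.Y826.Z (ind)
open Pool.Agent.Y826.Z.OB (ind_nonneg ind_le_one)
open Pool.Agent.R503.N (pn Mo Mo.pos lin rep rep_coprime sum_inv_phi)

lemma rep_iff {q : ℕ} {c : ℤ} (hq : 0 < q) (hc : IsCoprime c (q : ℤ)) (n : ℕ) :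
    ((q : ℤ) ∣ (n : ℤ) - c) ↔ n ≡ rep q c [MOD q] := by
  unfold rep
  rw [if_pos hc, ← Int.natCast_modEq_iff, Int.toNat_of_nonneg (Int.emod_nonneg _ (by exact_mod_cast hq.ne')),
    Int.modEq_iff_dvd, dvd_sub_comm]
  have h2 : c % (q : ℤ) = c + (q : ℤ) * (-(c / q)) := by
    have := Int.emod_add_mul_ediv c q
    linarith
  rw [h2]
  constructor
  · intro h
    have : c + (q : ℤ) * (-(c / q)) - n = (c - n) + q * (-(c / q)) := by ring
    rw [this]
    exact dvd_add h (dvd_mul_right _ _)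
  · intro h
    have : c - (n : ℤ) = (c + q * (-(c / q)) - n) + q * (c / q) := by ring
    rw [this]
    exact dvd_add h (dvd_mul_right _ _)

lemma ps_rep (y q : ℕ) (c : ℤ) (hq : 0 < q) (hc : IsCoprime c (q : ℤ)) :
    ps y q c = psiAP y q (rep q c) := by
  unfold ps F psiAP
  rw [Nat.floor_natCast, sum_filter]
  refine sum_congr rfl fun n _ => ?_
  unfold ind
  simp only [rep_iff hq hc n]
  split_ifs <;> simp

lemma omega_le_log {q : ℕ} (hq : 0 < q) : ((q.primeFactors.card : ℕ) : ℝ) ≤ 2 * Real.log q := by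
  have h6 : 2 ^ q.primeFactors.card ≤ q := by
    calc 2 ^ q.primeFactors.card = ∏ p ∈ q.primeFactors, 2 := by rw [prod_const]
      _ ≤ ∏ p ∈ q.primeFactors, p :=
          prod_le_prod' fun p hp => (Nat.prime_of_mem_primeFactors hp).two_le
      _ ≤ q := Nat.le_of_dvd hq (Nat.prod_primeFactors_dvd q)
  have h7 : ((q.primeFactors.card : ℕ) : ℝ) * Real.log 2 ≤ Real.log q := by
    rw [← Real.log_pow]
    exact Real.log_le_log (by positivity) (by exact_mod_cast h6)
  have h8 := Real.log_two_gt_d9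
  have h9 : (0 : ℝ) ≤ q.primeFactors.card := Nat.cast_nonneg _
  nlinarith

/-- the part of `ψ(y; q, c)` not prime to `t` -/
lemma pc_ps {y x q t : ℕ} {c : ℤ} (ht : 0 < t) (htx : t ≤ x) (hyx : y ≤ x) :
    |pc y q t c - ps y q c| ≤ 2 * Real.log x ^ 2 := by
  classical
  have h1 : ps y q c - pc y q t c ≤ ∑ n ∈ (Icc 1 y).filter (fun n => ¬ n.Coprime t), ArithmeticFunction.vonMangoldt n := by
    unfold ps pc F
    rw [← sum_sub_distrib, sum_filter]
    refine sum_le_sum fun n _ => ?_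
    beta_reduce
    have h0 := ArithmeticFunction.vonMangoldt_nonneg (n := n)
    by_cases h : n.Coprime t
    · have : IsCoprime (n : ℤ) (t : ℤ) := Nat.isCoprime_iff_coprime.2 h
      unfold ind
      simp [h, this]
    · have h2 : ¬ IsCoprime (n : ℤ) (t : ℤ) := fun h' => h (Nat.isCoprime_iff_coprime.1 h')
      rw [if_pos h]
      unfold ind
      rw [if_neg h2]
      split_ifs <;> simp
  have h2 : 0 ≤ ps y q c - pc y q t c := by
    unfold ps pc F
    rw [← sum_sub_distrib]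
    refine sum_nonneg fun n _ => ?_
    beta_reduce
    have h0 := ArithmeticFunction.vonMangoldt_nonneg (n := n)
    have h3 : ind ((q : ℤ) ∣ (n : ℤ) - c) * ind (IsCoprime (n : ℤ) (t : ℤ)) ≤ ind ((q : ℤ) ∣ (n : ℤ) - c) :=
      mul_le_of_le_one_right (ind_nonneg _) (ind_le_one _)
    have := mul_le_mul_of_nonneg_left h3 h0
    linarith
  have h3 := Pool.Agent.H398R2.BV.sum_not_coprime y t ht
  have h4 := omega_le_log ht
  have hx0 : 0 ≤ Real.log (x : ℝ) := Real.log_natCast_nonneg x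
  have h5 : Real.log (t : ℝ) ≤ Real.log x := Real.log_le_log (by exact_mod_cast ht) (by exact_mod_cast htx)
  have h6 : Real.log (y : ℝ) ≤ Real.log x := by
    rcases Nat.eq_zero_or_pos y with h | h
    · rw [h]; simpa using hx0
    · exact Real.log_le_log (by exact_mod_cast h) (by exact_mod_cast hyx)
  have h7 : (t.primeFactors.card : ℝ) * Real.log y ≤ 2 * Real.log x * Real.log x := by
    have h8 : (0 : ℝ) ≤ Real.log y := Real.log_natCast_nonneg y
    calc (t.primeFactors.card : ℝ) * Real.log y ≤ (2 * Real.log x) * Real.log x := by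
          apply mul_le_mul (by linarith) h6 h8 (by linarith)
      _ = _ := by ring
  rw [abs_sub_comm, abs_of_nonneg h2]
  calc _ ≤ _ := h1
    _ ≤ _ := h3
    _ ≤ _ := h7
    _ = _ := by ring

/-- one modulus `q`, with arbitrary heights -/
lemma transfer_psi {x q : ℕ} {c : ℤ} {T : Finset ℕ} (hx : 3 ≤ x) (hq : 0 < q) (hT : T ⊆ Icc 1 x)
    (hcop : ∀ t ∈ T, q.Coprime t) (y : ℕ → ℕ) (hy : ∀ t, y t ≤ x) {B1 B2 : ℝ}
    (h1 : ∑ t ∈ T, |ps (y t) (q * t) c - pc (y t) q t c / (Nat.totient t : ℝ)| ≤ B1)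
    (h2 : ∀ t, |ps (y t) q c - psi1 (y t) / (Nat.totient q : ℝ)| ≤ B2) :
    ∑ t ∈ T, |ps (y t) (q * t) c - psi1 (y t) / (Nat.totient (q * t) : ℝ)| ≤
      B1 + 4 * Real.log x ^ 2 * (2 * Real.log x ^ 2 + B2) := by
  have hB : 0 ≤ B2 := (abs_nonneg _).trans (h2 0)
  have h3 : ∀ t ∈ T, |ps (y t) (q * t) c - psi1 (y t) / (Nat.totient (q * t) : ℝ)| ≤
      |ps (y t) (q * t) c - pc (y t) q t c / (Nat.totient t : ℝ)| +
        1 / (Nat.totient t : ℝ) * (2 * Real.log x ^ 2 + B2) := by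
    intro t ht
    have htx := mem_Icc.1 (hT ht)
    have e : ps (y t) (q * t) c - psi1 (y t) / (Nat.totient (q * t) : ℝ) =
        (ps (y t) (q * t) c - pc (y t) q t c / (Nat.totient t : ℝ)) +
        1 / (Nat.totient t : ℝ) * ((pc (y t) q t c - ps (y t) q c) +
          (ps (y t) q c - psi1 (y t) / (Nat.totient q : ℝ))) := by
      rw [Nat.totient_mul (hcop t ht)]
      push_cast
      have a1 : (0 : ℝ) < Nat.totient q := by exact_mod_cast Nat.totient_pos.2 hq
      have a2 : (0 : ℝ) < Nat.totient t := by exact_mod_cast Nat.totient_pos.2 htx.1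
      field_simp
      ring
    rw [e]
    refine (abs_add_le _ _).trans (add_le_add le_rfl ?_)
    rw [abs_mul, abs_of_nonneg (by positivity : (0 : ℝ) ≤ 1 / (Nat.totient t : ℝ))]
    apply mul_le_mul_of_nonneg_left _ (by positivity)
    exact (abs_add_le _ _).trans (add_le_add (pc_ps htx.1 htx.2 (hy t)) (h2 t))
  refine (sum_le_sum h3).trans ?_
  rw [sum_add_distrib, ← sum_mul]
  apply add_le_add h1
  exact mul_le_mul_of_nonneg_right (sum_inv_phi x hx T hT) (by positivity)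

/-- the prime number theorem for `ψ`, uniformly in the height -/
lemma psi_unif (V : ℕ) : ∀ᶠ x : ℕ in atTop, ∀ y : ℕ, y ≤ x → |psi1 y - y| ≤ x / Real.log x ^ V := by
  obtain ⟨C, hC, N₁, h⟩ := Pool.Agent.H442R2.EHI.PntErrAux.largeU (V + 1)
  have h1 : ∀ᶠ X : ℝ in atTop, 2 * Real.log X ^ (V + 1) ≤ X ^ (1 / 2 : ℝ) :=
    Pool.Agent.Y61.Z.ev_log_rpow _ (V + 1) (by norm_num)
  have h2 : ∀ᶠ x : ℕ in atTop, 2 * (C * 2 ^ (V + 1)) + 4 ≤ Real.log x :=
    (Real.tendsto_log_atTop.comp tendsto_natCast_atTop_atTop).eventually (eventually_ge_atTop _)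
  filter_upwards [tendsto_natCast_atTop_atTop.eventually h1, h2, eventually_ge_atTop 3,
    ev_rpow (show (0 : ℝ) < 1 / 2 by norm_num) N₁] with x h1 h2 hx hN y hyx
  have hx0 : (0 : ℝ) < x := by exact_mod_cast (by omega : 0 < x)
  have hx1 : (1 : ℝ) ≤ x := by exact_mod_cast (by omega : 1 ≤ x)
  obtain ⟨L, hLd⟩ : ∃ L : ℝ, L = Real.log x := ⟨_, rfl⟩
  rw [← hLd] at h1 h2 ⊢
  have hL4 : 4 ≤ L := by have : 0 ≤ 2 * (C * 2 ^ (V + 1)) := by positivity
                         linarith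
  have hL0 : 0 < L := by linarith
  have hss : (x : ℝ) ^ (1 / 2 : ℝ) * (x : ℝ) ^ (1 / 2 : ℝ) = x := by
    rw [← Real.rpow_add hx0]; norm_num
  have hs0 : 0 < (x : ℝ) ^ (1 / 2 : ℝ) := Real.rpow_pos_of_pos hx0 _
  have hs1 : 1 ≤ (x : ℝ) ^ (1 / 2 : ℝ) := Real.one_le_rpow hx1 (by norm_num)
  have hy0 : (0 : ℝ) ≤ y := Nat.cast_nonneg y
  rcases le_or_gt (y : ℝ) ((x : ℝ) ^ (1 / 2 : ℝ)) with h5 | h5
  · -- small heights
    have h6 := H343E.psi1_le y
    have h7 : Real.log (y : ℝ) ≤ L := by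
      rcases Nat.eq_zero_or_pos y with h | h
      · rw [h]; simp; linarith
      · rw [hLd]; exact Real.log_le_log (by exact_mod_cast h) (by exact_mod_cast hyx)
    have h8 : 0 ≤ psi1 (y : ℝ) := by
      unfold psi1
      exact sum_nonneg fun n _ => ArithmeticFunction.vonMangoldt_nonneg
    have h9 : |psi1 y - y| ≤ (x : ℝ) ^ (1 / 2 : ℝ) * L + (x : ℝ) ^ (1 / 2 : ℝ) * L := by
      have h10 : psi1 y ≤ (x : ℝ) ^ (1 / 2 : ℝ) * L := by
        refine h6.trans ?_
        have : 0 ≤ Real.log (y : ℝ) := Real.log_natCast_nonneg y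
        gcongr
      have h11 : (y : ℝ) ≤ (x : ℝ) ^ (1 / 2 : ℝ) * L := by nlinarith
      rw [abs_le]
      constructor <;> linarith
    refine h9.trans ?_
    rw [le_div_iff₀ (by positivity)]
    calc ((x : ℝ) ^ (1 / 2 : ℝ) * L + (x : ℝ) ^ (1 / 2 : ℝ) * L) * L ^ V = (x : ℝ) ^ (1 / 2 : ℝ) * (2 * L ^ (V + 1)) := by ring
      _ ≤ (x : ℝ) ^ (1 / 2 : ℝ) * (x : ℝ) ^ (1 / 2 : ℝ) := by gcongr
      _ = x := hss
  · have hyN : N₁ ≤ y := by
      have : (N₁ : ℝ) ≤ y := hN.trans h5.le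
      exact_mod_cast this
    have h6 := h y hyN
    have e : Chebyshev.psi (y : ℝ) = psi1 y := by
      unfold Chebyshev.psi psi1
      rfl
    rw [e] at h6
    have h7 : L / 2 ≤ Real.log y := by
      have h7 := Real.log_le_log hs0 h5.le
      rw [Real.log_rpow hx0, ← hLd] at h7
      linarith
    have hyx' : (y : ℝ) ≤ x := by exact_mod_cast hyx
    have h8 : C * (y / Real.log y ^ (V + 1)) ≤ (1 / 2) * (x / L ^ V) := by
      calc C * (y / Real.log y ^ (V + 1)) ≤ C * (x / (L / 2) ^ (V + 1)) := by gcongr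
        _ = (C * 2 ^ (V + 1)) * (x / L ^ (V + 1)) := by rw [div_pow]; field_simp
        _ ≤ (L / 2) * (x / L ^ (V + 1)) := by
            apply mul_le_mul_of_nonneg_right _ (by positivity)
            linarith
        _ = _ := by rw [pow_succ]; field_simp
    have h9 : (2 : ℝ) ≤ (1 / 2) * (x / L ^ V) := by
      have h10 : 4 * L ^ V ≤ x := by
        calc 4 * L ^ V ≤ 2 * L ^ (V + 1) := by rw [pow_succ]; nlinarith [pow_pos hL0 V]
          _ ≤ (x : ℝ) ^ (1 / 2 : ℝ) := h1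
          _ ≤ (x : ℝ) ^ (1 / 2 : ℝ) * (x : ℝ) ^ (1 / 2 : ℝ) := le_mul_of_one_le_left hs0.le hs1
          _ = x := hss
      have : (4 : ℝ) ≤ x / L ^ V := by rw [le_div_iff₀ (by positivity)]; exact h10
      linarith
    linarith

end Pool.Agent.U365.LM
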