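import Pool.Agent.U365.LM.I

/-!
# Every left modulus without exceptional conductors: `ψ`, sums and exceptional sets
-/

set_option autoImplicit false

namespace Pool.Agent.U365.LM

open Finset Filter
open H343E (psi1 psiAP Eψ)
open Pool.Agent.R503.N (Mo Mo.pos rep rep_coprime)

/-- from sums with arbitrary heights to exceptional sets -/
lemma count_bad {T : Finset ℕ} {x : ℕ} {G : ℕ → ℕ → ℝ} {S a : ℝ} (ha : 0 < a)
    (h : ∀ y : ℕ → ℕ, (∀ t, y t ≤ x) → ∑ t ∈ T, G t (y t) ≤ S) (hG : ∀ t y, 0 ≤ G t y) (hT : ∀ t ∈ T, 0 < t)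
    (Z : ℕ) (R : Finset ℕ) (hR : ∀ t ∈ R, t ∈ T ∧ t ≤ Z ∧ ¬ ∀ y : ℕ, y ≤ x → G t y ≤ a / t) :
    (R.card : ℝ) * (a / Z) ≤ S := by
  classical
  have h1 : ∀ t : ℕ, ∃ y : ℕ, y ≤ x ∧ (t ∈ R → a / t < G t y) := by
    intro t
    by_cases ht : t ∈ R
    · have h2 := (hR t ht).2.2
      push Not at h2
      obtain ⟨y, hy1, hy2⟩ := h2
      exact ⟨y, hy1, fun _ => hy2⟩
    · exact ⟨0, Nat.zero_le _, fun h => absurd h ht⟩
  choose y hy1 hy2 using h1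
  have h3 := h y hy1
  have h4 : ∑ t ∈ R, G t (y t) ≤ ∑ t ∈ T, G t (y t) :=
    sum_le_sum_of_subset_of_nonneg (fun t ht => (hR t ht).1) fun t _ _ => hG t _
  have h5 : ∑ _t ∈ R, a / (Z : ℝ) ≤ ∑ t ∈ R, G t (y t) := by
    refine sum_le_sum fun t ht => ?_
    refine le_trans ?_ (hy2 t ht).le
    have h6 : 0 < t := hT t (hR t ht).1
    have h7 : (0 : ℝ) < t := by exact_mod_cast h6
    have h8 : (t : ℝ) ≤ Z := by exact_mod_cast (hR t ht).2.1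
    exact div_le_div_of_nonneg_left ha.le h7 h8
  rw [sum_const, nsmul_eq_mul] at h5
  linarith

/-- **Individual left moduli, power saving, `ψ`.** -/
theorem indiv_psi_power (θ κ : ℝ) (hθ1 : 1 / 2 ≤ θ) (hθ : θ < 43 / 84) (hκ0 : 0 ≤ κ) (hκ : κ < 1 / 3) :
    ∃ η : ℝ, 0 < η ∧ ∀ ε : ℝ, 0 < ε → ∀ ν : ℝ, 0 < ν → ∃ δ : ℝ, 0 < δ ∧ ∀ᶠ x : ℕ in atTop, ∃ P : Finset ℕ,
    (∀ f ∈ P, 2 ≤ f) ∧
    (∀ z : ℕ, 1 ≤ z → ((P.filter (fun f => f ≤ z)).card : ℝ) ≤ (x : ℝ) ^ ν * (1 + z * (x : ℝ) ^ (-(1 / 20) : ℝ))) ∧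
    ∀ q : ℕ, 0 < q → (q : ℝ) ≤ (x : ℝ) ^ κ → (∀ f ∈ P, ¬ f ∣ q) → ∀ c : ℤ, IsCoprime c (q : ℤ) →
      ∀ T : Finset ℕ, (∀ t ∈ T, Mo x q c θ ε η t) → ∀ y : ℕ → ℕ, (∀ t, y t ≤ x) →
      ∑ t ∈ T, |ps (y t) (q * t) c - psi1 (y t) / (Nat.totient (q * t) : ℝ)| ≤ (x : ℝ) ^ (1 - δ) / q := by
  obtain ⟨η, hη, hmax⟩ := psi_max θ κ hθ1 hθ hκ0 hκ
  refine ⟨η, hη, fun ε hε ν hν => ?_⟩
  obtain ⟨e1, he1, hev1⟩ := hmax ε hε
  obtain ⟨e2, he2, hev2⟩ := power ν hν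
  obtain ⟨δ, hδ⟩ : ∃ δ : ℝ, δ = min (min e1 e2) (1 / 2) / 2 := ⟨_, rfl⟩
  have hm0 : 0 < min (min e1 e2) (1 / 2) := lt_min (lt_min he1 he2) (by norm_num)
  have hδ0 : 0 < δ := by rw [hδ]; positivity
  have hδ1 : 2 * δ ≤ e1 := by
    have : min (min e1 e2) (1 / 2) ≤ e1 := (min_le_left _ _).trans (min_le_left _ _)
    rw [hδ]; linarith
  have hδ2 : 2 * δ ≤ e2 := by
    have : min (min e1 e2) (1 / 2) ≤ e2 := (min_le_left _ _).trans (min_le_right _ _)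
    rw [hδ]; linarith
  have hδ3 : 2 * δ ≤ 1 / 2 := by
    have : min (min e1 e2) (1 / 2) ≤ 1 / 2 := min_le_right _ _
    rw [hδ]; linarith
  refine ⟨δ, hδ0, ?_⟩
  have h1 : ∀ᶠ X : ℝ in atTop, 9 * Real.log X ^ 2 ≤ X ^ δ := Pool.Agent.Y61.Z.ev_log_rpow _ 2 hδ0
  have h6 : ∀ᶠ X : ℝ in atTop, 2 * Real.log X ^ 2 ≤ X ^ (1 / 6 : ℝ) := Pool.Agent.Y61.Z.ev_log_rpow _ 2 (by norm_num)
  filter_upwards [hev1, hev2, tendsto_natCast_atTop_atTop.eventually h1, eventually_ge_atTop 3,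
    tendsto_natCast_atTop_atTop.eventually h6] with x h1 h2 h3 hx h6
  obtain ⟨P, hP2, hPc, hP⟩ := h2
  have hx0 : (0 : ℝ) < x := by exact_mod_cast (by omega : 0 < x)
  have hx1 : (1 : ℝ) ≤ x := by exact_mod_cast (by omega : 1 ≤ x)
  refine ⟨P, hP2, hPc, fun q hq hqκ hqP c hc T hT y hy => ?_⟩
  have hqr : (0 : ℝ) < q := by exact_mod_cast hq
  have hTx : T ⊆ Icc 1 x := Mo_sub (by omega) hq (by linarith) hT
  have hmain := transfer_psi hx hq hTx (fun t ht => (Nat.squarefree_mul_iff.1 (hT t ht).1).1) y hy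
    (h1 q hq hqκ c hc T hT y hy) (B2 := (x : ℝ) ^ (1 - e2) / q) (by
      intro t
      rw [ps_rep _ q c hq hc]
      exact (hP q hq (hqκ.trans (Real.rpow_le_rpow_of_exponent_le hx1 hκ.le)) hqP (rep q c)
        (rep_coprime q c hq) (y t) (hy t)).1)
  refine hmain.trans ?_
  have hL := Pool.Agent.R503.N.log_ge1 hx
  have rle : ∀ {a b : ℝ}, a ≤ b → (x : ℝ) ^ a ≤ (x : ℝ) ^ b := fun h => Real.rpow_le_rpow_of_exponent_le hx1 h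
  have i1 : (x : ℝ) ^ (1 - e1) ≤ (x : ℝ) ^ (1 - 2 * δ) := rle (by linarith)
  have i2 : (x : ℝ) ^ (1 - e2) ≤ (x : ℝ) ^ (1 - 2 * δ) := rle (by linarith)
  have i3 : (1 : ℝ) + 8 * Real.log x ^ 2 ≤ 9 * Real.log x ^ 2 := by nlinarith
  have i4 : 2 * Real.log x ^ 2 ≤ (x : ℝ) ^ (1 - 2 * δ) / q := by
    rw [le_div_iff₀ hqr]
    calc 2 * Real.log x ^ 2 * q ≤ (x : ℝ) ^ (1 / 6 : ℝ) * (x : ℝ) ^ (1 / 3 : ℝ) := by
          apply mul_le_mul h6 (hqκ.trans (rle hκ.le)) hqr.le (by positivity)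
      _ = (x : ℝ) ^ (1 / 2 : ℝ) := by rw [← Real.rpow_add hx0]; norm_num
      _ ≤ _ := rle (by linarith)
  have hp := Real.rpow_pos_of_pos hx0 (1 - 2 * δ)
  calc (x : ℝ) ^ (1 - e1) / q + 4 * Real.log x ^ 2 * (2 * Real.log x ^ 2 + (x : ℝ) ^ (1 - e2) / q) ≤
      (x : ℝ) ^ (1 - 2 * δ) / q + 4 * Real.log x ^ 2 * ((x : ℝ) ^ (1 - 2 * δ) / q + (x : ℝ) ^ (1 - 2 * δ) / q) := by
        gcongr
    _ = (1 + 8 * Real.log x ^ 2) * (x : ℝ) ^ (1 - 2 * δ) / q := by ring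
    _ ≤ (x : ℝ) ^ δ * (x : ℝ) ^ (1 - 2 * δ) / q := by
        apply div_le_div_of_nonneg_right _ hqr.le
        exact mul_le_mul_of_nonneg_right (i3.trans h3) hp.le
    _ = (x : ℝ) ^ (1 - δ) / q := by rw [← Real.rpow_add hx0]; congr 2; ring

/-- **Individual left moduli, savings of powers of the logarithm, `ψ`.** -/
theorem indiv_psi_log (θ κ : ℝ) (hθ1 : 1 / 2 ≤ θ) (hθ : θ < 43 / 84) (hκ0 : 0 ≤ κ) (hκ : κ < 1 / 3) :
    ∃ η : ℝ, 0 < η ∧ ∀ ε : ℝ, 0 < ε → ∀ U B : ℕ, ∃ C : ℕ, ∀ A : ℕ, ∀ᶠ x : ℕ in atTop, ∃ P : Finset ℕ,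
    (∀ f ∈ P, 2 ≤ f ∧ Real.log x ^ A < f) ∧
    (∀ z : ℕ, 1 ≤ z → ((P.filter (fun f => f ≤ z)).card : ℝ) ≤ Real.log x ^ C * (1 + z * (x : ℝ) ^ (-(1 / 20) : ℝ))) ∧
    ∀ q : ℕ, 0 < q → (q : ℝ) ≤ (x : ℝ) ^ κ → (q.divisors.card : ℝ) ≤ Real.log x ^ B →
      (∀ f ∈ P, ¬ f ∣ q) → ∀ c : ℤ, IsCoprime c (q : ℤ) →
      ∀ T : Finset ℕ, (∀ t ∈ T, Mo x q c θ ε η t) → ∀ y : ℕ → ℕ, (∀ t, y t ≤ x) →
      ∑ t ∈ T, |ps (y t) (q * t) c - psi1 (y t) / (Nat.totient (q * t) : ℝ)| ≤ x / (q * Real.log x ^ U) := by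
  obtain ⟨η, hη, hmax⟩ := psi_max θ κ hθ1 hθ hκ0 hκ
  refine ⟨η, hη, fun ε hε U B => ?_⟩
  obtain ⟨e1, he1, hev1⟩ := hmax ε hε
  obtain ⟨C, hC⟩ := logsave (U + 3) B
  refine ⟨C, fun A => ?_⟩
  have hev2 := hC A
  have h1 : ∀ᶠ X : ℝ in atTop, 4 * Real.log X ^ U ≤ X ^ e1 := Pool.Agent.Y61.Z.ev_log_rpow _ U he1
  have h4 : ∀ᶠ x : ℕ in atTop, 16 ≤ Real.log x :=
    (Real.tendsto_log_atTop.comp tendsto_natCast_atTop_atTop).eventually (eventually_ge_atTop _)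
  have h6 : ∀ᶠ X : ℝ in atTop, 32 * Real.log X ^ (U + 4) ≤ X ^ (2 / 3 : ℝ) :=
    Pool.Agent.Y61.Z.ev_log_rpow _ _ (by norm_num)
  filter_upwards [hev1, hev2, tendsto_natCast_atTop_atTop.eventually h1, eventually_ge_atTop 3, h4,
    tendsto_natCast_atTop_atTop.eventually h6] with x h1 h2 h3 hx h4 h6
  obtain ⟨P, hP2, hPc, hP⟩ := h2
  have hx0 : (0 : ℝ) < x := by exact_mod_cast (by omega : 0 < x)
  have hx1 : (1 : ℝ) ≤ x := by exact_mod_cast (by omega : 1 ≤ x)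
  refine ⟨P, hP2, hPc, fun q hq hqκ hqB hqP c hc T hT y hy => ?_⟩
  have hqr : (0 : ℝ) < q := by exact_mod_cast hq
  have hTx : T ⊆ Icc 1 x := Mo_sub (by omega) hq (by linarith) hT
  have hq3 := hqκ.trans (Real.rpow_le_rpow_of_exponent_le hx1 hκ.le)
  have hmain := transfer_psi hx hq hTx (fun t ht => (Nat.squarefree_mul_iff.1 (hT t ht).1).1) y hy
    (h1 q hq hqκ c hc T hT y hy) (B2 := x / (q * Real.log x ^ (U + 3))) (by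
      intro t
      rw [ps_rep _ q c hq hc]
      exact (hP q hq hq3 hqB hqP (rep q c)
        (rep_coprime q c hq) (y t) (hy t)).1)
  refine hmain.trans ?_
  obtain ⟨L, hLd⟩ : ∃ L : ℝ, L = Real.log x := ⟨_, rfl⟩
  rw [← hLd] at h3 h4 h6 ⊢
  have hL0 : 0 < L := by linarith
  have i1 : (x : ℝ) ^ (1 - e1) / q ≤ (1 / 4) * (x / (q * L ^ U)) := by
    have e : (x : ℝ) ^ (1 - e1) = x / (x : ℝ) ^ e1 := by rw [Real.rpow_sub hx0, Real.rpow_one]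
    rw [e]
    calc x / (x : ℝ) ^ e1 / q ≤ x / (4 * L ^ U) / q := by gcongr
      _ = _ := by field_simp
  have i2 : 4 * L ^ 2 * (x / (q * L ^ (U + 3))) ≤ (1 / 4) * (x / (q * L ^ U)) := by
    calc 4 * L ^ 2 * (x / (q * L ^ (U + 3))) = (4 / L) * (x / (q * L ^ U)) := by
          rw [pow_add]; field_simp
      _ ≤ (1 / 4) * (x / (q * L ^ U)) := by
          apply mul_le_mul_of_nonneg_right _ (by positivity)
          rw [div_le_iff₀ hL0]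
          linarith
  have i3 : 4 * L ^ 2 * (2 * L ^ 2) ≤ (1 / 4) * (x / (q * L ^ U)) := by
    have h7 : (32 * L ^ (U + 4)) * q ≤ x := by
      calc (32 * L ^ (U + 4)) * q ≤ (x : ℝ) ^ (2 / 3 : ℝ) * (x : ℝ) ^ (1 / 3 : ℝ) := by
            apply mul_le_mul h6 hq3 hqr.le (by positivity)
        _ = x := by rw [← Real.rpow_add hx0]; norm_num
    have e : 4 * L ^ 2 * (2 * L ^ 2) = (1 / 4) * (32 * L ^ 4) := by ring
    rw [e]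
    apply mul_le_mul_of_nonneg_left _ (by norm_num)
    rw [le_div_iff₀ (by positivity)]
    calc 32 * L ^ 4 * (q * L ^ U) = (32 * L ^ (U + 4)) * q := by rw [pow_add]; ring
      _ ≤ x := h7
  have i4 : 0 ≤ (x : ℝ) / (q * L ^ U) := by positivity
  rw [mul_add]
  linarith

end Pool.Agent.U365.LM
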