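import Pool.Agent.U365.LM.G
import Pool.Agent.R503.W.FinT

/-!
# Every left modulus without exceptional conductors: trees of prime factors, nested choices of classes
-/

set_option autoImplicit false

namespace Pool.Agent.U365.LM

open Finset Filter
open H343E (pi1)
open Pool.Agent.R503.N (pn lin rep rep_coprime sum_inv_phi)
open Pool.Agent.R503.T (LS length_le suffix_mem seq_max pn_congr)
open Pool.Agent.R503.W (sum_codes omega_le)

/-- the weight is at most a power of the number of divisors of `q` -/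
lemma weight_le {q B K : ℕ} (hq : 0 < q) (hB : 1 ≤ B) {l : List ℕ} (hpm : ∀ p ∈ l, p.Prime) (hlen : l.length ≤ K) :
    (B : ℝ) ^ (q * l.prod).primeFactors.card ≤ (B : ℝ) ^ K * tau q ^ B := by
  have hBr : (1 : ℝ) ≤ B := by exact_mod_cast hB
  have h1 := omega_le q l hpm hq.ne'
  have h2 : (B : ℝ) ≤ 2 ^ B := by exact_mod_cast (Nat.lt_two_pow_self (n := B)).le
  have h3 : (2 : ℝ) ^ q.primeFactors.card ≤ tau q := by
    unfold tau
    have h4 : 2 ^ q.primeFactors.card ≤ q.divisors.card := by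
      rw [Nat.card_divisors hq.ne', ← prod_const]
      apply prod_le_prod' fun p hp => ?_
      have := (Nat.Prime.factorization_pos_of_dvd (Nat.prime_of_mem_primeFactors hp) hq.ne'
        (Nat.dvd_of_mem_primeFactors hp))
      omega
    exact_mod_cast h4
  calc (B : ℝ) ^ (q * l.prod).primeFactors.card ≤ (B : ℝ) ^ (K + q.primeFactors.card) := by
        apply pow_le_pow_right₀ hBr
        omega
    _ = (B : ℝ) ^ K * (B : ℝ) ^ q.primeFactors.card := pow_add _ _ _
    _ ≤ (B : ℝ) ^ K * (2 ^ B) ^ q.primeFactors.card := by gcongr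
    _ = (B : ℝ) ^ K * (2 ^ q.primeFactors.card) ^ B := by rw [← pow_mul, ← pow_mul, mul_comm B]
    _ ≤ (B : ℝ) ^ K * tau q ^ B := by gcongr

/-- one modulus `q` -/
lemma nested_one {x q : ℕ} {θ ρ η σ : ℝ} {A : List ℕ → ℤ} {D : Finset (List ℕ)} (hL : LS x q θ ρ η σ A D)
    (hx3 : 3 ≤ x) (hρ : 0 < ρ) (hθ : θ ≤ 1) (hqσ : (q : ℝ) ≤ (x : ℝ) ^ (1 / 2 - σ)) (y : List ℕ → ℕ)
    (hy : ∀ l, 2 ≤ y l ∧ y l ≤ x) {B1 B2 B3 : ℝ} (hB3 : 0 ≤ B3)
    (h1 : ∑ l ∈ D, |pn (y l) (q * l.prod) (A l) - pn (y l) q (A l) / (Nat.totient l.prod : ℝ)| ≤ B1)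
    (h2 : IsCoprime (A []) (q : ℤ) → ∀ z : ℕ, z ≤ x → |pn z q (A []) - pi1 z / (Nat.totient q : ℝ)| ≤ B2)
    (h3 : ∀ z : ℕ, 2 ≤ z → z ≤ x → |pi1 z - lin z| ≤ B3) :
    ∑ l ∈ D, |pn (y l) (q * l.prod) (A l) - pi1 (y l) / (Nat.totient (q * l.prod) : ℝ)| ≤
      B1 + (Fintype.card (Fin ⌈1 / ρ⌉₊ → Fin ⌈1 / ρ⌉₊) : ℝ) * (4 * Real.log x ^ 2) * |B2| ∧
    ∑ l ∈ D, |pn (y l) (q * l.prod) (A l) - lin (y l) / (Nat.totient (q * l.prod) : ℝ)| ≤
      B1 + (Fintype.card (Fin ⌈1 / ρ⌉₊ → Fin ⌈1 / ρ⌉₊) : ℝ) * (4 * Real.log x ^ 2) *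
        (|B2| + B3 / (Nat.totient q : ℝ)) := by
  have hx1' : (1 : ℝ) < x := by exact_mod_cast (by omega : 1 < x)
  have hq0 := hL.q0p
  have a1 : (0 : ℝ) < Nat.totient q := by exact_mod_cast Nat.totient_pos.2 hq0
  have hsum : ∑ l ∈ D, 1 / (Nat.totient l.prod : ℝ) ≤
      (Fintype.card (Fin ⌈1 / ρ⌉₊ → Fin ⌈1 / ρ⌉₊) : ℝ) * (4 * Real.log x ^ 2) := by
    refine (sum_codes hL hx1' hρ hθ (fun t => 1 / (Nat.totient t : ℝ)) (fun t => by positivity)).trans ?_
    exact mul_le_mul_of_nonneg_left (sum_inv_phi x hx3 _ (Subset.refl _)) (Nat.cast_nonneg _)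
  have hterm : ∀ l ∈ D, 0 < l.prod ∧ q.Coprime l.prod ∧ |pn (y l) q (A l) - pi1 (y l) / (Nat.totient q : ℝ)| ≤ |B2| := by
    intro l hl
    have hpos : 0 < l.prod := by
      refine Nat.pos_of_ne_zero fun h0 => ?_
      have := (hL.sf l hl).ne_zero
      rw [h0, mul_zero] at this
      exact this rfl
    have hnil : ([] : List ℕ) <:+ l := List.nil_suffix
    have hnD : [] ∈ D := suffix_mem hL.sc hl hnil
    have hcg : (q : ℤ) ∣ A l - A [] := by
      have h2 := hL.co l hl [] hnil (by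
        rw [List.prod_nil, Nat.cast_one, mul_one]
        exact hqσ)
      simpa using h2
    have hcop : IsCoprime (A []) (q : ℤ) := by
      have h2 := hL.cc [] hnD
      simpa using h2
    refine ⟨hpos, (Nat.squarefree_mul_iff.1 (hL.sf l hl)).1, ?_⟩
    rw [pn_congr _ q _ _ hcg]
    exact (h2 hcop (y l) (hy l).2).trans (le_abs_self _)
  constructor
  · have h4 : ∀ l ∈ D, |pn (y l) (q * l.prod) (A l) - pi1 (y l) / (Nat.totient (q * l.prod) : ℝ)| ≤
        |pn (y l) (q * l.prod) (A l) - pn (y l) q (A l) / (Nat.totient l.prod : ℝ)| +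
          1 / (Nat.totient l.prod : ℝ) * |B2| := by
      intro l hl
      obtain ⟨hpos, hco, h5⟩ := hterm l hl
      have a2 : (0 : ℝ) < Nat.totient l.prod := by exact_mod_cast Nat.totient_pos.2 hpos
      have e : pn (y l) (q * l.prod) (A l) - pi1 (y l) / (Nat.totient (q * l.prod) : ℝ) =
          (pn (y l) (q * l.prod) (A l) - pn (y l) q (A l) / (Nat.totient l.prod : ℝ)) +
          1 / (Nat.totient l.prod : ℝ) * (pn (y l) q (A l) - pi1 (y l) / (Nat.totient q : ℝ)) := by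
        rw [Nat.totient_mul hco]
        push_cast
        field_simp
        ring
      rw [e]
      refine (abs_add_le _ _).trans (add_le_add le_rfl ?_)
      rw [abs_mul, abs_of_nonneg (by positivity : (0 : ℝ) ≤ 1 / (Nat.totient l.prod : ℝ))]
      exact mul_le_mul_of_nonneg_left h5 (by positivity)
    refine (sum_le_sum h4).trans ?_
    rw [sum_add_distrib, ← sum_mul]
    exact add_le_add h1 (mul_le_mul_of_nonneg_right hsum (abs_nonneg _))
  · have h4 : ∀ l ∈ D, |pn (y l) (q * l.prod) (A l) - lin (y l) / (Nat.totient (q * l.prod) : ℝ)| ≤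
        |pn (y l) (q * l.prod) (A l) - pn (y l) q (A l) / (Nat.totient l.prod : ℝ)| +
          1 / (Nat.totient l.prod : ℝ) * (|B2| + B3 / (Nat.totient q : ℝ)) := by
      intro l hl
      obtain ⟨hpos, hco, h5⟩ := hterm l hl
      have a2 : (0 : ℝ) < Nat.totient l.prod := by exact_mod_cast Nat.totient_pos.2 hpos
      have e : pn (y l) (q * l.prod) (A l) - lin (y l) / (Nat.totient (q * l.prod) : ℝ) =
          (pn (y l) (q * l.prod) (A l) - pn (y l) q (A l) / (Nat.totient l.prod : ℝ)) +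
          1 / (Nat.totient l.prod : ℝ) * ((pn (y l) q (A l) - pi1 (y l) / (Nat.totient q : ℝ)) +
            (pi1 (y l) - lin (y l)) / (Nat.totient q : ℝ)) := by
        rw [Nat.totient_mul hco]
        push_cast
        field_simp
        ring
      rw [e]
      refine (abs_add_le _ _).trans (add_le_add le_rfl ?_)
      rw [abs_mul, abs_of_nonneg (by positivity : (0 : ℝ) ≤ 1 / (Nat.totient l.prod : ℝ))]
      apply mul_le_mul_of_nonneg_left _ (by positivity)
      refine (abs_add_le _ _).trans (add_le_add h5 ?_)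
      rw [abs_div, Nat.abs_cast]
      exact div_le_div_of_nonneg_right (h3 (y l) (hy l).1 (hy l).2) a1.le
    refine (sum_le_sum h4).trans ?_
    rw [sum_add_distrib, ← sum_mul]
    exact add_le_add h1 (mul_le_mul_of_nonneg_right hsum (by positivity))

end Pool.Agent.U365.LM
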