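import Pool.Agent.U365.LM.F

/-!
# The least prime in the progressions modulo nearly all multiples of single moduli
-/

set_option autoImplicit false

namespace Pool.Agent.U365.LM

open Finset Filter
open H343E (pi1)
open Pool.Agent.R503.N (Mo Mo.pos pn lin)

lemma pi1_lower : ∀ᶠ x : ℕ in atTop, (x : ℝ) ≤ 4 * Real.log x * pi1 x := by
  have h4 : ∀ᶠ x : ℕ in atTop, 8 ≤ Real.log x :=
    (Real.tendsto_log_atTop.comp tendsto_natCast_atTop_atTop).eventually (eventually_ge_atTop _)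
  filter_upwards [li_unif 2, eventually_ge_atTop 4, h4] with x h hx hL
  have h1 := h x (by omega) le_rfl
  have hx4 : (4 : ℝ) ≤ x := by exact_mod_cast hx
  have hL0 : 0 < Real.log x := by linarith
  have h2 : (x - 2 : ℝ) * (1 / Real.log x) ≤ lin x := by
    unfold lin
    have hint : IntervalIntegrable (fun t : ℝ => 1 / Real.log t) MeasureTheory.volume 2 x := by
      apply ContinuousOn.intervalIntegrable
      intro t ht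
      rw [Set.uIcc_of_le (by linarith)] at ht
      refine ContinuousAt.continuousWithinAt ?_
      have ht0 : t ≠ 0 := by linarith [ht.1]
      have : Real.log t ≠ 0 := (Real.log_pos (by linarith [ht.1])).ne'
      exact continuousAt_const.div (Real.continuousAt_log ht0) this
    have h3 : ∫ _t in (2 : ℝ)..x, (1 / Real.log x) ≤ ∫ t in (2 : ℝ)..x, 1 / Real.log t := by
      refine intervalIntegral.integral_mono_on (by linarith) intervalIntegrable_const hint ?_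
      intro t ht
      have ht2 : 0 < Real.log t := Real.log_pos (by linarith [ht.1])
      exact one_div_le_one_div_of_le ht2 (Real.log_le_log (by linarith [ht.1]) ht.2)
    rw [intervalIntegral.integral_const, smul_eq_mul] at h3
    exact h3
  have h5 := (abs_le.1 h1).1
  obtain ⟨L, hLd⟩ : ∃ L : ℝ, L = Real.log x := ⟨_, rfl⟩
  rw [← hLd] at hL hL0 h2 h5 ⊢
  have h6 : (x - 2 : ℝ) * (1 / L) - x / L ^ 2 ≤ pi1 x := by linarith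
  have h7 : (x : ℝ) / (4 * L) ≤ (x - 2 : ℝ) * (1 / L) - x / L ^ 2 := by
    have e : (x - 2 : ℝ) * (1 / L) - x / L ^ 2 - x / (4 * L) = (4 * (x - 2) * L - 4 * x - x * L) / (4 * L ^ 2) := by
      field_simp
      try ring
    have : 0 ≤ (4 * (x - 2) * L - 4 * x - x * L) / (4 * L ^ 2) := by
      apply div_nonneg _ (by positivity)
      nlinarith
    linarith
  have h8 := h7.trans h6
  rw [div_le_iff₀ (by positivity)] at h8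
  linarith

/-- from the sum to the empty progressions -/
lemma empty_bound {x q : ℕ} {c : ℤ} {T : Finset ℕ} {S : ℝ} (hq : 0 < q) (hT : ∀ t ∈ T, 0 < t)
    (hpi : 0 < pi1 x) (h : ∑ t ∈ T, |pn x (q * t) c - pi1 x / (Nat.totient (q * t) : ℝ)| ≤ S / q)
    {Z : ℕ} (hZ : 1 ≤ Z) (R : Finset ℕ) (hR : ∀ t ∈ R, t ∈ T ∧ t ≤ Z ∧ pn x (q * t) c = 0) :
    (R.card : ℝ) ≤ Z * (S / pi1 x) := by
  have hqr : (0 : ℝ) < q := by exact_mod_cast hq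
  have hZr : (0 : ℝ) < Z := by exact_mod_cast hZ
  have h1 : ∑ _t ∈ R, pi1 x / ((q : ℝ) * Z) ≤ ∑ t ∈ R, |pn x (q * t) c - pi1 x / (Nat.totient (q * t) : ℝ)| := by
    refine sum_le_sum fun t ht => ?_
    obtain ⟨h2, h3, h4⟩ := hR t ht
    have ht0 := hT t h2
    rw [h4, zero_sub, abs_neg, abs_of_nonneg (by positivity)]
    have h5 : 0 < Nat.totient (q * t) := Nat.totient_pos.2 (Nat.mul_pos hq ht0)
    have h6 : (0 : ℝ) < (Nat.totient (q * t) : ℝ) := by exact_mod_cast h5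
    have h7 : (Nat.totient (q * t) : ℝ) ≤ (q : ℝ) * Z := by
      have h8 : Nat.totient (q * t) ≤ q * Z := (Nat.totient_le _).trans (Nat.mul_le_mul_left _ h3)
      exact_mod_cast h8
    exact div_le_div_of_nonneg_left hpi.le h6 h7
  have h2 : ∑ t ∈ R, |pn x (q * t) c - pi1 x / (Nat.totient (q * t) : ℝ)| ≤
      ∑ t ∈ T, |pn x (q * t) c - pi1 x / (Nat.totient (q * t) : ℝ)| :=
    sum_le_sum_of_subset_of_nonneg (fun t ht => (hR t ht).1) fun t _ _ => abs_nonneg _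
  rw [sum_const, nsmul_eq_mul] at h1
  have h3 : (R.card : ℝ) * (pi1 x / ((q : ℝ) * Z)) ≤ S / q := h1.trans (h2.trans h)
  have h4 : (R.card : ℝ) * (pi1 x / ((q : ℝ) * Z)) = (R.card : ℝ) * pi1 x / Z / q := by field_simp
  rw [h4, div_le_div_iff_of_pos_right hqr, div_le_iff₀ hZr] at h3
  rw [mul_div_assoc', le_div_iff₀ hpi]
  linarith

theorem least_power (θ κ : ℝ) (hθ1 : 1 / 2 ≤ θ) (hθ : θ < 43 / 84) (hκ0 : 0 ≤ κ) (hκ : κ < 1 / 3) :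
    ∃ η : ℝ, 0 < η ∧ ∀ ε : ℝ, 0 < ε → ∀ ν : ℝ, 0 < ν → ∃ δ : ℝ, 0 < δ ∧ ∀ᶠ x : ℕ in atTop, ∃ P : Finset ℕ,
    (∀ f ∈ P, 2 ≤ f) ∧
    (∀ z : ℕ, 1 ≤ z → ((P.filter (fun f => f ≤ z)).card : ℝ) ≤ (x : ℝ) ^ ν * (1 + z * (x : ℝ) ^ (-(1 / 20) : ℝ))) ∧
    ∀ q : ℕ, 0 < q → (q : ℝ) ≤ (x : ℝ) ^ κ → (∀ f ∈ P, ¬ f ∣ q) → ∀ c : ℤ, IsCoprime c (q : ℤ) →
      ∀ T : Finset ℕ, (∀ t ∈ T, Mo x q c θ ε η t) → ∀ Z : ℕ, 1 ≤ Z → ∀ R : Finset ℕ,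
      (∀ t ∈ R, t ∈ T ∧ t ≤ Z ∧ pn x (q * t) c = 0) → (R.card : ℝ) ≤ Z * (x : ℝ) ^ (-δ) := by
  obtain ⟨η, hη, h⟩ := indiv_power θ κ hθ1 hθ hκ0 hκ
  refine ⟨η, hη, fun ε hε ν hν => ?_⟩
  obtain ⟨δ, hδ, hev⟩ := h ε hε ν hν
  refine ⟨δ / 2, by positivity, ?_⟩
  have h1 : ∀ᶠ X : ℝ in atTop, 4 * Real.log X ^ 1 ≤ X ^ (δ / 2) := Pool.Agent.Y61.Z.ev_log_rpow _ 1 (by positivity)
  filter_upwards [hev, pi1_lower, tendsto_natCast_atTop_atTop.eventually h1, eventually_ge_atTop 3] with x h2 hpi h1 hx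
  obtain ⟨P, hP2, hPc, hP⟩ := h2
  have hx0 : (0 : ℝ) < x := by exact_mod_cast (by omega : 0 < x)
  have hL := Pool.Agent.R503.N.log_ge1 hx
  have hL0 : 0 < Real.log x := by linarith
  have hpi0 : 0 < pi1 x := by
    by_contra h0
    push Not at h0
    nlinarith
  refine ⟨P, hP2, hPc, fun q hq hqκ hqP c hc T hT Z hZ R hR => ?_⟩
  have h3 := empty_bound hq (fun t ht => (hT t ht).pos) hpi0
    (hP q hq hqκ hqP c hc T hT (fun _ => x) (fun _ => le_rfl)) hZ R hR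
  refine h3.trans ?_
  refine mul_le_mul_of_nonneg_left ?_ (Nat.cast_nonneg _)
  rw [div_le_iff₀ hpi0]
  rw [pow_one] at h1
  calc (x : ℝ) ^ (1 - δ) = (x : ℝ) ^ (-δ) * x := by
        rw [show (1 - δ : ℝ) = -δ + 1 by ring, Real.rpow_add hx0, Real.rpow_one]
    _ ≤ (x : ℝ) ^ (-δ) * (4 * Real.log x * pi1 x) := by gcongr
    _ ≤ (x : ℝ) ^ (-δ) * ((x : ℝ) ^ (δ / 2) * pi1 x) := by gcongr
    _ = (x : ℝ) ^ (-(δ / 2)) * pi1 x := by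
        rw [← mul_assoc, ← Real.rpow_add hx0]
        congr 2
        ring

theorem least_log (θ κ : ℝ) (hθ1 : 1 / 2 ≤ θ) (hθ : θ < 43 / 84) (hκ0 : 0 ≤ κ) (hκ : κ < 1 / 3) :
    ∃ η : ℝ, 0 < η ∧ ∀ ε : ℝ, 0 < ε → ∀ U B : ℕ, ∃ C : ℕ, ∀ A : ℕ, ∀ᶠ x : ℕ in atTop, ∃ P : Finset ℕ,
    (∀ f ∈ P, 2 ≤ f ∧ Real.log x ^ A < f) ∧
    (∀ z : ℕ, 1 ≤ z → ((P.filter (fun f => f ≤ z)).card : ℝ) ≤ Real.log x ^ C * (1 + z * (x : ℝ) ^ (-(1 / 20) : ℝ))) ∧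
    ∀ q : ℕ, 0 < q → (q : ℝ) ≤ (x : ℝ) ^ κ → (q.divisors.card : ℝ) ≤ Real.log x ^ B →
      (∀ f ∈ P, ¬ f ∣ q) → ∀ c : ℤ, IsCoprime c (q : ℤ) →
      ∀ T : Finset ℕ, (∀ t ∈ T, Mo x q c θ ε η t) → ∀ Z : ℕ, 1 ≤ Z → ∀ R : Finset ℕ,
      (∀ t ∈ R, t ∈ T ∧ t ≤ Z ∧ pn x (q * t) c = 0) → (R.card : ℝ) ≤ Z / Real.log x ^ U := by
  obtain ⟨η, hη, h⟩ := indiv_log θ κ hθ1 hθ hκ0 hκ
  refine ⟨η, hη, fun ε hε U B => ?_⟩
  obtain ⟨C, hC⟩ := h ε hε (U + 2) B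
  refine ⟨C, fun A => ?_⟩
  have h4 : ∀ᶠ x : ℕ in atTop, 4 ≤ Real.log x :=
    (Real.tendsto_log_atTop.comp tendsto_natCast_atTop_atTop).eventually (eventually_ge_atTop _)
  filter_upwards [hC A, pi1_lower, eventually_ge_atTop 3, h4] with x h2 hpi hx hL
  obtain ⟨P, hP2, hPc, hP⟩ := h2
  have hx0 : (0 : ℝ) < x := by exact_mod_cast (by omega : 0 < x)
  have hL0 : 0 < Real.log x := by linarith
  have hpi0 : 0 < pi1 x := by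
    by_contra h0
    push Not at h0
    nlinarith
  refine ⟨P, hP2, hPc, fun q hq hqκ hqB hqP c hc T hT Z hZ R hR => ?_⟩
  have e0 : x / (q * Real.log x ^ (U + 2)) = x / Real.log x ^ (U + 2) / q := by
    rw [div_div, mul_comm]
  have h3 := empty_bound (S := x / Real.log x ^ (U + 2)) hq (fun t ht => (hT t ht).pos) hpi0
    (by rw [← e0]; exact hP q hq hqκ hqB hqP c hc T hT (fun _ => x) (fun _ => le_rfl)) hZ R hR
  refine h3.trans ?_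
  rw [div_eq_mul_one_div (Z : ℝ)]
  refine mul_le_mul_of_nonneg_left ?_ (Nat.cast_nonneg _)
  rw [div_le_iff₀ hpi0]
  obtain ⟨L, hLd⟩ : ∃ L : ℝ, L = Real.log x := ⟨_, rfl⟩
  rw [← hLd] at hL hL0 hpi ⊢
  have hLU : 0 < L ^ (U + 2) := by positivity
  rw [div_le_iff₀ hLU]
  calc (x : ℝ) ≤ 4 * L * pi1 x := hpi
    _ ≤ L * L * pi1 x := by gcongr
    _ = 1 / L ^ U * pi1 x * L ^ (U + 2) := by
        rw [pow_add]; field_simp

/-- powers of `⌊D^λ⌋` -/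
lemma flo {lam a b : ℝ} (hl : 0 < lam) (ha : 0 ≤ a) (h : b < lam * a) :
    ∀ᶠ D : ℕ in atTop, (D : ℝ) ^ b ≤ ((⌊(D : ℝ) ^ lam⌋₊ : ℕ) : ℝ) ^ a := by
  have h1 : ∀ᶠ D : ℕ in atTop, (2 : ℝ) ^ a ≤ (D : ℝ) ^ (lam * a - b) :=
    ((tendsto_rpow_atTop (by linarith : 0 < lam * a - b)).comp tendsto_natCast_atTop_atTop).eventually
      (eventually_ge_atTop _)
  have h2 : ∀ᶠ D : ℕ in atTop, (2 : ℝ) ≤ (D : ℝ) ^ lam :=
    ((tendsto_rpow_atTop hl).comp tendsto_natCast_atTop_atTop).eventually (eventually_ge_atTop _)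
  filter_upwards [h1, h2, eventually_ge_atTop 1] with D h1 h2 hD
  have hD0 : (0 : ℝ) < D := by exact_mod_cast hD
  have h3 : (D : ℝ) ^ lam / 2 ≤ ((⌊(D : ℝ) ^ lam⌋₊ : ℕ) : ℝ) := by
    have := Nat.lt_floor_add_one ((D : ℝ) ^ lam)
    linarith
  have h4 : ((D : ℝ) ^ lam / 2) ^ a ≤ ((⌊(D : ℝ) ^ lam⌋₊ : ℕ) : ℝ) ^ a :=
    Real.rpow_le_rpow (by positivity) h3 ha
  refine le_trans ?_ h4
  rw [Real.div_rpow (by positivity) (by norm_num), ← Real.rpow_mul hD0.le, le_div_iff₀ (by positivity)]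
  calc (D : ℝ) ^ b * 2 ^ a ≤ (D : ℝ) ^ b * (D : ℝ) ^ (lam * a - b) := by gcongr
    _ = (D : ℝ) ^ (lam * a) := by rw [← Real.rpow_add hD0]; congr 1; ring

/-- admissible `t` in terms of `D` -/
def MoD (D q : ℕ) (c : ℤ) (ε η : ℝ) (t : ℕ) : Prop :=
  Squarefree (q * t) ∧ IsCoprime c (t : ℤ) ∧
    (∀ p : ℕ, p.Prime → p ∣ t → (D : ℝ) ^ ε < p ∧ (p : ℝ) ≤ (D : ℝ) ^ η) ∧ q * t ≤ D

lemma toMo {lam θ η : ℝ} (hl : 0 < lam) (hθ : 0 ≤ θ) (hθ' : 1 < lam * θ) (hη : 0 < η) :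
    ∀ᶠ D : ℕ in atTop, ∀ (q t : ℕ) (c : ℤ) (ε : ℝ), 0 < ε → MoD D q c ε (lam * η / 2) t →
      Mo ⌊(D : ℝ) ^ lam⌋₊ q c θ (ε / lam) η t := by
  filter_upwards [flo hl hθ hθ', flo (b := lam * η / 2) hl hη.le (by nlinarith [mul_pos hl hη]),
    eventually_ge_atTop 1] with D h1 h2 hD q t c ε hε h
  have hD0 : (0 : ℝ) < D := by exact_mod_cast hD
  obtain ⟨h3, h4, h5, h6⟩ := h
  refine ⟨h3, h4, fun p hp hpt => ⟨?_, ?_⟩, ?_⟩
  · refine lt_of_le_of_lt ?_ (h5 p hp hpt).1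
    calc ((⌊(D : ℝ) ^ lam⌋₊ : ℕ) : ℝ) ^ (ε / lam) ≤ ((D : ℝ) ^ lam) ^ (ε / lam) :=
          Real.rpow_le_rpow (Nat.cast_nonneg _) (Nat.floor_le (by positivity)) (by positivity)
      _ = (D : ℝ) ^ ε := by
          rw [← Real.rpow_mul hD0.le]
          congr 1
          field_simp
  · exact (h5 p hp hpt).2.trans h2
  · have h7 : ((q : ℝ) * t) ≤ D := by exact_mod_cast h6
    rw [Real.rpow_one] at h1
    exact h7.trans h1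

theorem least_power_D (lam κ : ℝ) (hlam : 84 / 43 < lam) (hκ0 : 0 ≤ κ) (hκ : κ < lam / 3) :
    ∃ η : ℝ, 0 < η ∧ ∀ ε : ℝ, 0 < ε → ∀ ν : ℝ, 0 < ν → ∃ δ : ℝ, 0 < δ ∧ ∀ᶠ D : ℕ in atTop, ∃ P : Finset ℕ,
    (∀ f ∈ P, 2 ≤ f) ∧
    (∀ z : ℕ, 1 ≤ z → ((P.filter (fun f => f ≤ z)).card : ℝ) ≤ (D : ℝ) ^ ν * (1 + z * (D : ℝ) ^ (-(1 / 12) : ℝ))) ∧
    ∀ q : ℕ, 0 < q → (q : ℝ) ≤ (D : ℝ) ^ κ → (∀ f ∈ P, ¬ f ∣ q) → ∀ c : ℤ, IsCoprime c (q : ℤ) →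
      ∀ T : Finset ℕ, (∀ t ∈ T, MoD D q c ε η t) → ∀ Z : ℕ, 1 ≤ Z → ∀ R : Finset ℕ,
      (∀ t ∈ R, t ∈ T ∧ t ≤ Z ∧ ∀ p : ℕ, p.Prime → (p : ℝ) ≤ (D : ℝ) ^ lam → ¬ ((q * t : ℕ) : ℤ) ∣ (p : ℤ) - c) →
      (R.card : ℝ) ≤ Z * (D : ℝ) ^ (-δ) := by
  have hl : 0 < lam := by linarith
  obtain ⟨θ, hθd⟩ : ∃ θ : ℝ, θ = max (1 / 2) ((1 / lam + 43 / 84) / 2) := ⟨_, rfl⟩
  have hil : 1 / lam < 43 / 84 := by
    rw [div_lt_div_iff₀ hl (by norm_num)]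
    linarith
  have hθ1 : 1 / 2 ≤ θ := by rw [hθd]; exact le_max_left _ _
  have hθ2 : θ < 43 / 84 := by rw [hθd]; exact max_lt (by norm_num) (by linarith)
  have hθ3 : 1 < lam * θ := by
    have h0 : (1 / lam + 43 / 84) / 2 ≤ θ := by rw [hθd]; exact le_max_right _ _
    have h1 : 1 / lam < θ := by linarith
    rw [div_lt_iff₀ hl] at h1
    linarith
  obtain ⟨k, hk⟩ : ∃ k : ℝ, k = (κ / lam + 1 / 3) / 2 := ⟨_, rfl⟩
  have hkl : κ / lam < 1 / 3 := by rw [div_lt_iff₀ hl]; linarith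
  have hkl0 : 0 ≤ κ / lam := by positivity
  have hk1 : 0 ≤ k := by rw [hk]; linarith
  have hk2 : k < 1 / 3 := by rw [hk]; linarith
  have hk3 : κ < lam * k := by
    have h1 : κ / lam < k := by rw [hk]; linarith
    rw [div_lt_iff₀ hl] at h1
    linarith
  obtain ⟨η, hη, h⟩ := least_power θ k hθ1 hθ2 hk1 hk2
  refine ⟨lam * η / 2, by positivity, fun ε hε ν hν => ?_⟩
  obtain ⟨δ, hδ, hev⟩ := h (ε / lam) (by positivity) (ν / lam) (by positivity)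
  refine ⟨lam * δ / 2, by positivity, ?_⟩
  have hx : Tendsto (fun D : ℕ => ⌊(D : ℝ) ^ lam⌋₊) atTop atTop :=
    tendsto_nat_floor_atTop.comp ((tendsto_rpow_atTop hl).comp tendsto_natCast_atTop_atTop)
  filter_upwards [hx.eventually hev, toMo hl (by linarith) hθ3 hη, flo (b := κ) hl hk1 hk3,
    flo (b := lam * δ / 2) hl hδ.le (by nlinarith [mul_pos hl hδ]), flo (b := 1 / 12) (a := 1 / 20) hl (by norm_num) (by linarith),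
    eventually_ge_atTop 1] with D h2 hM hqk hd h12 hD
  obtain ⟨P, hP2, hPc, hP⟩ := h2
  have hD0 : (0 : ℝ) < D := by exact_mod_cast hD
  have hfl : ((⌊(D : ℝ) ^ lam⌋₊ : ℕ) : ℝ) ≤ (D : ℝ) ^ lam := Nat.floor_le (by positivity)
  have hneg : ∀ a b : ℝ, 0 < (D : ℝ) ^ b → (D : ℝ) ^ b ≤ ((⌊(D : ℝ) ^ lam⌋₊ : ℕ) : ℝ) ^ a →
      ((⌊(D : ℝ) ^ lam⌋₊ : ℕ) : ℝ) ^ (-a) ≤ (D : ℝ) ^ (-b) := by
    intro a b hb hab
    rw [Real.rpow_neg (Nat.cast_nonneg _), Real.rpow_neg hD0.le]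
    exact inv_anti₀ hb hab
  refine ⟨P, hP2, fun z hz => (hPc z hz).trans ?_, ?_⟩
  · have h3 : ((⌊(D : ℝ) ^ lam⌋₊ : ℕ) : ℝ) ^ (ν / lam) ≤ (D : ℝ) ^ ν := by
      calc ((⌊(D : ℝ) ^ lam⌋₊ : ℕ) : ℝ) ^ (ν / lam) ≤ ((D : ℝ) ^ lam) ^ (ν / lam) :=
            Real.rpow_le_rpow (Nat.cast_nonneg _) hfl (by positivity)
        _ = (D : ℝ) ^ ν := by
            rw [← Real.rpow_mul hD0.le]
            congr 1
            field_simp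
    have h4 := hneg (1 / 20) (1 / 12) (by positivity) h12
    gcongr
  · intro q hq hqκ hqP c hc T hT Z hZ R hR
    have h3 := hP q hq (hqκ.trans hqk) hqP c hc T (fun t ht => hM q t c ε hε (hT t ht)) Z hZ R (by
      intro t ht
      obtain ⟨h4, h5, h6⟩ := hR t ht
      refine ⟨h4, h5, ?_⟩
      unfold pn
      rw [Nat.cast_eq_zero, card_eq_zero, filter_eq_empty_iff]
      intro p hp hp2
      refine h6 p hp2.1 ?_ hp2.2
      have : (p : ℝ) ≤ ((⌊(D : ℝ) ^ lam⌋₊ : ℕ) : ℝ) := by exact_mod_cast (mem_Icc.1 hp).2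
      exact this.trans hfl)
    refine h3.trans ?_
    have h4 := hneg δ (lam * δ / 2) (by positivity) hd
    gcongr

theorem least_log_D (lam κ : ℝ) (hlam : 84 / 43 < lam) (hκ0 : 0 ≤ κ) (hκ : κ < lam / 3) :
    ∃ η : ℝ, 0 < η ∧ ∀ ε : ℝ, 0 < ε → ∀ U B : ℕ, ∃ C : ℕ, ∀ A : ℕ, ∀ᶠ D : ℕ in atTop, ∃ P : Finset ℕ,
    (∀ f ∈ P, 2 ≤ f ∧ Real.log D ^ A < f) ∧
    (∀ z : ℕ, 1 ≤ z → ((P.filter (fun f => f ≤ z)).card : ℝ) ≤ Real.log D ^ C * (1 + z * (D : ℝ) ^ (-(1 / 12) : ℝ))) ∧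
    ∀ q : ℕ, 0 < q → (q : ℝ) ≤ (D : ℝ) ^ κ → (q.divisors.card : ℝ) ≤ Real.log D ^ B →
      (∀ f ∈ P, ¬ f ∣ q) → ∀ c : ℤ, IsCoprime c (q : ℤ) →
      ∀ T : Finset ℕ, (∀ t ∈ T, MoD D q c ε η t) → ∀ Z : ℕ, 1 ≤ Z → ∀ R : Finset ℕ,
      (∀ t ∈ R, t ∈ T ∧ t ≤ Z ∧ ∀ p : ℕ, p.Prime → (p : ℝ) ≤ (D : ℝ) ^ lam → ¬ ((q * t : ℕ) : ℤ) ∣ (p : ℤ) - c) →
      (R.card : ℝ) ≤ Z / Real.log D ^ U := by
  have hl : 0 < lam := by linarith
  obtain ⟨θ, hθd⟩ : ∃ θ : ℝ, θ = max (1 / 2) ((1 / lam + 43 / 84) / 2) := ⟨_, rfl⟩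
  have hil : 1 / lam < 43 / 84 := by
    rw [div_lt_div_iff₀ hl (by norm_num)]
    linarith
  have hθ1 : 1 / 2 ≤ θ := by rw [hθd]; exact le_max_left _ _
  have hθ2 : θ < 43 / 84 := by rw [hθd]; exact max_lt (by norm_num) (by linarith)
  have hθ3 : 1 < lam * θ := by
    have h0 : (1 / lam + 43 / 84) / 2 ≤ θ := by rw [hθd]; exact le_max_right _ _
    have h1 : 1 / lam < θ := by linarith
    rw [div_lt_iff₀ hl] at h1
    linarith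
  obtain ⟨k, hk⟩ : ∃ k : ℝ, k = (κ / lam + 1 / 3) / 2 := ⟨_, rfl⟩
  have hkl : κ / lam < 1 / 3 := by rw [div_lt_iff₀ hl]; linarith
  have hkl0 : 0 ≤ κ / lam := by positivity
  have hk1 : 0 ≤ k := by rw [hk]; linarith
  have hk2 : k < 1 / 3 := by rw [hk]; linarith
  have hk3 : κ < lam * k := by
    have h1 : κ / lam < k := by rw [hk]; linarith
    rw [div_lt_iff₀ hl] at h1
    linarith
  obtain ⟨η, hη, h⟩ := least_log θ k hθ1 hθ2 hk1 hk2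
  refine ⟨lam * η / 2, by positivity, fun ε hε U B => ?_⟩
  obtain ⟨C, hC⟩ := h (ε / lam) (by positivity) U B
  refine ⟨C + 1, fun A => ?_⟩
  have hx : Tendsto (fun D : ℕ => ⌊(D : ℝ) ^ lam⌋₊) atTop atTop :=
    tendsto_nat_floor_atTop.comp ((tendsto_rpow_atTop hl).comp tendsto_natCast_atTop_atTop)
  have hlog : ∀ᶠ D : ℕ in atTop, lam ^ C + 1 ≤ Real.log D :=
    (Real.tendsto_log_atTop.comp tendsto_natCast_atTop_atTop).eventually (eventually_ge_atTop _)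
  filter_upwards [hx.eventually (hC A), toMo hl (by linarith) hθ3 hη, flo (b := κ) hl hk1 hk3,
    flo (b := 1) (a := 1) hl (by norm_num) (by linarith),
    flo (b := 1 / 12) (a := 1 / 20) hl (by norm_num) (by linarith), hlog,
    eventually_ge_atTop 1] with D h2 hM hqk hd h12 hlog hD
  obtain ⟨P, hP2, hPc, hP⟩ := h2
  have hD0 : (0 : ℝ) < D := by exact_mod_cast hD
  have hlC : 0 < lam ^ C := by positivity
  have hLD : 0 < Real.log D := by linarith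
  have hfl : ((⌊(D : ℝ) ^ lam⌋₊ : ℕ) : ℝ) ≤ (D : ℝ) ^ lam := Nat.floor_le (by positivity)
  have hneg : ∀ a b : ℝ, 0 < (D : ℝ) ^ b → (D : ℝ) ^ b ≤ ((⌊(D : ℝ) ^ lam⌋₊ : ℕ) : ℝ) ^ a →
      ((⌊(D : ℝ) ^ lam⌋₊ : ℕ) : ℝ) ^ (-a) ≤ (D : ℝ) ^ (-b) := by
    intro a b hb hab
    rw [Real.rpow_neg (Nat.cast_nonneg _), Real.rpow_neg hD0.le]
    exact inv_anti₀ hb hab
  rw [Real.rpow_one, Real.rpow_one] at hd
  have hL1 : Real.log D ≤ Real.log ((⌊(D : ℝ) ^ lam⌋₊ : ℕ) : ℝ) := Real.log_le_log hD0 hd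
  have hL2 : Real.log ((⌊(D : ℝ) ^ lam⌋₊ : ℕ) : ℝ) ≤ lam * Real.log D := by
    have := Real.log_le_log (lt_of_lt_of_le hD0 hd) hfl
    rwa [Real.log_rpow hD0] at this
  have hL0 : 0 < Real.log ((⌊(D : ℝ) ^ lam⌋₊ : ℕ) : ℝ) := lt_of_lt_of_le hLD hL1
  refine ⟨P, fun f hf => ⟨(hP2 f hf).1, lt_of_le_of_lt (pow_le_pow_left₀ hLD.le hL1 _) (hP2 f hf).2⟩,
    fun z hz => (hPc z hz).trans ?_, ?_⟩
  · have h3 : Real.log ((⌊(D : ℝ) ^ lam⌋₊ : ℕ) : ℝ) ^ C ≤ Real.log D ^ (C + 1) := by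
      calc Real.log ((⌊(D : ℝ) ^ lam⌋₊ : ℕ) : ℝ) ^ C ≤ (lam * Real.log D) ^ C := pow_le_pow_left₀ hL0.le hL2 _
        _ = lam ^ C * Real.log D ^ C := by rw [mul_pow]
        _ ≤ Real.log D * Real.log D ^ C := by gcongr; linarith
        _ = Real.log D ^ (C + 1) := by rw [pow_succ]; ring
    have h4 := hneg (1 / 20) (1 / 12) (by positivity) h12
    gcongr
  · intro q hq hqκ hqB hqP c hc T hT Z hZ R hR
    have h3 := hP q hq (hqκ.trans hqk) (hqB.trans (pow_le_pow_left₀ hLD.le hL1 _)) hqP c hc T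
      (fun t ht => hM q t c ε hε (hT t ht)) Z hZ R (by
      intro t ht
      obtain ⟨h4, h5, h6⟩ := hR t ht
      refine ⟨h4, h5, ?_⟩
      unfold pn
      rw [Nat.cast_eq_zero, card_eq_zero, filter_eq_empty_iff]
      intro p hp hp2
      refine h6 p hp2.1 ?_ hp2.2
      have : (p : ℝ) ≤ ((⌊(D : ℝ) ^ lam⌋₊ : ℕ) : ℝ) := by exact_mod_cast (mem_Icc.1 hp).2
      exact this.trans hfl)
    refine h3.trans ?_
    have h4 : Real.log D ^ U ≤ Real.log ((⌊(D : ℝ) ^ lam⌋₊ : ℕ) : ℝ) ^ U := pow_le_pow_left₀ hLD.le hL1 _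
    have h5 : 0 < Real.log D ^ U := by positivity
    exact div_le_div_of_nonneg_left (Nat.cast_nonneg _) h5 h4

end Pool.Agent.U365.LM
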